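import Pool.Agent.W_3f1825_h40.TD

set_option autoImplicit false

/-! The data of a central element of infinite order. -/

namespace Pool.Agent.W_3f1825_h40

theorem OfCentral_zpow {G : Type} [Group G] (z : G) (k : ℤ) (s : G) :
    ((Equiv.mulLeft z) ^ k) s = z ^ k * s := by
  rw [Equiv.zpow_mulLeft, Equiv.coe_mulLeft]

theorem OfCentral_comm {G : Type} [Group G] (z : G) (hz : ∀ g, g * z = z * g) (k : ℤ) (s : G) :
    s * z ^ k = z ^ k * s := by
  have h : Commute s z := hz s
  exact (h.zpow_right k).eq

/-- The data attached to a central element of infinite order. -/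
def ofCentral {G : Type} [Group G] (z : G) (hz : ∀ g, g * z = z * g)
    (hinf : ∀ k : ℤ, z ^ k = 1 → k = 0) :
    TD G G (G ⧸ Subgroup.zpowers z) (Subgroup.zpowers z) where
  T := Equiv.mulLeft z
  T_smul := by
    intro g s
    simp only [Equiv.coe_mulLeft, smul_eq_mul]
    rw [← mul_assoc, ← mul_assoc, hz]
  free := by
    intro s k h
    rw [OfCentral_zpow] at h
    exact hinf k (mul_eq_right.1 h)
  q := QuotientGroup.mk
  q_smul := by
    intro g s
    rfl
  q_surj := QuotientGroup.mk_surjective
  q_eq := by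
    intro s s'
    rw [QuotientGroup.eq, Subgroup.mem_zpowers_iff]
    constructor
    · rintro ⟨k, hk⟩
      refine ⟨k, ?_⟩
      rw [OfCentral_zpow, ← OfCentral_comm z hz, hk, mul_inv_cancel_left]
    · rintro ⟨k, hk⟩
      refine ⟨k, ?_⟩
      rw [hk, OfCentral_zpow, ← OfCentral_comm z hz, inv_mul_cancel_left]
  stab := by
    intro g s k h
    rw [OfCentral_zpow, smul_eq_mul] at h
    rw [mul_right_cancel h]
    exact Subgroup.zpow_mem_zpowers z k
  triv := by
    intro g hg
    obtain ⟨k, hk⟩ := Subgroup.mem_zpowers_iff.1 hg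
    refine ⟨k, fun s => ?_⟩
    rw [OfCentral_zpow, smul_eq_mul, hk]

end Pool.Agent.W_3f1825_h40
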