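import Mathlib

set_option autoImplicit false

/-! A divisible finitely generated abelian group is torsion. -/

namespace Pool.Agent.W_3f1825_h40

/-- A finitely generated abelian group, divisible by `p`, is torsion, in the form needed here.
PROOF: `H := Z / (Z ⊓ B)` (or the image of `Z` in `V / B`) is a finitely generated `ℤ`-module
(`Submodule.FG.of_le`, noetherian) with `p • H = H`; by Nakayama
(`Submodule.exists_sub_one_mem_and_smul_eq_zero_of_fg_of_le_smul` for the ideal `(p)`) there is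
`r ≡ 1 mod p` with `r • H = 0`; `r ≠ 0` since `p ≥ 2`; take `r.natAbs`. -/
theorem tor_of_divisible {V : Type} [AddCommGroup V] (Z B Q : Submodule ℤ V) (hQ : Q.FG)
    (hZ : Z ≤ Q ⊔ B) (p : ℕ) (hp : 2 ≤ p)
    (h : ∀ y ∈ Z, ∃ q ∈ Z, y - (p : ℤ) • q ∈ B) : ∃ r : ℕ, r ≠ 0 ∧ ∀ y ∈ Z, (r : ℤ) • y ∈ B := by
  have h1 : Z.map B.mkQ ≤ Q.map B.mkQ := by
    refine (Submodule.map_mono hZ).trans ?_
    rw [Submodule.map_sup, Submodule.mkQ_map_self, sup_bot_eq]
  have h2 : (Z.map B.mkQ).FG := by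
    have h3 : (Q.map B.mkQ).FG := hQ.map _
    have h4 : IsNoetherian ℤ (Q.map B.mkQ) := isNoetherian_of_fg_of_noetherian _ h3
    exact Submodule.FG.of_le h3 h1
  have h5 : Z.map B.mkQ ≤ Ideal.span {(p : ℤ)} • Z.map B.mkQ := by
    rintro _ ⟨y, hy, rfl⟩
    obtain ⟨q, hq, hyq⟩ := h y hy
    have h6 : B.mkQ y = (p : ℤ) • B.mkQ q := by
      rw [← map_smul, ← sub_eq_zero, ← map_sub]
      exact (Submodule.Quotient.mk_eq_zero B).2 hyq
    rw [h6]
    exact Submodule.smul_mem_smul (Ideal.mem_span_singleton_self _)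
      (Submodule.mem_map_of_mem hq)
  obtain ⟨r, hr, hr'⟩ :=
    Submodule.exists_sub_one_mem_and_smul_eq_zero_of_fg_of_le_smul _ _ h2 h5
  rw [Ideal.mem_span_singleton] at hr
  have hr0 : r ≠ 0 := by
    rintro rfl
    have h7 : (p : ℤ) ∣ 1 := by
      have := (dvd_neg (a := (p : ℤ)) (b := (0 - 1 : ℤ))).2 hr
      simpa using this
    have h8 := Int.le_of_dvd one_pos h7
    omega
  refine ⟨r.natAbs, Int.natAbs_ne_zero.2 hr0, fun y hy => ?_⟩
  have h9 : r • B.mkQ y = 0 := hr' _ (Submodule.mem_map_of_mem hy)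
  have h10 : r • y ∈ B := by
    rw [← map_smul] at h9
    exact (Submodule.Quotient.mk_eq_zero B).1 h9
  rcases Int.natAbs_eq r with h11 | h11
  · rw [← h11]
    exact h10
  · have h12 : ((r.natAbs : ℕ) : ℤ) = -r := by omega
    rw [h12, neg_smul]
    exact B.neg_mem h10

end Pool.Agent.W_3f1825_h40
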