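import Pool.Agent.W_3f1825_h40.TDT

set_option autoImplicit false

/-! The coinvariants of `D = C(S) / (T - 1)` are those of `C(S)` under a bigger group. -/

namespace Pool.Agent.W_3f1825_h40

namespace TD

variable {G S B : Type} [Group G] [MulAction G S] [MulAction G B] {N : Subgroup G}
  {Γ : Type} [Group Γ] [MulAction Γ S] (R : Type) [CommRing R]

theorem Trans_proj (D : TD G S B N) (γ : Γ) (g : G) (k : ℤ)
    (h : ∀ s : S, γ • s = g • (D.T ^ k) s) (m : ℕ) (v : (Fin (m + 1) → S) →₀ R) :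
    D.proj.lin R m (perm R Γ (Fin (m + 1) → S) γ v) =
      (D.dSS.cx R).ρ m g (D.proj.lin R m v) := by
  change _ = perm R G (D.dSS.X m) g (D.proj.lin R m v)
  induction v using Finsupp.induction_linear with
  | zero => simp
  | add a b ha hb => simp only [map_add, ha, hb]
  | single x r =>
    rw [perm_single, SMap.lin_single]
    have h1 : D.proj.lin R m (Finsupp.single x r) = Finsupp.single (D.proj.f m x) r :=
      SMap.lin_single R D.proj m x r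
    rw [h1, perm_single]
    congr 1
    have h2 : g • D.proj.f m x = D.proj.f m (g • x) := (D.proj.f_smul m g x).symm
    rw [h2]
    change Quotient.mk (D.std m) (γ • x) = Quotient.mk (D.std m) (g • x)
    rw [std_iff]
    refine ⟨-k, fun i => ?_⟩
    change g • x i = (D.T ^ (-k)) (γ • x i)
    rw [h, D.Tk_smul, ← Equiv.Perm.mul_apply, ← zpow_add]
    simp

/-- PROOF: for `y = γ v - v`: `proj (γ v) = g (proj (T^k v)) = g (proj v)`. -/
theorem proj_Co (D : TD G S B N)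
    (h3 : ∀ γ : Γ, ∃ (g : G) (k : ℤ), ∀ s : S, γ • s = g • (D.T ^ k) s) (m : ℕ)
    {y : (Fin (m + 1) → S) →₀ R} (hy : y ∈ Co (perm R Γ (Fin (m + 1) → S))) :
    D.proj.lin R m y ∈ Co ((D.dSS.cx R).ρ m) := by
  have h : Co (perm R Γ (Fin (m + 1) → S)) ≤
      (Co ((D.dSS.cx R).ρ m)).comap (D.proj.lin R m) := by
    rw [Co, Submodule.span_le]
    rintro _ ⟨γ, v, rfl⟩
    obtain ⟨g, k, hg⟩ := h3 γ
    change D.proj.lin R m (perm R Γ (Fin (m + 1) → S) γ v - v) ∈ Co ((D.dSS.cx R).ρ m)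
    rw [map_sub, Trans_proj R D γ g k hg]
    exact sub_mem_Co ((D.dSS.cx R).ρ m) g (D.proj.lin R m v)
  exact h hy

theorem Trans_perm {γ : Γ} {g : G} (h : ∀ s : S, g • s = γ • s) (m : ℕ)
    (v : (Fin (m + 1) → S) →₀ R) :
    perm R G (Fin (m + 1) → S) g v = perm R Γ (Fin (m + 1) → S) γ v := by
  have h1 : (fun x : Fin (m + 1) → S => g • x) = fun x => γ • x := by
    funext x i
    exact h (x i)
  change Finsupp.lmapDomain R R (fun x : Fin (m + 1) → S => g • x) v =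
    Finsupp.lmapDomain R R (fun x : Fin (m + 1) → S => γ • x) v
  rw [h1]

theorem Trans_Tl (D : TD G S B N) {γ : Γ} (h : ∀ s : S, D.T s = γ • s) (m : ℕ)
    (v : (Fin (m + 1) → S) →₀ R) :
    D.Tl R m v = perm R Γ (Fin (m + 1) → S) γ v := by
  have h1 : (fun (x : Fin (m + 1) → S) (i : Fin (m + 1)) => D.T (x i)) = fun x => γ • x := by
    funext x i
    exact h (x i)
  change Finsupp.lmapDomain R R (fun (x : Fin (m + 1) → S) (i : Fin (m + 1)) => D.T (x i)) v =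
    Finsupp.lmapDomain R R (fun x : Fin (m + 1) → S => γ • x) v
  rw [h1]

/-- PROOF: the submodule `Co ((D.dSS.cx R).ρ m)` is contained in the image of
`Co (perm R Γ _)` under `proj` (span, `proj_surjective`, `h1`), so `y = y' + y''` with
`y' ∈ Co (perm R Γ _)` and `proj y'' = 0`; `y'' = Tl w - w` (`exists_Tl`) is in `Co (perm R Γ _)` by
`h2`. -/
theorem mem_Co_of_proj (D : TD G S B N) (h1 : ∀ g : G, ∃ γ : Γ, ∀ s : S, g • s = γ • s)
    (h2 : ∃ γ : Γ, ∀ s, D.T s = γ • s) (m : ℕ) {y : (Fin (m + 1) → S) →₀ R}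
    (hy : D.proj.lin R m y ∈ Co ((D.dSS.cx R).ρ m)) : y ∈ Co (perm R Γ (Fin (m + 1) → S)) := by
  have h : Co ((D.dSS.cx R).ρ m) ≤
      (Co (perm R Γ (Fin (m + 1) → S))).map (D.proj.lin R m) := by
    rw [Co, Submodule.span_le]
    rintro _ ⟨g, v, rfl⟩
    obtain ⟨w, rfl⟩ := proj_surjective R D m v
    obtain ⟨γ, hγ⟩ := h1 g
    refine ⟨perm R Γ (Fin (m + 1) → S) γ w - w, sub_mem_Co _ γ w, ?_⟩
    rw [map_sub, ← Trans_perm R hγ m w]
    congr 1
    exact SMap.lin_perm R D.proj m g w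
  obtain ⟨y', hy', hyy⟩ := h hy
  obtain ⟨w, hw⟩ := exists_Tl R D m (y - y') (by rw [map_sub, hyy, sub_self])
  obtain ⟨γ, hγ⟩ := h2
  rw [Trans_Tl R D hγ] at hw
  have h4 : y = y' + (perm R Γ (Fin (m + 1) → S) γ w - w) := by
    rw [← hw]
    abel
  rw [h4]
  exact Submodule.add_mem _ hy' (sub_mem_Co _ γ w)

theorem Trans_Z (D : TD G S B N) (h1 : ∀ g : G, ∃ γ : Γ, ∀ s : S, g • s = γ • s)
    (h2 : ∃ γ : Γ, ∀ s, D.T s = γ • s) {m : ℕ} {x : (Fin (m + 1) → S) →₀ R}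
    (hx : D.proj.lin R m x ∈ (D.dSS.cx R).Z m) : x ∈ ((tSS Γ S).cx R).Z m := by
  cases m with
  | zero => exact Submodule.mem_top
  | succ m =>
    rw [Cx.mem_Z_succ] at hx ⊢
    change (tSS Γ S).dd R m x ∈ Co (perm R Γ (Fin (m + 1) → S))
    refine mem_Co_of_proj R D h1 h2 m ?_
    have h3 : D.dSS.dd R m (D.proj.lin R (m + 1) x) = D.proj.lin R m ((tSS G S).dd R m x) :=
      SMap.dd_lin R D.proj m x
    have h4 : (tSS Γ S).dd R m x = (tSS G S).dd R m x := rfl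
    rw [h4, ← h3]
    exact hx

theorem Trans_B (D : TD G S B N)
    (h3 : ∀ γ : Γ, ∃ (g : G) (k : ℤ), ∀ s : S, γ • s = g • (D.T ^ k) s) {m : ℕ}
    {x : (Fin (m + 1) → S) →₀ R} (hx : x ∈ ((tSS Γ S).cx R).B m) :
    D.proj.lin R m x ∈ (D.dSS.cx R).B m := by
  obtain ⟨y, hy⟩ := Cx.mem_B.1 hx
  refine Cx.mem_B.2 ⟨D.proj.lin R (m + 1) y, ?_⟩
  have h4 : D.dSS.dd R m (D.proj.lin R (m + 1) y) = D.proj.lin R m ((tSS G S).dd R m y) :=
    SMap.dd_lin R D.proj m y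
  change D.proj.lin R m x - D.dSS.dd R m (D.proj.lin R (m + 1) y) ∈ _
  rw [h4, ← map_sub]
  exact proj_Co R D h3 m hy

/-- PROOF: let `x ∈ Z m` of `D`, `x = proj x'`. `x' ∈ Z m` of `(tSS Γ S).cx R` by
`mem_Co_of_proj` (note `(tSS Γ S).dd = (tSS G S).dd` definitionally), so `x' = dd y + i`, and
`x = dd (proj y) + proj i`, `proj i ∈ Co` by `proj_Co`. -/
theorem van_d (D : TD G S B N) (h1 : ∀ g : G, ∃ γ : Γ, ∀ s : S, g • s = γ • s)
    (h2 : ∃ γ : Γ, ∀ s, D.T s = γ • s)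
    (h3 : ∀ γ : Γ, ∃ (g : G) (k : ℤ), ∀ s : S, γ • s = g • (D.T ^ k) s) {m : ℕ}
    (h : ((tSS Γ S).cx R).Van m) : (D.dSS.cx R).Van m := by
  intro x hx
  obtain ⟨x', rfl⟩ := proj_surjective R D m x
  exact Trans_B R D h3 (h (Trans_Z R D h1 h2 hx))

theorem fg_d (D : TD G S B N) (h1 : ∀ g : G, ∃ γ : Γ, ∀ s : S, g • s = γ • s)
    (h2 : ∃ γ : Γ, ∀ s, D.T s = γ • s)
    (h3 : ∀ γ : Γ, ∃ (g : G) (k : ℤ), ∀ s : S, γ • s = g • (D.T ^ k) s) {m : ℕ}
    (h : ((tSS Γ S).cx R).Fg m) : (D.dSS.cx R).Fg m := by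
  obtain ⟨Q, hQ, hQ'⟩ := h
  refine ⟨Q.map (D.proj.lin R m), hQ.map _, fun x hx => ?_⟩
  obtain ⟨x', rfl⟩ := proj_surjective R D m x
  obtain ⟨q, hq, b, hb, hqb⟩ := Submodule.mem_sup.1 (hQ' (Trans_Z R D h1 h2 hx))
  rw [← hqb, map_add]
  exact Submodule.add_mem _ (Submodule.mem_sup_left ⟨q, hq, rfl⟩)
    (Submodule.mem_sup_right (Trans_B R D h3 hb))

end TD

end Pool.Agent.W_3f1825_h40
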