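import Pool.Agent.W_3f1825_h40.Mult
import Pool.Agent.W_3f1825_h40.Trans
import Pool.Agent.W_3f1825_h40.OfCentral
import Pool.Agent.W_3f1825_h40.TorDiv

set_option autoImplicit false

/-! The algebraic main theorem: the homology of the quotient of `G` by a central infinite cyclic
subgroup is torsion in high degrees. -/

namespace Pool.Agent.W_3f1825_h40

theorem AlgMain_zpow {L : Type} [Group L] (τ : L) (T : Equiv.Perm L) (hT : ∀ s, T s = τ * s)
    (k : ℤ) (s : L) : (T ^ k) s = τ ^ k * s := by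
  have h : T = Equiv.mulLeft τ := Equiv.ext hT
  rw [h, Equiv.zpow_mulLeft]
  rfl

theorem AlgMain_data {G L : Type} [Group G] [Group L] [MulAction G L] (z : G)
    (hinf : ∀ k : ℤ, z ^ k = 1 → k = 0) {p : ℕ} (j : G →* L)
    (hact : ∀ (g : G) (l : L), g • l = j g * l)
    (hj : Function.Injective j) (τ : L) (hτ : ∀ l, l * τ = τ * l) (hτp : τ ^ p = j z)
    (hgen : ∀ l, ∃ (g : G) (k : ℤ), l = j g * τ ^ k)
    (hsep : ∀ (g : G) (k : ℤ), j g = τ ^ k → g ∈ Subgroup.zpowers z) :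
    ∃ D' : TD G L (G ⧸ Subgroup.zpowers z) (Subgroup.zpowers z),
      (∀ s, D'.T s = τ * s) ∧ ∀ g : G, D'.q (j g) = QuotientGroup.mk g := by
  have hτc : ∀ (k : ℤ) (l : L), l * τ ^ k = τ ^ k * l := fun k l =>
    (Commute.zpow_right (show Commute l τ from hτ l) k)
  have hz' : ∀ i : ℤ, j (z ^ i) = τ ^ ((p : ℤ) * i) := fun i => by
    rw [map_zpow, ← hτp, zpow_mul, zpow_natCast]
  choose gg kk hgk using hgen
  have key : ∀ (l : L) (g : G) (k : ℤ), l = j g * τ ^ k →
      (QuotientGroup.mk (gg l) : G ⧸ Subgroup.zpowers z) = QuotientGroup.mk g := by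
    intro l g k hl
    rw [QuotientGroup.eq]
    apply hsep _ (kk l - k)
    have h1 : j (gg l) * τ ^ kk l = j g * τ ^ k := by rw [← hgk, ← hl]
    rw [map_mul, map_inv, inv_mul_eq_iff_eq_mul, zpow_sub, ← mul_assoc, h1]
    group
  refine ⟨{ T := Equiv.mulLeft τ
            T_smul := ?_
            free := ?_
            q := fun l => QuotientGroup.mk (gg l)
            q_smul := ?_
            q_surj := ?_
            q_eq := ?_
            stab := ?_
            triv := ?_ }, fun s => rfl, fun g => key (j g) g 0 (by simp)⟩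
  · intro g s
    show τ * (g • s) = g • (τ * s)
    rw [hact, hact, ← mul_assoc, ← mul_assoc, hτ]
  · intro s k h
    rw [AlgMain_zpow τ _ (fun _ => rfl)] at h
    have h1 : τ ^ k = 1 := mul_eq_right.1 h
    apply hinf
    apply hj
    rw [hz', mul_comm, zpow_mul, h1, one_zpow, map_one]
  · intro g l
    rw [key (g • l) (g * gg l) (kk l) (by rw [hact, map_mul, mul_assoc, ← hgk])]
    rfl
  · intro b
    induction b using QuotientGroup.induction_on with
    | H g => exact ⟨j g, key (j g) g 0 (by simp)⟩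
  · intro l l'
    constructor
    · intro h
      rw [QuotientGroup.eq] at h
      obtain ⟨c, hc⟩ := Subgroup.mem_zpowers_iff.1 h
      refine ⟨(p : ℤ) * c + kk l' - kk l, ?_⟩
      rw [AlgMain_zpow τ _ (fun _ => rfl)]
      have h1 : gg l' = gg l * z ^ c := by rw [hc]; group
      have h2 : l' = j (gg l) * τ ^ ((p : ℤ) * c) * τ ^ kk l' := by
        rw [← hz', ← map_mul, ← h1, ← hgk]
      have h3 : j (gg l) = l * τ ^ (-kk l) := by
        have h4 := hgk l
        rw [zpow_neg, eq_mul_inv_iff_mul_eq]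
        exact h4.symm
      rw [h3] at h2
      calc l' = l * τ ^ (-kk l) * τ ^ ((p : ℤ) * c) * τ ^ kk l' := h2
        _ = l * τ ^ ((p : ℤ) * c + kk l' - kk l) := by
          rw [mul_assoc, mul_assoc, ← zpow_add, ← zpow_add]
          congr 2
          ring
        _ = τ ^ ((p : ℤ) * c + kk l' - kk l) * l := hτc _ _
    · rintro ⟨k, hk⟩
      rw [AlgMain_zpow τ _ (fun _ => rfl)] at hk
      exact (key l' (gg l) (kk l + k) (by
        rw [hk, ← hτc, zpow_add, ← mul_assoc, ← hgk])).symm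
  · intro g s k h
    rw [AlgMain_zpow τ _ (fun _ => rfl), hact] at h
    exact hsep g k (mul_right_cancel h)
  · intro g hg
    obtain ⟨i, rfl⟩ := Subgroup.mem_zpowers_iff.1 hg
    refine ⟨(p : ℤ) * i, fun s => ?_⟩
    rw [AlgMain_zpow τ _ (fun _ => rfl), hact, hz']

/-- ALGEBRAIC MAIN THEOREM. PROOF: `D = ofCentral z` (acting group for `van_d`, `fg_d`: `Γ = G`).
`D'`: `S' = L` with the action of `G` by `g • l = j g * l` (`MulAction.compHom`), `T = ` left
multiplication by `τ`, `q' l = ` class of `g` if `l = j g * τ ^ k` (well defined by `hsep`; choose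
`g` by `hgen`), `N = zpowers z`; freeness: `τ ^ k = 1` gives (`k ≠ 0`) `j (z ^ k) = τ ^ (p k) = 1`;
`stab`: `j g * l = τ ^ k * l` gives `j g = τ ^ k`, `hsep`; `triv`: `j (z ^ i) = τ ^ (p i)`. For
`van_d` take `Γ = L`. `Mor D D' p` with `f = j`. `divis` gives for `m ≥ N` divisibility by `p` of
the homology of `C(B)` in degree `m`, `fg_all` finite generation, `tor_of_divisible` gives
`Tor m` for `m ≥ N`; `tor_down` (uses `Van (m+1)` of `D`, true for `m ≥ n`) gives `Tor m` for all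
`m ≥ n` (downward induction: `Tor (m + 2 i)` for large `i`). -/
theorem tor_final {G L : Type} [Group G] [Group L] (z : G) (hz : ∀ g, g * z = z * g)
    (hinf : ∀ k : ℤ, z ^ k = 1 → k = 0) {p : ℕ} (hp : p.Prime) (j : G →* L)
    (hj : Function.Injective j) (τ : L) (hτ : ∀ l, l * τ = τ * l) (hτp : τ ^ p = j z)
    (hgen : ∀ l, ∃ (g : G) (k : ℤ), l = j g * τ ^ k)
    (hsep : ∀ (g : G) (k : ℤ), j g = τ ^ k → g ∈ Subgroup.zpowers z) (n N : ℕ)
    (hFg : ∀ m, ((tSS G G).cx ℤ).Fg m) (hVan : ∀ m, n < m → ((tSS G G).cx ℤ).Van m)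
    (hVanL : ∀ m, N < m → ((tSS L L).cx ℤ).Van m) (m : ℕ) (hm : n ≤ m) :
    ((tSS G (G ⧸ Subgroup.zpowers z)).cx ℤ).Tor m := by
  let D := ofCentral z hz hinf
  have hD1 : ∀ g : G, ∃ γ : G, ∀ s : G, g • s = γ • s := fun g => ⟨g, fun _ => rfl⟩
  have hD2 : ∃ γ : G, ∀ s, D.T s = γ • s := ⟨z, fun _ => rfl⟩
  have hD3 : ∀ γ : G, ∃ (g : G) (k : ℤ), ∀ s : G, γ • s = g • (D.T ^ k) s :=
    fun γ => ⟨γ, 0, fun s => by rw [zpow_zero]; rfl⟩
  have hDVan : ∀ m, n < m → (D.dSS.cx ℤ).Van m := fun m h =>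
    TD.van_d ℤ D hD1 hD2 hD3 (hVan m h)
  have hDFg : ∀ m, (D.dSS.cx ℤ).Fg m := fun m => TD.fg_d ℤ D hD1 hD2 hD3 (hFg m)
  letI : MulAction G L := MulAction.compHom L j
  have hact : ∀ (g : G) (l : L), g • l = j g * l := fun _ _ => rfl
  obtain ⟨D', hT, hq⟩ := AlgMain_data z hinf j hact hj τ hτ hτp hgen hsep
  have hD'1 : ∀ g : G, ∃ γ : L, ∀ s : L, g • s = γ • s := fun g => ⟨j g, fun _ => rfl⟩
  have hD'2 : ∃ γ : L, ∀ s : L, D'.T s = γ • s := ⟨τ, fun s => hT s⟩
  have hD'3 : ∀ γ : L, ∃ (g : G) (k : ℤ), ∀ s : L, γ • s = g • (D'.T ^ k) s := by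
    intro γ
    obtain ⟨g, k, hgk⟩ := hgen γ
    refine ⟨g, k, fun s => ?_⟩
    rw [AlgMain_zpow τ _ hT, hact, ← mul_assoc, ← hgk]
    rfl
  have hD'Van : ∀ m, N < m → (D'.dSS.cx ℤ).Van m := fun m h =>
    TD.van_d ℤ D' hD'1 hD'2 hD'3 (hVanL m h)
  let F : TD.Mor D D' p :=
    { f := j
      f_smul := fun g s => map_mul j g s
      f_q := fun s => hq s
      f_T := fun s => by
        have h1 : j (z * s) = (D'.T ^ p) (j s) := by
          rw [map_mul, ← hτp, ← zpow_natCast, ← zpow_natCast, AlgMain_zpow τ _ hT]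
        exact h1 }
  have hTor : ∀ m, N ≤ m → ((tSS G (G ⧸ Subgroup.zpowers z)).cx ℤ).Tor m := by
    intro m hm
    obtain ⟨Q, hQ, hQ'⟩ := TD.fg_all (R := ℤ) (D := D) hDFg m
    obtain ⟨r, hr, hr'⟩ := tor_of_divisible _ _ Q hQ hQ' p hp.two_le
      (fun y hy => F.divis m (hD'Van (m + 1) (by omega)) y hy)
    exact fun y hy => ⟨r, hr, hr' y hy⟩
  have hind : ∀ i m, n ≤ m → N ≤ m + 2 * i →
      ((tSS G (G ⧸ Subgroup.zpowers z)).cx ℤ).Tor m := by
    intro i
    induction i with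
    | zero => exact fun m _ h2 => hTor m (by omega)
    | succ i ih =>
      intro m h1 h2
      exact TD.tor_down (D := D) m (hDVan (m + 1) (by omega)) (ih (m + 2) (by omega) (by omega))
  exact hind N m hm (by omega)

end Pool.Agent.W_3f1825_h40
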