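import Pool.Agent.W_3f1825_h40.SS
import Pool.Agent.W_3f1825_top.TDefs

set_option autoImplicit false

/-! From the graded tuple complex to the ungraded one of `W_3f1825_top/TDefs.lean`. -/

namespace Pool.Agent.W_3f1825_h40

open Pool.Agent.W_3f1825_top

/-- Tuples of length `n + 1` as tuples. -/
noncomputable def tinc (R S : Type) [CommRing R] (n : ℕ) :
    ((Fin (n + 1) → S) →₀ R) →ₗ[R] TC R S :=
  Finsupp.lmapDomain R R (fun v : Fin (n + 1) → S => (⟨n, v⟩ : Tu S))

theorem tinc_single {R S : Type} [CommRing R] (n : ℕ) (v : Fin (n + 1) → S) (r : R) :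
    tinc R S n (Finsupp.single v r) = Finsupp.single (⟨n, v⟩ : Tu S) r :=
  Finsupp.mapDomain_single

/-- The component of degree `n`. -/
noncomputable def tcomp (R S : Type) [CommRing R] (n : ℕ) :
    TC R S →ₗ[R] ((Fin (n + 1) → S) →₀ R) :=
  Finsupp.lcomapDomain (fun v : Fin (n + 1) → S => (⟨n, v⟩ : Tu S))
    (fun a b h => by simpa using h)

theorem tcomp_apply {R S : Type} [CommRing R] (n : ℕ) (y : TC R S) (v : Fin (n + 1) → S) :
    tcomp R S n y v = y ⟨n, v⟩ := rfl

theorem tcomp_single_self {R S : Type} [CommRing R] (n : ℕ) (v : Fin (n + 1) → S) (r : R) :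
    tcomp R S n (Finsupp.single (⟨n, v⟩ : Tu S) r) = Finsupp.single v r := by
  classical
  ext w
  rw [tcomp_apply, Finsupp.single_apply, Finsupp.single_apply]
  by_cases h : v = w
  · subst h; simp
  · have h' : (⟨n, v⟩ : Tu S) ≠ ⟨n, w⟩ := fun h2 => h (by simpa using h2)
    rw [if_neg h, if_neg h']

theorem tcomp_single_ne {R S : Type} [CommRing R] {n m : ℕ} (h : m ≠ n) (v : Fin (m + 1) → S)
    (r : R) : tcomp R S n (Finsupp.single (⟨m, v⟩ : Tu S) r) = 0 := by
  classical
  ext w
  rw [tcomp_apply, Finsupp.single_apply, if_neg, Finsupp.zero_apply]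
  intro h2
  exact h (congrArg Sigma.fst h2)

theorem tinc_tcomp {R S : Type} [CommRing R] {n : ℕ} {y : TC R S} (hy : y ∈ tin R S n) :
    tinc R S n (tcomp R S n y) = y := by
  have h1 : ∀ t ∈ y.support, t.1 = n := fun t ht => (Finsupp.mem_supported R y).1 hy ht
  have h2 : y = ∑ t ∈ y.support, Finsupp.single t (y t) := (Finsupp.sum_single y).symm
  have h3 : tinc R S n (tcomp R S n y) =
      ∑ t ∈ y.support, tinc R S n (tcomp R S n (Finsupp.single t (y t))) := by
    conv_lhs => rw [h2]
    rw [map_sum, map_sum]
  rw [h3]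
  conv_rhs => rw [h2]
  refine Finset.sum_congr rfl fun t ht => ?_
  obtain ⟨m, v⟩ := t
  have hm : m = n := h1 _ ht
  subst hm
  rw [tcomp_single_self, tinc_single]

theorem tinc_mem {R S : Type} [CommRing R] (n : ℕ) (y : (Fin (n + 1) → S) →₀ R) :
    tinc R S n y ∈ tin R S n := by
  induction y using Finsupp.induction_linear with
  | zero => rw [map_zero]; exact Submodule.zero_mem _
  | add a b ha hb => rw [map_add]; exact Submodule.add_mem _ ha hb
  | single v r =>
    rw [tinc_single]
    exact Finsupp.single_mem_supported R r rfl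

theorem bdT_tinc {R S : Type} [CommRing R] {G : Type} [Group G] [MulAction G S] (n : ℕ)
    (y : (Fin (n + 2) → S) →₀ R) :
    bdT R (tinc R S (n + 1) y) = tinc R S n ((tSS G S).dd R n y) := by
  induction y using Finsupp.induction_linear with
  | zero => simp
  | add a b ha hb => simp only [map_add, ha, hb]
  | single v r =>
    rw [tinc_single, SS.dd_single, map_sum, bdT, Finsupp.linearCombination_single, bdTu,
      Finset.smul_sum]
    refine Finset.sum_congr rfl fun i _ => ?_
    rw [tinc_single, Finsupp.smul_single, smul_eq_mul, mul_comm]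

theorem tinc_Co {R S : Type} [CommRing R] {G : Type} [Group G] [MulAction G S] (n : ℕ)
    {y : (Fin (n + 1) → S) →₀ R} (hy : y ∈ Co (perm R G (Fin (n + 1) → S))) :
    tinc R S n y ∈ dltT (S := S) R G := by
  have h : Co (perm R G (Fin (n + 1) → S)) ≤ (dltT (S := S) R G).comap (tinc R S n) := by
    rw [Co, Submodule.span_le]
    rintro _ ⟨g, v, rfl⟩
    refine Submodule.subset_span ⟨(g, tinc R S n v), ?_⟩
    change mpT R (fun s : S => g • s) (tinc R S n v) - tinc R S n v = _
    rw [map_sub]
    congr 1
    induction v using Finsupp.induction_linear with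
    | zero => simp
    | add a b ha hb => simp only [map_add, ha, hb]
    | single v r =>
      rw [tinc_single, perm_single, tinc_single, mpT, Finsupp.lmapDomain_apply,
        Finsupp.mapDomain_single]
      rfl
  exact h hy

theorem tcomp_dltT {R S : Type} [CommRing R] {G : Type} [Group G] [MulAction G S] (n : ℕ)
    {y : TC R S} (hy : y ∈ dltT (S := S) R G) :
    tcomp R S n y ∈ Co (perm R G (Fin (n + 1) → S)) := by
  have h : dltT (S := S) R G ≤ (Co (perm R G (Fin (n + 1) → S))).comap (tcomp R S n) := by
    rw [dltT, Submodule.span_le]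
    rintro _ ⟨⟨g, v⟩, rfl⟩
    change tcomp R S n (mpT R (fun s : S => g • s) v - v) ∈ Co (perm R G (Fin (n + 1) → S))
    rw [map_sub]
    have h1 : tcomp R S n (mpT R (fun s : S => g • s) v) =
        perm R G (Fin (n + 1) → S) g (tcomp R S n v) := by
      induction v using Finsupp.induction_linear with
      | zero => simp
      | add a b ha hb => simp only [map_add, ha, hb]
      | single t r =>
        obtain ⟨m, v⟩ := t
        rw [mpT, Finsupp.lmapDomain_apply, Finsupp.mapDomain_single]
        change tcomp R S n (Finsupp.single (⟨m, fun i => g • v i⟩ : Tu S) r) = _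
        by_cases hm : m = n
        · subst hm
          rw [tcomp_single_self, tcomp_single_self, perm_single]
          rfl
        · rw [tcomp_single_ne hm, tcomp_single_ne hm, map_zero]
    rw [h1]
    exact sub_mem_Co _ g _
  exact h hy

/-- PROOF: for `y ∈ tin R B n` let `y' : (Fin (n+1) → B) →₀ R` be its component (`y = ∑`
`single ⟨n, v⟩`, i.e. `y = lmapDomain (Sigma.mk n) y'`; conversely the degree `m` component of a
chain is a linear map commuting with the action of `G` and mapping `dltT` into `Co`). `bdT y ∈ dltT`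
gives `y' ∈ Z n` of `(tSS G B).cx R`, so `y' - dd w' ∈ Co`; map back:
`lmapDomain (Sigma.mk n)` maps `Co` into `dltT`, and `bdT (lmapDomain (Sigma.mk (n+1)) w') =
lmapDomain (Sigma.mk n) (dd w')`. (For `n = 0` there is no condition.) -/
theorem hB_of_van (R : Type) [CommRing R] {G B : Type} [Group G] [MulAction G B] (n : ℕ)
    (h : ((tSS G B).cx R).Van n) : ∀ y ∈ tin R B n, bdT R y ∈ dltT (S := B) R G →
      ∃ w ∈ tin R B (n + 1), y - bdT R w ∈ dltT (S := B) R G := by
  intro y hy hbd
  have hz : tcomp R B n y ∈ ((tSS G B).cx R).Z n := by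
    cases n with
    | zero => exact Submodule.mem_top
    | succ n =>
      rw [Cx.mem_Z_succ]
      have h1 : bdT R y = tinc R B n ((tSS G B).dd R n (tcomp R B (n + 1) y)) := by
        rw [← bdT_tinc, tinc_tcomp hy]
      have h2 := tcomp_dltT n hbd
      rw [h1] at h2
      have h3 : ∀ c : (Fin (n + 1) → B) →₀ R, tcomp R B n (tinc R B n c) = c := by
        intro c
        induction c using Finsupp.induction_linear with
        | zero => simp
        | add a b ha hb => simp only [map_add, ha, hb]
        | single v r => rw [tinc_single, tcomp_single_self]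
      rw [h3] at h2
      exact h2
  obtain ⟨w, hw⟩ := Cx.mem_B.1 (h hz)
  refine ⟨tinc R B (n + 1) w, tinc_mem _ _, ?_⟩
  rw [bdT_tinc (G := G)]
  have h4 := tinc_Co n hw
  rw [map_sub, tinc_tcomp hy] at h4
  exact h4

end Pool.Agent.W_3f1825_h40
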