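import Pool.Agent.W_3f1825_h40.Cx

set_option autoImplicit false

/-! The comparison theorem for complexes with the lifting property. -/

namespace Pool.Agent.W_3f1825_h40

variable {R G : Type} [CommRing R] [Group G]

theorem Cmp_lift {C D : Cx R G} {N : Subgroup G} (hC : C.Lifts N) (hD : D.Triv N) (m n : ℕ)
    (ψ : C.V m →ₗ[R] D.V n) (hψ : ∀ g v, ψ (C.ρ m g v) = D.ρ n g (ψ v))
    (h : ∀ v, ∃ y, D.d n y = ψ v) :
    ∃ χ : C.V m →ₗ[R] D.V (n + 1), (∀ g v, χ (C.ρ m g v) = D.ρ (n + 1) g (χ v)) ∧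
      ∀ v, D.d n (χ v) = ψ v :=
  hC m (D.V (n + 1)) (D.V n) (D.ρ (n + 1)) (D.ρ n) (hD (n + 1)) (D.d n) (D.d_ρ n) ψ hψ h

/-- A stage of the construction of a chain map. -/
structure CmpStage (C D : Cx R G) (m : ℕ) where
  /-- the map in degree `m` -/
  a : C.V m →ₗ[R] D.V m
  /-- the map in degree `m + 1` -/
  b : C.V (m + 1) →ₗ[R] D.V (m + 1)
  ea : ∀ g x, a (C.ρ m g x) = D.ρ m g (a x)
  eb : ∀ g x, b (C.ρ (m + 1) g x) = D.ρ (m + 1) g (b x)
  comm : ∀ x, D.d m (b x) = a (C.d m x)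

theorem CmpStage.exists_next {C D : Cx R G} {N : Subgroup G} (hC : C.Lifts N) (hD : D.Triv N)
    {A' : Aug D} (hA' : A'.Exact) {m : ℕ} (s : CmpStage C D m) :
    ∃ t : CmpStage C D (m + 1), t.a = s.b := by
  obtain ⟨χ, h1, h2⟩ := Cmp_lift hC hD (m + 2) (m + 1) (s.b.comp (C.d (m + 1)))
    (fun g v => by
      rw [LinearMap.comp_apply, LinearMap.comp_apply, C.d_ρ, s.eb])
    (fun v => by
      apply hA'.succ
      rw [LinearMap.comp_apply, s.comm, C.d_d, map_zero])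
  exact ⟨⟨s.b, χ, s.eb, h1, h2⟩, rfl⟩

/-- A stage of the construction of a homotopy. -/
structure CmpHStage {C D : Cx R G} (f f' : CMap C D) (m : ℕ) where
  /-- the map in degree `m` -/
  a : C.V m →ₗ[R] D.V (m + 1)
  /-- the map in degree `m + 1` -/
  b : C.V (m + 1) →ₗ[R] D.V (m + 2)
  ea : ∀ g x, a (C.ρ m g x) = D.ρ (m + 1) g (a x)
  eb : ∀ g x, b (C.ρ (m + 1) g x) = D.ρ (m + 2) g (b x)
  comm : ∀ x, f.f (m + 1) x - f'.f (m + 1) x = D.d (m + 1) (b x) + a (C.d m x)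

theorem CmpHStage.exists_next {C D : Cx R G} {N : Subgroup G} (hC : C.Lifts N) (hD : D.Triv N)
    {A' : Aug D} (hA' : A'.Exact) {f f' : CMap C D} {m : ℕ} (s : CmpHStage f f' m) :
    ∃ t : CmpHStage f f' (m + 1), t.a = s.b := by
  obtain ⟨χ, h1, h2⟩ := Cmp_lift hC hD (m + 2) (m + 2)
    (f.f (m + 2) - f'.f (m + 2) - s.b.comp (C.d (m + 1)))
    (fun g v => by
      simp only [LinearMap.sub_apply, LinearMap.comp_apply, C.d_ρ, s.eb, f.equiv, f'.equiv,
        map_sub])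
    (fun v => by
      apply hA'.succ
      simp only [LinearMap.sub_apply, LinearMap.comp_apply, map_sub, f.comm, f'.comm]
      rw [s.comm, C.d_d, map_zero, add_zero, sub_self])
  refine ⟨⟨s.b, χ, s.eb, h1, fun x => ?_⟩, rfl⟩
  rw [h2]
  simp only [LinearMap.sub_apply, LinearMap.comp_apply]
  abel

/-- COMPARISON THEOREM, EXISTENCE. PROOF: build the maps `f m` together with the equations by
recursion on `m`. Degree 0: apply `hC 0` with `A = D.V 0`, `B = R` (with the trivial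
representation `1`), `φ = A'.ε`, `ψ = r • A.ε`; `φ` is surjective on the range of `ψ` because
`A'.ε (s • x₁) = s` for the element `x₁` of `hA'.surj`. Degree 1: `ψ = f 0 ∘ C.d 0`,
`φ = D.d 0`: for `v` one has `A'.ε (f 0 (C.d 0 v)) = r * A.ε (C.d 0 v) = 0`, use `hA'.zero`.
Degree `m + 2`: `ψ = f (m+1) ∘ C.d (m+1)`, `φ = D.d (m+1)`: `D.d m (f (m+1) (C.d (m+1) v)) =
f m (C.d m (C.d (m+1) v)) = 0`, use `hA'.succ`. Formally: recursion on the sigma type of pairs
`(f m, f (m+1))` (both equivariant) with `D.d m ∘ f (m+1) = f m ∘ C.d m`. -/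
theorem exists_cmap {C D : Cx R G} {N : Subgroup G} (hC : C.Lifts N) (hD : D.Triv N)
    (A : Aug C) (A' : Aug D) (hA' : A'.Exact) (r : R) :
    ∃ f : CMap C D, ∀ x, A'.ε (f.f 0 x) = r * A.ε x := by
  obtain ⟨x₁, hx₁⟩ := hA'.surj
  obtain ⟨f0, h1, h2⟩ := hC 0 (D.V 0) R (D.ρ 0) (1 : Representation R G R) (hD 0) A'.ε
    (fun g a => A'.ε_ρ g a) (r • A.ε)
    (fun g v => by
      rw [LinearMap.smul_apply, LinearMap.smul_apply, A.ε_ρ]
      rfl)
    (fun v => ⟨(r * A.ε v) • x₁, by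
      rw [map_smul, hx₁, LinearMap.smul_apply, smul_eq_mul, smul_eq_mul, mul_one]⟩)
  obtain ⟨f1, h3, h4⟩ := Cmp_lift hC hD 1 0 (f0.comp (C.d 0))
    (fun g v => by rw [LinearMap.comp_apply, LinearMap.comp_apply, C.d_ρ, h1])
    (fun v => by
      apply hA'.zero
      rw [LinearMap.comp_apply, h2, LinearMap.smul_apply, A.ε_d, smul_zero])
  let s0 : CmpStage C D 0 := ⟨f0, f1, h1, h3, h4⟩
  choose nxt hnxt using fun (m : ℕ) (s : CmpStage C D m) => s.exists_next hC hD hA'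
  let seq : ∀ m, CmpStage C D m := fun m => Nat.rec s0 (fun m s => nxt m s) m
  have hseq : ∀ m, (seq (m + 1)).a = (seq m).b := fun m => hnxt m (seq m)
  refine ⟨⟨fun m => (seq m).a, fun m x => ?_, fun m => (seq m).ea⟩, fun x => ?_⟩
  · rw [hseq]
    exact (seq m).comm x
  · exact h2 x

/-- COMPARISON THEOREM, UNIQUENESS. PROOF: put `k m = f m - f' m`. Degree 0: `ψ = k 0`,
`φ = D.d 0` (use `hA'.zero`) gives `h 0`. Degree `m + 1`: `ψ = k (m+1) - h m ∘ C.d m`,
`φ = D.d (m+1)`; `D.d m (ψ v) = k m (C.d m v) - D.d m (h m (C.d m v))`, and this is `0` for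
`m = 0` by `h 0`, and for `m = m' + 1` it is `h m' (C.d m' (C.d m v)) = 0`. Recursion as in
`exists_cmap`. -/
theorem exists_htpy {C D : Cx R G} {N : Subgroup G} (hC : C.Lifts N) (hD : D.Triv N)
    (A' : Aug D) (hA' : A'.Exact) (f f' : CMap C D)
    (h : ∀ x, A'.ε (f.f 0 x) = A'.ε (f'.f 0 x)) : Nonempty (Htpy f f') := by
  obtain ⟨k0, h1, h2⟩ := Cmp_lift hC hD 0 0 (f.f 0 - f'.f 0)
    (fun g v => by simp only [LinearMap.sub_apply, f.equiv, f'.equiv, map_sub])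
    (fun v => by
      apply hA'.zero
      rw [LinearMap.sub_apply, map_sub, h, sub_self])
  obtain ⟨k1, h3, h4⟩ := Cmp_lift hC hD 1 1 (f.f 1 - f'.f 1 - k0.comp (C.d 0))
    (fun g v => by
      simp only [LinearMap.sub_apply, LinearMap.comp_apply, C.d_ρ, h1, f.equiv, f'.equiv,
        map_sub])
    (fun v => by
      apply hA'.succ
      simp only [LinearMap.sub_apply, LinearMap.comp_apply, map_sub, f.comm, f'.comm]
      rw [h2, LinearMap.sub_apply, sub_self])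
  let s0 : CmpHStage f f' 0 := ⟨k0, k1, h1, h3, fun x => by
    rw [h4]
    simp only [LinearMap.sub_apply, LinearMap.comp_apply]
    abel⟩
  choose nxt hnxt using fun (m : ℕ) (s : CmpHStage f f' m) => s.exists_next hC hD hA'
  let seq : ∀ m, CmpHStage f f' m := fun m => Nat.rec s0 (fun m s => nxt m s) m
  have hseq : ∀ m, (seq (m + 1)).a = (seq m).b := fun m => hnxt m (seq m)
  refine ⟨⟨fun m => (seq m).a, fun m => (seq m).ea, fun x => ?_, fun m x => ?_⟩⟩
  · exact (h2 x).symm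
  · rw [hseq]
    exact (seq m).comm x

/-- Two resolutions with the lifting property are homotopy equivalent. -/
theorem exists_equiv {C D : Cx R G} {N : Subgroup G} (hC : C.Lifts N) (hC' : C.Triv N)
    (hD : D.Lifts N) (hD' : D.Triv N) (A : Aug C) (hA : A.Exact) (A' : Aug D) (hA' : A'.Exact) :
    ∃ (f : CMap C D) (g : CMap D C), (∀ x, A'.ε (f.f 0 x) = A.ε x) ∧
      (∀ x, A.ε (g.f 0 x) = A'.ε x) ∧ Nonempty (Htpy (g.comp f) (CMap.id C)) ∧
      Nonempty (Htpy (f.comp g) (CMap.id D)) := by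
  obtain ⟨f, hf⟩ := exists_cmap hC hD' A A' hA' 1
  obtain ⟨g, hg⟩ := exists_cmap hD hC' A' A hA 1
  refine ⟨f, g, fun x => by rw [hf, one_mul], fun x => by rw [hg, one_mul], ?_, ?_⟩
  · refine exists_htpy hC hC' A hA _ _ fun x => ?_
    rw [CMap.comp_f, CMap.id_f, hg, hf, one_mul, one_mul]
  · refine exists_htpy hD hD' A' hA' _ _ fun x => ?_
    rw [CMap.comp_f, CMap.id_f, hf, hg, one_mul, one_mul]

theorem triv_bot (C : Cx R G) : C.Triv ⊥ := by
  intro m g hg x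
  rw [Subgroup.mem_bot.1 hg, map_one]
  rfl

end Pool.Agent.W_3f1825_h40
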