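import Pool.Agent.W_3f1825_h40.Sing
import Pool.Agent.W_3f1825_top.Cov
import Pool.Agent.W_3f1825_top.FinN

set_option autoImplicit false

/-! Singular chains of a quotient by a free properly discontinuous action are the coinvariants of
the singular chains (graded version). -/

namespace Pool.Agent.W_3f1825_h40

open Pool.Agent.W_MP_6d5819_gt Pool.Agent.W_3f1825_top

variable {G E M : Type} [Group G] [TopologicalSpace E] [TopologicalSpace M] [MulAction G E]
  [ContinuousConstSMul G E] (R : Type) [CommRing R]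

/-- Push forward of graded singular chains. -/
noncomputable def pu {X Y : Type} [TopologicalSpace X] [TopologicalSpace Y] (f : C(X, Y)) (m : ℕ) :
    (C(Simp (m + 1), X) →₀ R) →ₗ[R] (C(Simp (m + 1), Y) →₀ R) :=
  Finsupp.lmapDomain R R (fun σ : C(Simp (m + 1), X) => f.comp σ)

theorem pu_single {X Y : Type} [TopologicalSpace X] [TopologicalSpace Y] (f : C(X, Y)) (m : ℕ)
    (σ : C(Simp (m + 1), X)) (r : R) :
    pu R f m (Finsupp.single σ r) = Finsupp.single (f.comp σ) r :=
  Finsupp.mapDomain_single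

theorem bdry_single {X : Type} [TopologicalSpace X] (m : ℕ) (σ : C(Simp (m + 2), X)) (r : R) :
    bdry R X m (Finsupp.single σ r) =
      ∑ i : Fin (m + 2), Finsupp.single (face σ i) ((-1 : R) ^ (i : ℕ) * r) := by
  simp [bdry, LinearMap.sum_apply, Finsupp.mapDomain_single]

/-- PROOF: on basis elements. -/
theorem bdry_pu {X Y : Type} [TopologicalSpace X] [TopologicalSpace Y] (f : C(X, Y)) (m : ℕ)
    (c : C(Simp (m + 2), X) →₀ R) : bdry R Y m (pu R f (m + 1) c) = pu R f m (bdry R X m c) := by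
  induction c using Finsupp.induction_linear with
  | zero => simp
  | add a b ha hb => simp only [map_add, ha, hb]
  | single σ r =>
    rw [pu_single, bdry_single, bdry_single, map_sum]
    refine Finset.sum_congr rfl fun i _ => ?_
    rw [pu_single, face_comp]

variable {f : C(E, M)} (hf : IsQuotientCoveringMap f G)
include hf

/-- PROOF: `mem_Co_perm` with `q σ = f.comp σ`, and `exists_smul_eq` (`W_3f1825_top/Cov.lean`). -/
theorem mem_Co_of_pu_eq_zero (m : ℕ) (c : C(Simp (m + 1), E) →₀ R) (hc : pu R f m c = 0) :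
    c ∈ Co (((sSS G E).cx R).ρ m) := by
  refine mem_Co_perm (G := G) (fun σ : C(Simp (m + 1), E) => f.comp σ) ?_ c hc
  intro σ τ h
  obtain ⟨g, hg⟩ := exists_smul_eq hf τ σ fun s => (DFunLike.congr_fun h s).symm
  exact ⟨g, hg.symm⟩

/-- PROOF: `f (g • x) = f x` (`hf.map_smul`). -/
theorem pu_eq_zero_of_mem_Co (m : ℕ) (c : C(Simp (m + 1), E) →₀ R)
    (hc : c ∈ Co (((sSS G E).cx R).ρ m)) : pu R f m c = 0 := by
  have key : ∀ (g : G) (v : C(Simp (m + 1), E) →₀ R),
      pu R f m (perm R G C(Simp (m + 1), E) g v) = pu R f m v := by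
    intro g v
    induction v using Finsupp.induction_linear with
    | zero => simp
    | add a b ha hb => simp only [map_add, ha, hb]
    | single σ r =>
      rw [perm_single, pu_single, pu_single]
      congr 1
      ext s
      exact hf.map_smul g
  refine Submodule.span_induction (p := fun c _ => pu R f m c = 0) ?_ ?_ ?_ ?_ hc
  · rintro _ ⟨g, v, rfl⟩
    rw [map_sub, sub_eq_zero]
    exact key g v
  · exact map_zero _
  · intro a b _ _ ha hb
    rw [map_add, ha, hb, add_zero]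
  · intro r a _ ha
    rw [map_smul, ha, smul_zero]

/-- PROOF: `exists_lift_simplex` (`W_3f1825_top/Cov.lean`) and surjectivity of `f`. -/
theorem pu_surjective (m : ℕ) : Function.Surjective (pu R f m) := by
  intro c
  induction c using Finsupp.induction_linear with
  | zero => exact ⟨0, map_zero _⟩
  | add a b ha hb =>
    obtain ⟨a', rfl⟩ := ha
    obtain ⟨b', rfl⟩ := hb
    exact ⟨a' + b', map_add _ _ _⟩
  | single σ r =>
    obtain ⟨x, hx⟩ := hf.surjective (σ (vtx 0))
    obtain ⟨τ, -, hτ⟩ := exists_lift_simplex hf.isCoveringMap σ (vtx 0) x hx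
    refine ⟨Finsupp.single τ r, ?_⟩
    rw [pu_single]
    have : f.comp τ = σ := by
      ext s
      exact hτ s
    rw [this]

/-- Push forwards of cycles modulo `Co` are cycles. -/
theorem inc_pu_mem_cyc {m : ℕ} {x : ((sSS G E).cx R).V m} (hx : x ∈ ((sSS G E).cx R).Z m) :
    inc R M m (pu R f m x) ∈ cyc R m (Set.univ : Set M) := by
  have h1 : inc R M m (pu R f m x) ∈ chIn R m (Set.univ : Set M) :=
    (mem_chIn_univ_iff R m _).2 ⟨_, rfl⟩
  refine Submodule.mem_inf.2 ⟨h1, ?_⟩
  rw [LinearMap.mem_ker]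
  cases m with
  | zero => exact bd_chIn_zero R h1
  | succ m =>
    rw [bd_inc, bdry_pu]
    have h2 : pu R f m (bdry R E m x) = 0 :=
      pu_eq_zero_of_mem_Co R hf m _ (Cx.mem_Z_succ.1 hx)
    rw [h2, map_zero]

/-- Chains whose push forward is a boundary are boundaries modulo `Co`. -/
theorem mem_B_of_inc_pu {m : ℕ} {x : ((sSS G E).cx R).V m}
    (hx : inc R M m (pu R f m x) ∈ bds R m (Set.univ : Set M)) : x ∈ ((sSS G E).cx R).B m := by
  obtain ⟨w, hw, hw2⟩ := hx
  obtain ⟨w', rfl⟩ := (mem_chIn_univ_iff R (m + 1) _).1 hw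
  obtain ⟨w'', rfl⟩ := pu_surjective R hf (m + 1) w'
  rw [bd_inc] at hw2
  have h1 := inc_injective R M m hw2
  rw [bdry_pu] at h1
  refine Cx.mem_B.2 ⟨w'', ?_⟩
  refine mem_Co_of_pu_eq_zero R hf m _ ?_
  change pu R f m (x - bdry R E m w'') = 0
  rw [map_sub, h1, sub_self]

/-- Vanishing of the homology of the quotient. PROOF: let `x ∈ Z m` for `(sSS G E).cx R`. By
`pu_eq_zero_of_mem_Co` and `bdry_pu` the chain `inc (pu x)` is in `cyc R m univ`
(`mem_chIn_univ_iff`, `bd_inc`), so it is `bd w`, `w = inc w'`, `w' = pu w''`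
(`pu_surjective`), and `pu (x - dd w'') = 0` (`inc_injective`), so `x - dd w'' ∈ Co` and `x ∈ B m`
(`Cx.mem_B`). (For `m = 0` every chain is a cycle: `bd_chIn_zero`.) -/
theorem van_of_hz {m : ℕ} (h : cyc R m (Set.univ : Set M) ≤ bds R m (Set.univ : Set M)) :
    ((sSS G E).cx R).Van m := by
  intro x hx
  exact mem_B_of_inc_pu R hf (h (inc_pu_mem_cyc R hf hx))

/-- Finite generation. PROOF: `fg_lift` (`W_3f1825_top/FinN.lean`) with `V = ` graded chains of `E`,
`Y = Z m`, `θ = inc ∘ pu`, `B = bds R m univ`: it gives a finitely generated `Y₀ ≤ Z m` with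
`inc (pu (y - y₀)) ∈ bds`, and then `y - y₀ ∈ B m` as in `van_of_hz`. -/
theorem fg_of_fg [IsNoetherianRing R] {m : ℕ}
    (h : ∃ Q : Submodule R (Ch R M), Q.FG ∧
      cyc R m (Set.univ : Set M) ≤ Q ⊔ bds R m (Set.univ : Set M)) :
    ((sSS G E).cx R).Fg m := by
  obtain ⟨Q, hQ, hQ2⟩ := h
  obtain ⟨Y₀, hY₀, -, hY⟩ := fg_lift (((sSS G E).cx R).Z m) ((inc R M m).comp (pu R f m)) Q
    (bds R m (Set.univ : Set M)) hQ (fun y hy => hQ2 (inc_pu_mem_cyc R hf hy))
  refine ⟨Y₀, hY₀, ?_⟩
  intro y hy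
  obtain ⟨y₀, hy₀, h1⟩ := hY y hy
  have h2 : y - y₀ ∈ ((sSS G E).cx R).B m := mem_B_of_inc_pu R hf h1
  have h3 := Submodule.add_mem _ (Submodule.mem_sup_left hy₀ : y₀ ∈ Y₀ ⊔ ((sSS G E).cx R).B m)
    (Submodule.mem_sup_right h2)
  rwa [add_sub_cancel] at h3

end Pool.Agent.W_3f1825_h40
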