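import Pool.Agent.W_3f1825_top.LocE

set_option autoImplicit false

/-! Locally Euclidean spaces: local compactness, local path connectedness. -/

open Topology

namespace Pool.Agent.W_3f1825_h40

open Pool.Agent.W_3f1825_top

variable {E : Type} [TopologicalSpace E]

/-- The charts of a locally Euclidean space. -/
@[reducible] noncomputable def LEC_charted {d : ℕ} (h : LocEuc d E) :
    ChartedSpace (Fin d → ℝ) E where
  atlas := Set.range fun x => (h x).choose
  chartAt x := (h x).choose
  mem_chart_source x := (h x).choose_spec
  chart_mem_atlas x := ⟨x, rfl⟩

/-- PROOF: an open subset homeomorphic to an open subset of `ℝ^d` is locally compact, so every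
point has a basis of compact neighbourhoods. -/
theorem locallyCompact_of_locEuc {d : ℕ} (h : LocEuc d E) : LocallyCompactSpace E := by
  let _ := LEC_charted h
  exact ChartedSpace.locallyCompactSpace (Fin d → ℝ) E

/-- PROOF: every point has a basis of path connected neighbourhoods (images of small balls under
the inverse of a chart). -/
theorem locallyPathConnected_of_locEuc {d : ℕ} (h : LocEuc d E) :
    LocallyPathConnectedSpace E := by
  let _ := LEC_charted h
  exact ChartedSpace.locallyPathConnectedSpace (Fin d → ℝ) E

end Pool.Agent.W_3f1825_h40
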