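import Pool.Agent.W_3f1825_h40.Sing

set_option autoImplicit false

/-! Singular chains of a contractible space. -/

namespace Pool.Agent.W_3f1825_h40

open Pool.Agent.W_MP_6d5819_gt

variable (R : Type) [CommRing R]

/-- Contractible spaces have cone data with constant end map. -/
theorem SingEx_cone (E : Type) [TopologicalSpace E] [ContractibleSpace E] :
    ∃ (D : ConeData (Set.univ : Set E)) (e : E), ∀ z, D.H (z, 1) = e := by
  obtain ⟨e, ⟨F⟩⟩ := id_nullhomotopic E
  refine ⟨⟨fun q => F (Set.projIcc 0 1 zero_le_one q.2, q.1), ?_, ?_, ?_, ?_⟩, e, ?_⟩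
  · apply Continuous.continuousOn
    exact F.continuous.comp ((continuous_projIcc.comp continuous_snd).prodMk continuous_fst)
  · intro z _ τ _
    exact Set.mem_univ _
  · intro z _
    show F (Set.projIcc 0 1 zero_le_one 0, z) = z
    rw [Set.projIcc_left]
    exact F.apply_zero z
  · intro z _
    apply Filter.Eventually.of_forall
    intro w
    show F (Set.projIcc 0 1 zero_le_one 1, w) = F (Set.projIcc 0 1 zero_le_one 1, z)
    rw [Set.projIcc_right]
    exact (F.apply_one w).trans (F.apply_one z).symm
  · intro z
    show F (Set.projIcc 0 1 zero_le_one 1, z) = e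
    rw [Set.projIcc_right]
    exact F.apply_one z

/-- The cone operator on graded chains. -/
noncomputable def SingEx_k {E : Type} [TopologicalSpace E] (D : ConeData (Set.univ : Set E))
    (m : ℕ) : (C(Simp (m + 1), E) →₀ R) →ₗ[R] (C(Simp (m + 2), E) →₀ R) :=
  Finsupp.lmapDomain R R (fun σ => D.cone σ (Set.subset_univ _))

theorem SingEx_k_single {E : Type} [TopologicalSpace E] (D : ConeData (Set.univ : Set E))
    (m : ℕ) (σ : C(Simp (m + 1), E)) (r : R) :
    SingEx_k R D m (Finsupp.single σ r) =
      Finsupp.single (D.cone σ (Set.subset_univ _)) r :=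
  Finsupp.mapDomain_single

theorem SingEx_bdry {E : Type} [TopologicalSpace E] (m : ℕ) (σ : C(Simp (m + 2), E)) (r : R) :
    bdry R E m (Finsupp.single σ r) =
      ∑ i : Fin (m + 2), Finsupp.single (face σ i) ((-1 : R) ^ (i : ℕ) * r) := by
  simp [bdry, LinearMap.sum_apply, Finsupp.mapDomain_single]

theorem SingEx_succ {E : Type} [TopologicalSpace E] (D : ConeData (Set.univ : Set E)) (m : ℕ)
    (c : C(Simp (m + 2), E) →₀ R) :
    bdry R E (m + 1) (SingEx_k R D (m + 1) c) + SingEx_k R D m (bdry R E m c) = c := by
  induction c using Finsupp.induction_linear with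
  | zero => simp
  | add a b ha hb =>
    simp only [map_add]
    rw [show ∀ p q r s : C(Simp (m + 2), E) →₀ R, p + q + (r + s) = (p + r) + (q + s) by
      intros; abel, ha, hb]
  | single σ r =>
    rw [SingEx_k_single, SingEx_bdry, SingEx_bdry, map_sum, Fin.sum_univ_succ]
    simp_rw [SingEx_k_single, D.face_cone_succ]
    rw [D.face_cone_zero, show ∀ p q t : C(Simp (m + 2), E) →₀ R, p + q + t = p + (q + t) from
      add_assoc, ← Finset.sum_add_distrib]
    have h : ∀ i : Fin (m + 2), (Finsupp.single (D.cone (face σ i)
          ((range_face_subset σ i).trans (Set.subset_univ _))) ((-1 : R) ^ (i.succ : ℕ) * r) +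
        Finsupp.single (D.cone (face σ i) ((range_face_subset σ i).trans (Set.subset_univ _)))
          ((-1 : R) ^ (i : ℕ) * r)) = 0 := by
      intro i
      rw [← Finsupp.single_add]
      simp [pow_succ]
    rw [Finset.sum_eq_zero fun i _ => h i]
    simp

theorem SingEx_zero {E : Type} [TopologicalSpace E] (D : ConeData (Set.univ : Set E)) (e : E)
    (he : ∀ z, D.H (z, 1) = e) (c : C(Simp 1, E) →₀ R) :
    bdry R E 0 (SingEx_k R D 0 c) =
      c - Finsupp.single (ContinuousMap.const _ e) (sumc R _ c) := by
  induction c using Finsupp.induction_linear with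
  | zero => simp
  | add a b ha hb =>
    simp only [map_add, Finsupp.single_add]
    rw [ha, hb]
    abel
  | single σ r =>
    rw [SingEx_k_single, SingEx_bdry, Fin.sum_univ_two, D.face_cone_zero, D.face_cone_one, he,
      sumc_single]
    simp [sub_eq_add_neg]

/-- Singular chains of a contractible space form a resolution. PROOF: contractibility gives
`H : E × ℝ → E` (extend a homotopy `E × [0,1] → E` from the identity to a constant map by
projecting `ℝ` to `[0,1]`, `Set.projIcc`), so a `ConeData (Set.univ : Set E)`; on graded chains put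
`k m = lmapDomain (fun σ => D.cone σ _)`; `face_cone_zero`, `face_cone_succ`, `face_cone_one` give
`dd (k c) + k (dd c) = c` in positive degrees and `dd 0 (k 0 c) = c - sumc c • single const 1`. -/
theorem sAug_exact (G E : Type) [Group G] [TopologicalSpace E] [MulAction G E]
    [ContinuousConstSMul G E] [ContractibleSpace E] : ((sSS G E).aug R).Exact := by
  obtain ⟨D, e, he⟩ := SingEx_cone E
  refine ⟨⟨Finsupp.single (ContinuousMap.const _ e) 1, ?_⟩, ?_, ?_⟩
  · rw [SS.aug_ε, sumc_single]
  · intro x hx
    refine ⟨SingEx_k R D 0 x, ?_⟩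
    rw [SS.aug_ε] at hx
    have h1 := SingEx_zero R D e he x
    rw [hx, Finsupp.single_zero, sub_zero] at h1
    exact h1
  · intro m x hx
    refine ⟨SingEx_k R D (m + 1) x, ?_⟩
    have h1 := SingEx_succ R D m x
    have h2 : bdry R E m x = 0 := hx
    rw [h2, map_zero, add_zero] at h1
    exact h1

end Pool.Agent.W_3f1825_h40
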