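import Pool.Agent.W_3f1825_h40.Tors
import Pool.Agent.W_3f1825_h40.Cov
import Pool.Agent.W_3f1825_h40.SingEx
import Pool.Agent.W_3f1825_h40.LEC
import Pool.Agent.W_3f1825_top.Top

set_option autoImplicit false

/-! Groups acting freely on contractible locally Euclidean spaces are torsion free; the homology
of the coinvariants vanishes above the dimension. -/

open Topology

namespace Pool.Agent.W_3f1825_h40

open Pool.Agent.W_3f1825_top

variable {G E : Type} [Group G] [TopologicalSpace E] [T2Space E] [MulAction G E]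
  [ContinuousConstSMul G E]

/-- PROOF: `locallyCompact_of_locEuc`, `isQuotientCoveringMap_quotientMk_of_properlyDiscontinuousSMul`
(Mathlib) with `IsCancelSMul G E` from `hfree`; the quotient is locally Euclidean
(`LocEuc_quotient`), `hvan` (`W_3f1825_top/Dim.lean`), `van_of_hz`. -/
theorem van_of_locEuc (R : Type) [CommRing R] {d : ℕ} (hd : 1 ≤ d) (hE : LocEuc d E)
    [ProperlyDiscontinuousSMul G E] (hfree : ∀ (g : G) (x : E), g • x = x → g = 1) (m : ℕ)
    (hm : d < m) : ((sSS G E).cx R).Van m := by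
  have hlc : LocallyCompactSpace E := locallyCompact_of_locEuc hE
  have hc : IsCancelSMul G E :=
    isCancelSMul_iff_eq_one_of_smul_eq.mpr (fun g x h => hfree g x h)
  have hq : IsQuotientCoveringMap (Quotient.mk <| MulAction.orbitRel G E) G :=
    isQuotientCoveringMap_quotientMk_of_properlyDiscontinuousSMul
  let f : C(E, Quotient (MulAction.orbitRel G E)) := ⟨Quotient.mk _, continuous_quot_mk⟩
  have hf : IsQuotientCoveringMap f G := hq
  exact van_of_hz R hf (hvan hd (LocEuc_quotient hf hE) hm)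

/-- PROOF: suppose `g ≠ 1`. `Γ = Multiplicative (ZMod ℓ)` acts on `E` through
`Γ →* G`, `ofAdd 1 ↦ g` (`zmultiplesHom`/`zpowersHom` and `ZMod.lift`), freely because `ℓ` is prime
(an element of `Γ` acting with a fixed point maps to `1` in `G`, and the map is injective);
finite groups act properly discontinuously (`Finite.to_properlyDiscontinuousSMul`).
`van_of_locEuc` for `Γ`, `sLifts`, `sAug_exact` contradict `exists_not_van` with `N = d + 1`. -/
theorem no_torsion [ContractibleSpace E] {d : ℕ} (hd : 1 ≤ d) (hE : LocEuc d E)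
    (hfree : ∀ (g : G) (x : E), g • x = x → g = 1) {ℓ : ℕ} (hℓ : ℓ.Prime) (g : G)
    (hg : g ^ ℓ = 1) : g = 1 := by
  by_contra hg1
  have hfact : Fact ℓ.Prime := ⟨hℓ⟩
  have ho : orderOf g = ℓ := orderOf_eq_prime hg hg1
  obtain ⟨e⟩ : Nonempty (Multiplicative (ZMod ℓ) ≃* Subgroup.zpowers g) := by
    have hcyc : IsCyclic (Subgroup.zpowers g) := inferInstance
    have hcard : Nat.card (Subgroup.zpowers g) = ℓ := by rw [Nat.card_zpowers, ho]
    have e := zmodCyclicMulEquiv hcyc
    rw [hcard] at e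
    exact ⟨e⟩
  let φ : Multiplicative (ZMod ℓ) →* G := (Subgroup.zpowers g).subtype.comp e.toMonoidHom
  have hφ : Function.Injective φ :=
    (Subgroup.subtype_injective (Subgroup.zpowers g)).comp e.injective
  let act : MulAction (Multiplicative (ZMod ℓ)) E := MulAction.compHom E φ
  have hcont : ContinuousConstSMul (Multiplicative (ZMod ℓ)) E :=
    ⟨fun γ => continuous_const_smul (φ γ)⟩
  have hfin : Finite (Multiplicative (ZMod ℓ)) := inferInstance
  have hfree' : ∀ (γ : Multiplicative (ZMod ℓ)) (x : E), γ • x = x → γ = 1 := fun γ x h =>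
    hφ ((hfree (φ γ) x h).trans (map_one φ).symm)
  obtain ⟨m, hm, hnv⟩ := exists_not_van hℓ ((sSS (Multiplicative (ZMod ℓ)) E).cx ℤ)
    (sLifts ℤ (Multiplicative (ZMod ℓ)) E hfree') ((sSS (Multiplicative (ZMod ℓ)) E).aug ℤ)
    (sAug_exact ℤ (Multiplicative (ZMod ℓ)) E) (d + 1)
  exact hnv (van_of_locEuc ℤ hd hE hfree' m (by omega))

/-- Elements different from `1` have infinite order. PROOF: if `g ^ k = 1`, `k ≠ 0`, then (replace
`k` by `|k|`) `g` has finite order `o > 1`; take a prime `ℓ ∣ o`; `g ^ (o / ℓ)` has order `ℓ`,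
contradiction to `no_torsion`. -/
theorem zpow_ne_one [ContractibleSpace E] {d : ℕ} (hd : 1 ≤ d) (hE : LocEuc d E)
    (hfree : ∀ (g : G) (x : E), g • x = x → g = 1) {g : G} (hg : g ≠ 1) (k : ℤ)
    (hk : g ^ k = 1) : k = 0 := by
  by_contra hk0
  have hfin : IsOfFinOrder g := isOfFinOrder_iff_zpow_eq_one.mpr ⟨k, hk0, hk⟩
  have ho : 0 < orderOf g := hfin.orderOf_pos
  have ho1 : orderOf g ≠ 1 := fun h => hg (orderOf_eq_one_iff.mp h)
  have hℓ : (orderOf g).minFac.Prime := Nat.minFac_prime ho1
  have hdvd : (orderOf g).minFac ∣ orderOf g := Nat.minFac_dvd _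
  have h1 : (g ^ (orderOf g / (orderOf g).minFac)) ^ (orderOf g).minFac = 1 := by
    rw [← pow_mul, Nat.div_mul_cancel hdvd, pow_orderOf_eq_one]
  have h2 := no_torsion hd hE hfree hℓ _ h1
  have h3 : orderOf g ∣ orderOf g / (orderOf g).minFac := orderOf_dvd_of_pow_eq_one h2
  have h4 : 0 < orderOf g / (orderOf g).minFac :=
    Nat.div_pos (Nat.minFac_le ho) hℓ.pos
  have h5 : orderOf g / (orderOf g).minFac < orderOf g := Nat.div_lt_self ho hℓ.one_lt
  exact absurd (Nat.le_of_dvd h4 h3) (not_le.mpr h5)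

end Pool.Agent.W_3f1825_h40
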