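import Pool.Agent.W_3f1825_h40.OverA

set_option autoImplicit false

/-! The overgroup obtained by adjoining a central `p`-th root acts freely on `E^p`. -/

open Topology

namespace Pool.Agent.W_3f1825_h40

variable {G E : Type} [Group G] [TopologicalSpace E] [MulAction G E] [ContinuousConstSMul G E]

/-- the diagonal action -/
noncomputable def Over_D (G E : Type) [Group G] [TopologicalSpace E] [MulAction G E]
    [ContinuousConstSMul G E] (k : ℕ) : G →* ((Fin (k + 1) → E) ≃ₜ (Fin (k + 1) → E)) where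
  toFun g := Homeomorph.smul g
  map_one' := Homeomorph.ext fun x => one_smul G x
  map_mul' a b := Homeomorph.ext fun x => mul_smul a b x

theorem Over_D_apply (k : ℕ) (g : G) (x : Fin (k + 1) → E) :
    Over_D G E k g x = fun i => g • x i := rfl

theorem Over_comm (k : ℕ) (z : G) (hz : ∀ g, g * z = z * g) (g : G) (n : Multiplicative ℤ) :
    Commute (Over_D G E k g) (zpowersHom _ (tauH (E := E) k z) n) := by
  rw [zpowersHom_apply]
  refine Commute.zpow_right ?_ _
  exact Homeomorph.ext fun x => (tauH_comm k z g (hz g) x).symm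

/-- the homomorphism onto the overgroup -/
noncomputable def Over_Phi (k : ℕ) (z : G) (hz : ∀ g, g * z = z * g) :
    G × Multiplicative ℤ →* ((Fin (k + 1) → E) ≃ₜ (Fin (k + 1) → E)) :=
  MonoidHom.noncommCoprod (Over_D G E k) (zpowersHom _ (tauH (E := E) k z))
    (fun g n => Over_comm k z hz g n)

theorem Over_Phi_apply (k : ℕ) (z : G) (hz : ∀ g, g * z = z * g) (g : G) (n : ℤ) :
    Over_Phi (E := E) k z hz (g, Multiplicative.ofAdd n) =
      Over_D G E k g * (tauH (E := E) k z) ^ n := by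
  unfold Over_Phi
  rw [MonoidHom.noncommCoprod_apply, zpowersHom_apply]
  rfl

/-- the action of a group of homeomorphisms -/
@[reducible] def Over_act {X : Type} [TopologicalSpace X] (H : Subgroup (X ≃ₜ X)) :
    MulAction H X where
  smul l x := l.1 x
  one_smul _ := rfl
  mul_smul _ _ _ := rfl

/-- The overgroup. PROOF: for `p = k + 1` let `Φ : G × Multiplicative ℤ →* (E^p ≃ₜ E^p)`,
`Φ (g, ofAdd j) = (g acting diagonally) * (tauH k z) ^ j` (a homomorphism because the two commute,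
`tauH_comm`), `L = Φ.range` acting on `E^p` by application, `j g = Φ (g, 1)`,
`τ = Φ (1, ofAdd 1)`. FREENESS: let `l = j g * τ ^ k'` fix `x`. All powers of `l` fix `x`, and
`l ^ p = j (g ^ p) * τ ^ (p k') = j (g ^ p * z ^ k')`, so `g ^ p * z ^ k'` fixes `x 0` and
`g ^ p * z ^ k' = 1` by `hfree`. If `p ∤ k'`: choose integers with `a * k' + b * p = 1`
(Bezout); `z = z ^ (a k') * z ^ (b p) = (g ^ (-a) * z ^ b) ^ p` (as `g` and `z` commute),
contradiction to `hnp`. If `k' = p * i`: `(g * z ^ i) ^ p = 1`, so `g * z ^ i = 1` by `htor`, and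
`l = j g * j (z ^ i) = 1`. PROPER DISCONTINUITY: every `l : L` is `j g * τ ^ i` with
`0 ≤ i < p`. For compact `K`, `K'`: `{l | l K ∩ K' ≠ ∅}` is contained in the union over
`i < p` of `{j g * τ ^ i | g (τ ^ i K) ∩ K' ≠ ∅}`, and `g (τ ^ i K) ∩ K' ≠ ∅` implies that
`g` moves the compact projection (coordinate `0`) of `τ ^ i K` to meet that of `K'`, so there are
finitely many such `g`. -/
theorem exists_over {p : ℕ} (hp : p.Prime) (z : G) (hz : ∀ g, g * z = z * g)
    (hfree : ∀ (g : G) (x : E), g • x = x → g = 1) [Nonempty E] [ProperlyDiscontinuousSMul G E]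
    (htor : ∀ g : G, g ^ p = 1 → g = 1) (hnp : ∀ w : G, w ^ p ≠ z) :
    ∃ (L : Type) (_ : Group L) (_ : MulAction L (Fin p → E))
      (_ : ContinuousConstSMul L (Fin p → E)) (j : G →* L) (τ : L),
      (∀ l, l * τ = τ * l) ∧ τ ^ p = j z ∧ (∀ l, ∃ (g : G) (k : ℤ), l = j g * τ ^ k) ∧
      (∀ (g : G) (x : Fin p → E), j g • x = fun i => g • x i) ∧
      (∀ (l : L) (x : Fin p → E), l • x = x → l = 1) ∧
      ProperlyDiscontinuousSMul L (Fin p → E) := by
  obtain ⟨k, rfl⟩ : ∃ k, p = k + 1 := ⟨p - 1, by have := hp.pos; omega⟩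
  let Φ := Over_Phi (E := E) k z hz
  let act : MulAction Φ.range (Fin (k + 1) → E) := Over_act Φ.range
  let j : G →* Φ.range := Φ.rangeRestrict.comp (MonoidHom.inl G (Multiplicative ℤ))
  let τ : Φ.range := Φ.rangeRestrict (1, Multiplicative.ofAdd 1)
  have hact : ∀ (l : Φ.range) (x : Fin (k + 1) → E), l • x = l.1 x := fun _ _ => rfl
  have hj1 : ∀ g : G, (j g).1 = Over_D G E k g := fun g => by
    have := Over_Phi_apply (E := E) k z hz g 0
    rw [zpow_zero, mul_one] at this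
    exact this
  have hτ1 : τ.1 = tauH (E := E) k z := by
    have := Over_Phi_apply (E := E) k z hz 1 1
    rw [map_one (Over_D G E k), zpow_one, one_mul] at this
    exact this
  have hcomm : ∀ l : Φ.range, l * τ = τ * l := by
    rintro ⟨_, ⟨⟨g, n⟩, rfl⟩⟩
    apply Subtype.ext
    show Φ (g, n) * Φ (1, Multiplicative.ofAdd 1) = Φ (1, Multiplicative.ofAdd 1) * Φ (g, n)
    rw [← map_mul, ← map_mul, Prod.mk_mul_mk, Prod.mk_mul_mk, mul_one, one_mul,
      mul_comm n]
  have hpow : τ ^ (k + 1) = j z := by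
    apply Subtype.ext
    rw [SubmonoidClass.coe_pow, hτ1, hj1]
    exact Homeomorph.ext fun x => tauH_pow k z x
  have hgen : ∀ l : Φ.range, ∃ (g : G) (n : ℤ), l = j g * τ ^ n := by
    rintro ⟨_, ⟨⟨g, n⟩, rfl⟩⟩
    refine ⟨g, Multiplicative.toAdd n, ?_⟩
    apply Subtype.ext
    rw [Subgroup.coe_mul, SubgroupClass.coe_zpow, hj1, hτ1]
    exact Over_Phi_apply (E := E) k z hz g (Multiplicative.toAdd n)
  have hjact : ∀ (g : G) (x : Fin (k + 1) → E), j g • x = fun i => g • x i := by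
    intro g x
    rw [hact, hj1]
    rfl
  have hjτ : ∀ (g : G), Commute (j g) τ := fun g => hcomm (j g)
  have hτz : ∀ i : ℤ, τ ^ (((k + 1 : ℕ) : ℤ) * i) = j (z ^ i) := by
    intro i
    rw [zpow_mul, zpow_natCast, hpow, map_zpow]
  have hgz : ∀ g, Commute g z := fun g => hz g
  refine ⟨Φ.range, inferInstance, act, ⟨fun l => l.1.continuous⟩, j, τ, hcomm, hpow, hgen, hjact,
    ?_, ?_⟩
  · intro l x hx
    obtain ⟨g, n, rfl⟩ := hgen l
    have h1 : (j g * τ ^ n) ^ (k + 1) • x = x := by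
      have h2 : ∀ m : ℕ, (j g * τ ^ n) ^ m • x = x := by
        intro m
        induction m with
        | zero => rw [pow_zero, one_smul]
        | succ m ih => rw [pow_succ, mul_smul, hx, ih]
      exact h2 (k + 1)
    have h3 : (j g * τ ^ n) ^ (k + 1) = j (g ^ (k + 1) * z ^ n) := by
      rw [((hjτ g).zpow_right n).mul_pow, ← map_pow, map_mul, ← hτz, mul_comm (((k + 1 : ℕ) : ℤ)),
        zpow_mul, zpow_natCast]
    rw [h3, hjact] at h1
    have h4 : g ^ (k + 1) * z ^ n = 1 := hfree _ (x 0) (congrFun h1 0)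
    by_cases hd : ((k + 1 : ℕ) : ℤ) ∣ n
    · obtain ⟨i, rfl⟩ := hd
      have h5 : (g * z ^ i) ^ (k + 1) = 1 := by
        rw [((hgz g).zpow_right i).mul_pow, ← h4, mul_comm (((k + 1 : ℕ) : ℤ)), zpow_mul,
          zpow_natCast]
      have h6 := htor _ h5
      rw [hτz, ← map_mul, h6, map_one]
    · exfalso
      have hcop : IsCoprime n (((k + 1 : ℕ) : ℤ)) :=
        ((Nat.prime_iff_prime_int.1 hp).coprime_iff_not_dvd.2 hd).symm
      obtain ⟨a, b, hab⟩ := hcop
      refine hnp ((g⁻¹) ^ a * z ^ b) ?_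
      have h7 : z ^ n = (g ^ (k + 1))⁻¹ := eq_inv_of_mul_eq_one_right h4
      have h8 : Commute (g⁻¹ ^ a) (z ^ b) := ((hgz g).inv_left.zpow_zpow a b)
      rw [h8.mul_pow]
      have h9 : (g⁻¹ ^ a) ^ (k + 1) = z ^ (n * a) := by
        rw [zpow_mul, h7, inv_zpow, inv_zpow, inv_pow, ← zpow_natCast, ← zpow_natCast, ← zpow_mul,
          ← zpow_mul, mul_comm a]
      rw [h9, ← zpow_natCast (z ^ b), ← zpow_mul, ← zpow_add, mul_comm n, hab, zpow_one]
  · refine ⟨fun {K K'} hK hK' => ?_⟩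
    have hfin : ∀ i : ℕ, {g : G | ((g • ·) '' ((fun y : Fin (k + 1) → E => y 0) ''
        ((fun y => (τ ^ i).1 y) '' K)) ∩ ((fun y : Fin (k + 1) → E => y 0) '' K')).Nonempty}.Finite :=
      fun i => ProperlyDiscontinuousSMul.finite_disjoint_inter_image
        ((hK.image (τ ^ i).1.continuous).image (continuous_apply 0)) (hK'.image (continuous_apply 0))
    refine Set.Finite.subset (Set.Finite.biUnion (Finset.range (k + 1)).finite_toSet
      (fun i _ => (hfin i).image (fun g => j g * τ ^ i))) ?_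
    rintro l ⟨y, ⟨x, hx, rfl⟩, hy⟩
    obtain ⟨g, n, rfl⟩ := hgen l
    have hk0 : (0 : ℤ) < ((k + 1 : ℕ) : ℤ) := by exact_mod_cast hp.pos
    obtain ⟨i, hi⟩ : ∃ i : ℕ, n % ((k + 1 : ℕ) : ℤ) = (i : ℤ) :=
      ⟨(n % ((k + 1 : ℕ) : ℤ)).toNat, (Int.toNat_of_nonneg (Int.emod_nonneg _ hk0.ne')).symm⟩
    have hilt : i < k + 1 := by
      have := Int.emod_lt_of_pos n hk0
      rw [hi] at this
      exact_mod_cast this
    have he : j g * τ ^ n = j (g * z ^ (n / ((k + 1 : ℕ) : ℤ))) * τ ^ i := by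
      rw [map_mul, ← hτz, mul_assoc, ← zpow_natCast τ i, ← zpow_add, ← hi, Int.mul_ediv_add_emod]
    refine Set.mem_biUnion (Finset.mem_coe.2 (Finset.mem_range.2 hilt)) ?_
    refine ⟨g * z ^ (n / ((k + 1 : ℕ) : ℤ)), ?_, he.symm⟩
    refine ⟨(((j g * τ ^ n) • x : Fin (k + 1) → E)) 0, ?_, ⟨_, hy, rfl⟩⟩
    refine ⟨((τ ^ i) • x : Fin (k + 1) → E) 0, ⟨_, ⟨x, hx, rfl⟩, rfl⟩, ?_⟩
    rw [he, mul_smul, hjact]

end Pool.Agent.W_3f1825_h40
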