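import Mathlib

set_option autoImplicit false

/-! The intersection of the group with the cyclic group generated by the root. -/

namespace Pool.Agent.W_3f1825_h40

variable {G : Type} [Group G]

/-- PROOF: `j g = τ ^ k` gives `j (g ^ p) = τ ^ (p k) = j (z ^ k)`, so `g ^ p = z ^ k`. If `p ∤ k`
then with `a * k + b * p = 1` one gets `z = (g ^ a * z ^ b) ^ p`, contradiction. So `k = p * i`,
`(g * z ^ (-i)) ^ p = 1`, `g = z ^ i`. -/
theorem over_sep {L : Type} [Group L] {p : ℕ} (hp : p.Prime) (z : G) (hz : ∀ g, g * z = z * g)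
    (htor : ∀ g : G, g ^ p = 1 → g = 1) (hnp : ∀ w : G, w ^ p ≠ z) (j : G →* L)
    (hj : Function.Injective j) (τ : L) (hτp : τ ^ p = j z) (g : G) (k : ℤ) (h : j g = τ ^ k) :
    g ∈ Subgroup.zpowers z := by
  have hc : Commute g z := hz g
  have h1 : g ^ p = z ^ k := by
    apply hj
    rw [map_pow, map_zpow, h, ← hτp, ← zpow_natCast, ← zpow_natCast, ← zpow_mul, ← zpow_mul,
      mul_comm]
  by_cases hk : (p : ℤ) ∣ k
  · obtain ⟨i, rfl⟩ := hk
    have h2 : (g * z ^ (-i)) ^ p = 1 := by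
      rw [(hc.zpow_right (-i)).mul_pow, h1, ← zpow_natCast (z ^ (-i)), ← zpow_mul, ← zpow_add]
      have : (p : ℤ) * i + -i * (p : ℤ) = 0 := by ring
      rw [this, zpow_zero]
    have h3 := htor _ h2
    refine ⟨i, ?_⟩
    have h4 : g = (z ^ (-i))⁻¹ := eq_inv_of_mul_eq_one_left h3
    rw [h4, zpow_neg, inv_inv]
  · exfalso
    have hcop : IsCoprime k (p : ℤ) := by
      rw [Int.isCoprime_iff_gcd_eq_one]
      have h5 : IsCoprime (p : ℤ) k := by
        have hpp : Prime (p : ℤ) := Nat.prime_iff_prime_int.mp hp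
        exact (Prime.coprime_iff_not_dvd hpp).mpr hk
      exact Int.isCoprime_iff_gcd_eq_one.mp h5.symm
    obtain ⟨a, b, hab⟩ := hcop
    apply hnp (g ^ a * z ^ b)
    have h6 : Commute (g ^ a) (z ^ b) := (hc.zpow_right b).zpow_left a
    rw [h6.mul_pow, ← zpow_natCast (g ^ a), ← zpow_mul, mul_comm a, zpow_mul, zpow_natCast, h1,
      ← zpow_mul, ← zpow_natCast (z ^ b), ← zpow_mul, ← zpow_add]
    have : k * a + b * (p : ℤ) = 1 := by rw [mul_comm k a]; exact hab
    rw [this, zpow_one]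

end Pool.Agent.W_3f1825_h40
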