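import Mathlib

set_option autoImplicit false

/-! Integral chains as real chains. -/

namespace Pool.Agent.W_3f1825_h40

/-- Integral chains as real chains. -/
noncomputable def i2r (X : Type) : (X →₀ ℤ) →+ (X →₀ ℝ) :=
  Finsupp.mapRange.addMonoidHom (Int.castAddHom ℝ)

end Pool.Agent.W_3f1825_h40
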