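import Pool.Agent.W_3f1825_h40.SS

set_option autoImplicit false

/-! Permutation modules: lifting property and the kernel of the map to the orbits. -/

namespace Pool.Agent.W_3f1825_h40

variable {R : Type} [CommRing R] {G : Type} [Group G]

/-- Permutation modules all of whose stabilizers are contained in `N` have the lifting property.
PROOF: let `ψ : (X →₀ R) → B` and `φ : A → B` be given. Choose for every orbit (element of
`MulAction.orbitRel.Quotient G X`) a representative, i.e. functions `rep : X → X`,
`t : X → G` with `t x • rep x = x` and `rep (g • x) = rep x`. For every `x` choose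
`a x : A` with `φ (a x) = ψ (single (rep x) 1)`, depending only on `rep x` (take
`a x = c (rep x)`, `c y` a preimage of `ψ (single y 1)`). Put
`χ (single x 1) = α (t x) (a x)`. Equivariance: `t (g • x) • rep x = g • x = (g * t x) • rep x`,
so `n := (g * t x)⁻¹ * t (g • x)` fixes `rep x`, lies in `N` by `h`, and so
`α (t (g • x)) (a x) = α (g * t x) (α n (a x)) = α g (α (t x) (a x))`. `φ (χ (single x 1)) =
β (t x) (ψ (single (rep x) 1)) = ψ (single x 1)`. -/
theorem liftProp_perm {X : Type} [MulAction G X] (N : Subgroup G)
    (h : ∀ (x : X) (g : G), g • x = x → g ∈ N) : LiftProp N (perm R G X) := by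
  intro A B _ _ _ _ α β hN φ hφ ψ hψ hs
  choose c hc using fun y : X => hs (Finsupp.single y 1)
  have hrep : ∀ x : X, ∃ t : G,
      t • (Quotient.out (Quotient.mk (MulAction.orbitRel G X) x)) = x := by
    intro x
    have h1 := Quotient.mk_out (s := MulAction.orbitRel G X) x
    obtain ⟨g, hg⟩ := (MulAction.orbitRel_apply).1 h1
    refine ⟨g⁻¹, ?_⟩
    rw [← hg]
    simp
  choose t ht using hrep
  have hrg : ∀ (g : G) (x : X), Quotient.mk (MulAction.orbitRel G X) (g • x)
      = Quotient.mk (MulAction.orbitRel G X) x := by
    intro g x
    apply Quotient.sound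
    exact (MulAction.orbitRel_apply).2 ⟨g, rfl⟩
  refine ⟨Finsupp.linearCombination R (fun x : X =>
    α (t x) (c (Quotient.out (Quotient.mk (MulAction.orbitRel G X) x)))), ?_, ?_⟩
  · intro g v
    induction v using Finsupp.induction_linear with
    | zero => simp
    | add a b ha hb => simp only [map_add, ha, hb]
    | single x r =>
      rw [perm_single, Finsupp.linearCombination_single, Finsupp.linearCombination_single,
        map_smul]
      congr 1
      have hn : (g * t x)⁻¹ * t (g • x) ∈ N := by
        apply h (Quotient.out (Quotient.mk (MulAction.orbitRel G X) x))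
        have h1 := ht (g • x)
        rw [hrg] at h1
        rw [mul_smul, h1, inv_smul_eq_iff, mul_smul, ht x]
      have h2 : t (g • x) = g * t x * ((g * t x)⁻¹ * t (g • x)) := by group
      rw [hrg, h2, map_mul, Module.End.mul_apply, hN _ hn, map_mul, Module.End.mul_apply]
  · intro v
    induction v using Finsupp.induction_linear with
    | zero => simp
    | add a b ha hb => simp only [map_add, ha, hb]
    | single x r =>
      rw [Finsupp.linearCombination_single, map_smul, hφ, hc, ← hψ, perm_single, ht,
        ← map_smul, Finsupp.smul_single, smul_eq_mul, mul_one]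

/-- The kernel of the map to the set of orbits. PROOF: choose a section of `q` on the image
(`s : Y → X` with `q (s (q x)) = q x`), so `s (q x) = g • x` for some `g` and
`single x r - single (s (q x)) r ∈ Co` for all `x`, `r` (up to sign it is
`perm g (single x r) - single x r`). Hence for all `c`,
`c - lmapDomain (s ∘ q) c ∈ Co` (induction on `c`), and
`lmapDomain (s ∘ q) c = lmapDomain s (lmapDomain q c) = 0`. -/
theorem mem_Co_perm {X Y : Type} [MulAction G X] (q : X → Y)
    (hq : ∀ x x', q x = q x' → ∃ g : G, x' = g • x) (c : X →₀ R)
    (hc : Finsupp.lmapDomain R R q c = 0) : c ∈ Co (perm R G X) := by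
  rcases isEmpty_or_nonempty X with hX | hX
  · have h0 : c = 0 := Subsingleton.elim _ _
    rw [h0]
    exact Submodule.zero_mem _
  · have hs : ∀ x : X, ∃ g : G, Function.invFun q (q x) = g • x := fun x =>
      hq x _ (Function.invFun_eq ⟨x, rfl⟩).symm
    have key : ∀ c : X →₀ R, Finsupp.lmapDomain R R (Function.invFun q)
        (Finsupp.lmapDomain R R q c) - c ∈ Co (perm R G X) := by
      intro c
      induction c using Finsupp.induction_linear with
      | zero => simp
      | add a b ha hb =>
        have h1 := Submodule.add_mem _ ha hb
        rw [map_add, map_add]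
        have h2 : ∀ u v w z : X →₀ R, u + v - (w + z) = u - w + (v - z) := by
          intro u v w z
          abel
        rw [h2]
        exact h1
      | single x r =>
        obtain ⟨g, hg⟩ := hs x
        rw [Finsupp.lmapDomain_apply, Finsupp.lmapDomain_apply, Finsupp.mapDomain_single,
          Finsupp.mapDomain_single, hg, ← perm_single]
        exact sub_mem_Co _ _ _
    have h1 := key c
    rw [hc, map_zero, zero_sub] at h1
    simpa using Submodule.neg_mem _ h1

end Pool.Agent.W_3f1825_h40
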