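import Pool.Agent.W_3f1825_h40.SS
import Pool.Agent.W_3f1825_h40.Perm
import Pool.Agent.W_3f1825_h40.I2R

set_option autoImplicit false

/-! From integral to real coefficients. -/

namespace Pool.Agent.W_3f1825_h40

variable {G : Type} [Group G]

theorem RealQ_i2r_single {X : Type} (x : X) (n : ℤ) :
    i2r X (Finsupp.single x n) = Finsupp.single x (n : ℝ) := by
  simp [i2r]

theorem RealQ_i2r_apply {X : Type} (c : X →₀ ℤ) (x : X) : i2r X c x = (c x : ℝ) := by
  simp [i2r]

theorem RealQ_i2r_lmap {X Y : Type} (q : X → Y) (c : X →₀ ℤ) :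
    Finsupp.lmapDomain ℝ ℝ q (i2r X c) = i2r Y (Finsupp.lmapDomain ℤ ℤ q c) := by
  induction c using Finsupp.induction_linear with
  | zero => simp
  | add a b ha hb => simp only [map_add, ha, hb]
  | single x n =>
    rw [RealQ_i2r_single, Finsupp.lmapDomain_apply, Finsupp.lmapDomain_apply,
      Finsupp.mapDomain_single, Finsupp.mapDomain_single, RealQ_i2r_single]

/-- Decomposition of a real chain along a rational basis. PROOF: the `ℚ`-span (or additive group)
generated by the finitely many coefficients of `c` has a finite `ℚ`-basis `b`; the coefficients of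
`c` are rational combinations of `b`; divide `b` by a common denominator. (See `Uct.lean` in
`W_MP_6d5819_gt` for similar arguments.) -/
theorem exists_decomp {X : Type} (c : X →₀ ℝ) :
    ∃ (n : ℕ) (r : Fin n → ℝ) (c' : Fin n → (X →₀ ℤ)), LinearIndependent ℤ r ∧
      c = ∑ j, r j • i2r X (c' j) := by
  classical
  let M : Submodule ℤ ℝ := Submodule.span ℤ ((c.support.image c : Finset ℝ) : Set ℝ)
  have hM : ∀ x, c x ∈ M := by
    intro x
    by_cases hx : c x = 0
    · rw [hx]
      exact Submodule.zero_mem _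
    · refine Submodule.subset_span ?_
      rw [Finset.mem_coe]
      exact Finset.mem_image_of_mem c (Finsupp.mem_support_iff.mpr hx)
  have hfin : Module.Finite ℤ M := Module.Finite.iff_fg.mpr ⟨_, rfl⟩
  have hfree : Module.Free ℤ M := inferInstance
  let b := Module.finBasis ℤ M
  refine ⟨Module.finrank ℤ M, fun j => (b j : ℝ), fun j =>
    Finsupp.onFinset c.support (fun x => b.repr ⟨c x, hM x⟩ j) ?_, ?_, ?_⟩
  · intro x hx
    rw [Finsupp.mem_support_iff]
    intro h0
    apply hx
    have : (⟨c x, hM x⟩ : M) = 0 := Subtype.ext h0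
    rw [this, map_zero, Finsupp.zero_apply]
  · exact b.linearIndependent.map' M.subtype (Submodule.ker_subtype M)
  · ext x
    have h1 := congrArg (fun m : M => (m : ℝ)) (b.sum_repr ⟨c x, hM x⟩)
    simp only [Submodule.coe_sum, Submodule.coe_smul, zsmul_eq_mul] at h1
    rw [Finsupp.finsetSum_apply, ← h1]
    refine Finset.sum_congr rfl fun j _ => ?_
    rw [Finsupp.smul_apply, RealQ_i2r_apply, Finsupp.onFinset_apply, smul_eq_mul, mul_comm]

/-- PROOF: on basis elements. -/
theorem dd_i2r (A : SS G) (m : ℕ) (c : A.X (m + 1) →₀ ℤ) :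
    A.dd ℝ m (i2r _ c) = i2r _ (A.dd ℤ m c) := by
  induction c using Finsupp.induction_linear with
  | zero => simp
  | add a b ha hb => simp only [map_add, ha, hb]
  | single x n =>
    rw [RealQ_i2r_single, SS.dd_single, SS.dd_single, map_sum]
    refine Finset.sum_congr rfl fun i _ => ?_
    rw [RealQ_i2r_single]
    push_cast
    rfl

/-- PROOF: span induction on generators, which are (for `perm`) `single (g • x) n - single x n`. -/
theorem i2r_Co {X : Type} [MulAction G X] {c : X →₀ ℤ} (hc : c ∈ Co (perm ℤ G X)) :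
    i2r X c ∈ Co (perm ℝ G X) := by
  refine Submodule.span_induction (p := fun c _ => i2r X c ∈ Co (perm ℝ G X)) ?_ ?_ ?_ ?_ hc
  · rintro _ ⟨g, v, rfl⟩
    have h1 : i2r X (perm ℤ G X g v) = perm ℝ G X g (i2r X v) :=
      (RealQ_i2r_lmap (fun x : X => g • x) v).symm
    rw [map_sub, h1]
    exact sub_mem_Co _ _ _
  · rw [map_zero]
    exact Submodule.zero_mem _
  · intro a b _ _ ha hb
    rw [map_add]
    exact Submodule.add_mem _ ha hb
  · intro r a _ ha
    rw [map_zsmul]
    exact zsmul_mem ha r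

/-- PROOF: a combination `∑ r j • i2r (c j)` with independent `r` is in `Co` over `ℝ` only if all
`c j` are in `Co` over `ℤ`: map to the orbit set `q : X → Y := MulAction.orbitRel.Quotient G X`
(`mapDomain q` kills `Co`); the coefficients of `∑ r j • i2r (mapDomain q (c j))` vanish, so by
linear independence `mapDomain q (c j) = 0` for all `j`; `mem_Co_perm`. -/
theorem mem_Co_of_sum {X : Type} [MulAction G X] {n : ℕ} (r : Fin n → ℝ)
    (hr : LinearIndependent ℤ r) (c : Fin n → (X →₀ ℤ))
    (h : ∑ j, r j • i2r X (c j) ∈ Co (perm ℝ G X)) (j : Fin n) : c j ∈ Co (perm ℤ G X) := by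
  let q : X → MulAction.orbitRel.Quotient G X := Quotient.mk (MulAction.orbitRel G X)
  have hq : ∀ x x', q x = q x' → ∃ g : G, x' = g • x := by
    intro x x' hxx
    obtain ⟨g, hg⟩ := MulAction.orbitRel_apply.1 (Quotient.exact hxx.symm)
    exact ⟨g, hg.symm⟩
  have hqs : ∀ (g : G) (x : X), q (g • x) = q x := by
    intro g x
    exact Quotient.sound (MulAction.orbitRel_apply.2 ⟨g, rfl⟩)
  have hkill : ∀ v : X →₀ ℝ, v ∈ Co (perm ℝ G X) → Finsupp.lmapDomain ℝ ℝ q v = 0 := by
    intro v hv
    refine Submodule.span_induction (p := fun c _ => Finsupp.lmapDomain ℝ ℝ q c = 0)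
      ?_ ?_ ?_ ?_ hv
    · rintro _ ⟨g, v, rfl⟩
      have h1 : Finsupp.lmapDomain ℝ ℝ q (perm ℝ G X g v) = Finsupp.lmapDomain ℝ ℝ q v := by
        induction v using Finsupp.induction_linear with
        | zero => simp
        | add a b ha hb => simp only [map_add, ha, hb]
        | single x n =>
          rw [perm_single, Finsupp.lmapDomain_apply, Finsupp.lmapDomain_apply,
            Finsupp.mapDomain_single, Finsupp.mapDomain_single, hqs]
      rw [map_sub, h1, sub_self]
    · exact map_zero _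
    · intro a b _ _ ha hb
      rw [map_add, ha, hb, add_zero]
    · intro r a _ ha
      rw [map_smul, ha, smul_zero]
  have h0 := hkill _ h
  rw [map_sum] at h0
  have h1 : ∑ j, r j • i2r _ (Finsupp.lmapDomain ℤ ℤ q (c j)) = 0 := by
    rw [← h0]
    refine Finset.sum_congr rfl fun j _ => ?_
    rw [map_smul, RealQ_i2r_lmap]
  apply mem_Co_perm q hq
  ext y
  have h2 := DFunLike.congr_fun h1 y
  rw [Finsupp.finsetSum_apply] at h2
  have h3 : ∑ j, (Finsupp.lmapDomain ℤ ℤ q (c j) y) • r j = 0 := by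
    rw [Finsupp.zero_apply] at h2
    rw [← h2]
    refine Finset.sum_congr rfl fun j _ => ?_
    rw [Finsupp.smul_apply, RealQ_i2r_apply, smul_eq_mul, zsmul_eq_mul, mul_comm]
  exact Fintype.linearIndependent_iff.mp hr _ h3 j

/-- If the integral homology of the coinvariants is torsion then the real one vanishes. PROOF: let
`c ∈ Z m` over `ℝ`, `c = ∑ r j • i2r (c' j)` (`exists_decomp`). Then `dd c ∈ Co` gives
`dd (c' j) ∈ Co` over `ℤ` for all `j` (`mem_Co_of_sum`, `dd_i2r`), so `c' j ∈ Z m`, so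
`k j • c' j = dd y + i`, `k j ≠ 0`, and `i2r (c' j) = (1 / k j) • (dd (i2r y) + i2r i) ∈ B m`. -/
theorem van_real (A : SS G) (m : ℕ) (h : (A.cx ℤ).Tor m) : (A.cx ℝ).Van m := by
  intro c hc
  obtain ⟨n, r, c', hr, hcc⟩ := exists_decomp (X := A.X m) c
  have hZ : ∀ j, c' j ∈ (A.cx ℤ).Z m := by
    intro j
    cases m with
    | zero => exact Submodule.mem_top
    | succ m =>
      have h1 : A.dd ℝ m c ∈ Co (perm ℝ G (A.X m)) := hc
      rw [hcc, map_sum] at h1
      have h2 : ∑ j, r j • i2r _ (A.dd ℤ m (c' j)) ∈ Co (perm ℝ G (A.X m)) := by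
        have e : ∑ j, r j • i2r _ (A.dd ℤ m (c' j)) = ∑ j, A.dd ℝ m (r j • i2r _ (c' j)) := by
          refine Finset.sum_congr rfl fun j _ => ?_
          rw [map_smul, dd_i2r]
        rw [e]
        exact h1
      exact mem_Co_of_sum r hr (fun j => A.dd ℤ m (c' j)) h2 j
  have hB : ∀ j, i2r _ (c' j) ∈ (A.cx ℝ).B m := by
    intro j
    obtain ⟨k, hk, hkB⟩ := h (c' j) (hZ j)
    obtain ⟨y, hy⟩ := Cx.mem_B.1 hkB
    have h1 := i2r_Co hy
    have h2 : i2r (A.X m) (((k : ℕ) : ℤ) • c' j - A.dd ℤ m y) =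
        (k : ℝ) • i2r _ (c' j) - A.dd ℝ m (i2r _ y) := by
      rw [map_sub, dd_i2r, map_zsmul]
      congr 1
      ext x
      simp
    have h3 : (k : ℝ) • i2r _ (c' j) ∈ (A.cx ℝ).B m :=
      Cx.mem_B.2 ⟨i2r _ y, by rw [← h2]; exact h1⟩
    have hk' : (k : ℝ) ≠ 0 := by exact_mod_cast hk
    have h4 := Submodule.smul_mem _ ((k : ℝ)⁻¹) h3
    rwa [smul_smul, inv_mul_cancel₀ hk', one_smul] at h4
  rw [hcc]
  exact Submodule.sum_mem _ fun j _ => Submodule.smul_mem _ (r j) (hB j)

end Pool.Agent.W_3f1825_h40
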