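import Pool.Agent.W_3f1825_h40.AlgMain
import Pool.Agent.W_3f1825_h40.RealQ
import Pool.Agent.W_3f1825_h40.NoTors
import Pool.Agent.W_3f1825_h40.Over
import Pool.Agent.W_3f1825_h40.OverSep

set_option autoImplicit false

/-! The homology of `G / ⟨z⟩` vanishes in degree `d`, for a group `G` acting freely and cocompactly
on a contractible locally Euclidean space of dimension `d`. -/

open Topology

namespace Pool.Agent.W_3f1825_h40

open Pool.Agent.W_MP_6d5819_gt Pool.Agent.W_3f1825_top

variable {G E : Type} [Group G] [TopologicalSpace E] [T2Space E] [MulAction G E]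
  [ContinuousConstSMul G E] [ProperlyDiscontinuousSMul G E] [ContractibleSpace E]

theorem contractible_pi (E : Type) [TopologicalSpace E] [ContractibleSpace E] (p : ℕ) :
    ContractibleSpace (Fin p → E) := by
  obtain ⟨e⟩ := ContractibleSpace.hequiv_unit E
  exact ⟨⟨(ContinuousMap.HomotopyEquiv.piCongrRight fun _ : Fin p => e).trans
    (Homeomorph.homeomorphOfUnique (Fin p → Unit) Unit).toHomotopyEquiv⟩⟩

theorem tLifts_self (R G : Type) [CommRing R] [Group G] : ((tSS G G).cx R).Lifts ⊥ := by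
  refine tLifts R ⊥ fun s g h => ?_
  rw [Subgroup.mem_bot]
  exact mul_eq_right.1 h

omit [T2Space E] [ProperlyDiscontinuousSMul G E] in
/-- PROOF: `exists_equiv` for `(sSS G E).cx R` and `(tSS G G).cx R` (`sLifts`, `tLifts` for `⊥`,
`sAug_exact`, `tAug_exact`, `triv_bot`) and `Van.of_retract`. -/
theorem van_tup_aux (R : Type) [CommRing R] (hfree : ∀ (g : G) (x : E), g • x = x → g = 1) {m : ℕ}
    (h : ((sSS G E).cx R).Van m) : ((tSS G G).cx R).Van m := by
  obtain ⟨f, g, -, -, ⟨H⟩, -⟩ := exists_equiv (tLifts_self R G) (triv_bot _) (sLifts R G E hfree)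
    (triv_bot _) _ (tAug_exact R G) _ (sAug_exact R G E)
  exact Van.of_retract f g H h

omit [T2Space E] [ProperlyDiscontinuousSMul G E] in
theorem fg_tup_aux (R : Type) [CommRing R] (hfree : ∀ (g : G) (x : E), g • x = x → g = 1) {m : ℕ}
    (h : ((sSS G E).cx R).Fg m) : ((tSS G G).cx R).Fg m := by
  obtain ⟨f, g, -, -, ⟨H⟩, -⟩ := exists_equiv (tLifts_self R G) (triv_bot _) (sLifts R G E hfree)
    (triv_bot _) _ (tAug_exact R G) _ (sAug_exact R G E)
  exact Fg.of_retract f g H h

/-- PROOF: `exists_equiv` for `(sSS G E).cx R` and `(tSS G G).cx R` (`sLifts`, `tLifts` for `⊥`,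
`sAug_exact`, `tAug_exact`, `triv_bot`) and `Van.of_retract`. -/
theorem van_tup (R : Type) [CommRing R] (hfree : ∀ (g : G) (x : E), g • x = x → g = 1) {m : ℕ}
    (h : ((sSS G E).cx R).Van m) : ((tSS G G).cx R).Van m := van_tup_aux R hfree h

theorem fg_tup (R : Type) [CommRing R] (hfree : ∀ (g : G) (x : E), g • x = x → g = 1) {m : ℕ}
    (h : ((sSS G E).cx R).Fg m) : ((tSS G G).cx R).Fg m := fg_tup_aux R hfree h

/-- PROOF: `isQuotientCoveringMap_quotientMk_of_properlyDiscontinuousSMul` (`locallyCompact_of_locEuc`),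
the quotient is T2 (`t2Space_of_properlyDiscontinuousSMul_of_t2Space`), locally Euclidean
(`LocEuc_quotient`) and compact; `hfg`, `fg_of_fg`. -/
theorem fg_of_compact {d : ℕ} (hE : LocEuc d E)
    (hfree : ∀ (g : G) (x : E), g • x = x → g = 1)
    (hcomp : CompactSpace (Quotient (MulAction.orbitRel G E))) (m : ℕ) :
    ((sSS G E).cx ℤ).Fg m := by
  have : LocallyCompactSpace E := locallyCompact_of_locEuc hE
  have : IsCancelSMul G E := isCancelSMul_iff_eq_one_of_smul_eq.2 hfree
  have hq := isQuotientCoveringMap_quotientMk_of_properlyDiscontinuousSMul (G := G) (E := E)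
  let f : C(E, Quotient (MulAction.orbitRel G E)) := ⟨Quotient.mk _, hq.continuous⟩
  have hf : IsQuotientCoveringMap f G := hq
  exact fg_of_fg ℤ hf (hfg (LocEuc_quotient hf hE) m)

/-- CORE THEOREM. PROOF: `z ≠ 1` since `1 ^ p = 1`. `no_torsion`, `zpow_ne_one`. `exists_over`
gives `L` acting on `Fin p → E`, which is contractible, T2, locally Euclidean of dimension
`p * d` (`LocEuc_pow`): `van_of_locEuc` and `van_tup` for `L` give
`((tSS L L).cx ℤ).Van m` for `m > p * d`. For `G`: `van_of_locEuc`, `van_tup` (`m > d`),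
`fg_of_compact`, `fg_tup`. `over_sep`; `j` is injective because `j g = 1` gives `g • x = x`.
`tor_final` with `n = d`: `Tor d` for `C(G / ⟨z⟩)` over `ℤ`, then `van_real`. -/
theorem core {d : ℕ} (hd : 1 ≤ d) (hE : LocEuc d E)
    (hfree : ∀ (g : G) (x : E), g • x = x → g = 1)
    (hcomp : CompactSpace (Quotient (MulAction.orbitRel G E)))
    (z : G) (hz : ∀ g, g * z = z * g) {p : ℕ} (hp : p.Prime) (hnp : ∀ w : G, w ^ p ≠ z) :
    ((tSS G (G ⧸ Subgroup.zpowers z)).cx ℝ).Van d := by
  have hz1 : z ≠ 1 := by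
    intro h
    exact hnp 1 (by rw [one_pow, h])
  have htor : ∀ g : G, g ^ p = 1 → g = 1 := fun g hg => no_torsion hd hE hfree hp g hg
  have hinf : ∀ k : ℤ, z ^ k = 1 → k = 0 := fun k hk => zpow_ne_one hd hE hfree hz1 k hk
  have : Nonempty E := inferInstance
  obtain ⟨L, iL1, iL2, iL3, j, τ, hτ, hτp, hgen, hj, hLfree, hLpd⟩ :=
    exists_over hp z hz hfree htor hnp
  have hjinj : Function.Injective j := by
    rw [injective_iff_map_eq_one]
    intro g hg
    obtain ⟨x⟩ := (inferInstance : Nonempty E)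
    have h1 := hj g fun _ => x
    rw [hg, one_smul] at h1
    exact hfree g x (congrFun h1 ⟨0, hp.pos⟩).symm
  have hsep : ∀ (g : G) (k : ℤ), j g = τ ^ k → g ∈ Subgroup.zpowers z := fun g k h =>
    over_sep hp z hz htor hnp j hjinj τ hτp g k h
  have : ContractibleSpace (Fin p → E) := contractible_pi E p
  have hpd : 1 ≤ p * d := Nat.mul_pos hp.pos hd
  have hVanL : ∀ m, p * d < m → ((tSS L L).cx ℤ).Van m := fun m hm =>
    van_tup ℤ hLfree (van_of_locEuc ℤ hpd (LocEuc_pow p hE) hLfree m hm)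
  have hVan : ∀ m, d < m → ((tSS G G).cx ℤ).Van m := fun m hm =>
    van_tup ℤ hfree (van_of_locEuc ℤ hd hE hfree m hm)
  have hFg : ∀ m, ((tSS G G).cx ℤ).Fg m := fun m => fg_tup ℤ hfree (fg_of_compact hE hfree hcomp m)
  exact van_real _ _ (tor_final z hz hinf hp j hjinj τ hτ hτp hgen hsep d (p * d) hFg hVan hVanL
    d le_rfl)

end Pool.Agent.W_3f1825_h40
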