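import Mathlib

set_option autoImplicit false

/-! Complexes of representations of a group, by hand: chain maps, homotopies, augmentations,
the submodule `Co` spanned by the elements `g v - v`, cycles and boundaries modulo it
(that is: cycles and boundaries of the complex of coinvariants), and the lifting property of
permutation-type modules. -/

namespace Pool.Agent.W_3f1825_h40

/-- The span of the elements `ρ g v - v`: the kernel of the map to the coinvariants. -/
def Co {R G V : Type} [CommRing R] [Group G] [AddCommGroup V] [Module R V]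
    (ρ : Representation R G V) : Submodule R V :=
  Submodule.span R {x | ∃ g v, x = ρ g v - v}

/-- A complex `V 0 ← V 1 ← V 2 ← …` of representations of `G` over `R`. -/
structure Cx (R G : Type) [CommRing R] [Group G] where
  /-- the modules -/
  V : ℕ → Type
  [acg : ∀ m, AddCommGroup (V m)]
  [mod : ∀ m, Module R (V m)]
  /-- the action -/
  ρ : ∀ m, Representation R G (V m)
  /-- the differential -/
  d : ∀ m, V (m + 1) →ₗ[R] V m
  d_d : ∀ m x, d m (d (m + 1) x) = 0
  d_ρ : ∀ m g x, d m (ρ (m + 1) g x) = ρ m g (d m x)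

attribute [instance] Cx.acg Cx.mod

variable {R G : Type} [CommRing R] [Group G]

/-- Equivariant chain maps. -/
structure CMap (C D : Cx R G) where
  /-- the maps -/
  f : ∀ m, C.V m →ₗ[R] D.V m
  comm : ∀ m x, D.d m (f (m + 1) x) = f m (C.d m x)
  equiv : ∀ m g x, f m (C.ρ m g x) = D.ρ m g (f m x)

/-- The identity. -/
def CMap.id (C : Cx R G) : CMap C C where
  f _ := LinearMap.id
  comm _ _ := rfl
  equiv _ _ _ := rfl

/-- Composition. -/
def CMap.comp {C D E : Cx R G} (g : CMap D E) (f : CMap C D) : CMap C E where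
  f m := (g.f m).comp (f.f m)
  comm m x := by simp [g.comm, f.comm]
  equiv m a x := by simp [g.equiv, f.equiv]

@[simp] theorem CMap.id_f (C : Cx R G) (m : ℕ) (x : C.V m) : (CMap.id C).f m x = x := rfl

@[simp] theorem CMap.comp_f {C D E : Cx R G} (g : CMap D E) (f : CMap C D) (m : ℕ) (x : C.V m) :
    (g.comp f).f m x = g.f m (f.f m x) := rfl

/-- Multiplication of a chain map by a scalar. -/
def CMap.smul {C D : Cx R G} (r : R) (f : CMap C D) : CMap C D where
  f m := r • f.f m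
  comm m x := by simp [f.comm]
  equiv m a x := by simp [f.equiv]

@[simp] theorem CMap.smul_f {C D : Cx R G} (r : R) (f : CMap C D) (m : ℕ) (x : C.V m) :
    (f.smul r).f m x = r • f.f m x := rfl

/-- Equivariant chain homotopies between two chain maps. -/
structure Htpy {C D : Cx R G} (f f' : CMap C D) where
  /-- the homotopy -/
  h : ∀ m, C.V m →ₗ[R] D.V (m + 1)
  equiv : ∀ m g x, h m (C.ρ m g x) = D.ρ (m + 1) g (h m x)
  zero : ∀ x, f.f 0 x - f'.f 0 x = D.d 0 (h 0 x)
  succ : ∀ m x, f.f (m + 1) x - f'.f (m + 1) x = D.d (m + 1) (h (m + 1) x) + h m (C.d m x)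

/-- An augmentation. -/
structure Aug (C : Cx R G) where
  /-- the augmentation -/
  ε : C.V 0 →ₗ[R] R
  ε_d : ∀ x, ε (C.d 0 x) = 0
  ε_ρ : ∀ g x, ε (C.ρ 0 g x) = ε x

/-- The augmented complex is exact. -/
structure Aug.Exact {C : Cx R G} (A : Aug C) : Prop where
  surj : ∃ x, A.ε x = 1
  zero : ∀ x, A.ε x = 0 → ∃ y, C.d 0 y = x
  succ : ∀ m x, C.d m x = 0 → ∃ y, C.d (m + 1) y = x

/-- The subgroup `N` acts trivially. -/
def Cx.Triv (C : Cx R G) (N : Subgroup G) : Prop := ∀ m, ∀ g ∈ N, ∀ x, C.ρ m g x = x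

/-- Lifting property with respect to maps between representations on the source of which `N` acts
trivially. -/
def LiftProp (N : Subgroup G) {V : Type} [AddCommGroup V] [Module R V]
    (ρ : Representation R G V) : Prop :=
  ∀ (A B : Type) [AddCommGroup A] [Module R A] [AddCommGroup B] [Module R B]
    (α : Representation R G A) (β : Representation R G B),
    (∀ g ∈ N, ∀ a, α g a = a) →
    ∀ φ : A →ₗ[R] B, (∀ g a, φ (α g a) = β g (φ a)) →
    ∀ ψ : V →ₗ[R] B, (∀ g v, ψ (ρ g v) = β g (ψ v)) →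
    (∀ v, ∃ a, φ a = ψ v) →
    ∃ χ : V →ₗ[R] A, (∀ g v, χ (ρ g v) = α g (χ v)) ∧ ∀ v, φ (χ v) = ψ v

/-- All modules of the complex have the lifting property. -/
def Cx.Lifts (C : Cx R G) (N : Subgroup G) : Prop := ∀ m, LiftProp N (C.ρ m)

/-- Cycles modulo `Co`. -/
def Cx.Z (C : Cx R G) : ∀ m, Submodule R (C.V m)
  | 0 => ⊤
  | m + 1 => (Co (C.ρ m)).comap (C.d m)

/-- Boundaries modulo `Co`. -/
def Cx.B (C : Cx R G) (m : ℕ) : Submodule R (C.V m) := LinearMap.range (C.d m) ⊔ Co (C.ρ m)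

/-- The homology of the coinvariants vanishes in degree `m`. -/
def Cx.Van (C : Cx R G) (m : ℕ) : Prop := C.Z m ≤ C.B m

/-- The homology of the coinvariants in degree `m` is finitely generated. -/
def Cx.Fg (C : Cx R G) (m : ℕ) : Prop := ∃ Q : Submodule R (C.V m), Q.FG ∧ C.Z m ≤ Q ⊔ C.B m

/-- The homology of the coinvariants in degree `m` is torsion. -/
def Cx.Tor (C : Cx R G) (m : ℕ) : Prop := ∀ x ∈ C.Z m, ∃ r : ℕ, r ≠ 0 ∧ (r : R) • x ∈ C.B m

section basics

variable {V W : Type} [AddCommGroup V] [Module R V] [AddCommGroup W] [Module R W]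

theorem sub_mem_Co (ρ : Representation R G V) (g : G) (v : V) : ρ g v - v ∈ Co ρ :=
  Submodule.subset_span ⟨g, v, rfl⟩

theorem map_Co {ρ : Representation R G V} {σ : Representation R G W} (f : V →ₗ[R] W)
    (hf : ∀ g v, f (ρ g v) = σ g (f v)) {x : V} (hx : x ∈ Co ρ) : f x ∈ Co σ := by
  have h : Co ρ ≤ (Co σ).comap f := by
    rw [Co, Submodule.span_le]
    rintro _ ⟨g, v, rfl⟩
    change f (ρ g v - v) ∈ Co σ
    rw [map_sub, hf]
    exact sub_mem_Co σ g (f v)
  exact h hx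

end basics

theorem Cx.mem_Z_succ {C : Cx R G} {m : ℕ} {x : C.V (m + 1)} :
    x ∈ C.Z (m + 1) ↔ C.d m x ∈ Co (C.ρ m) := Iff.rfl

theorem Cx.mem_Z_zero {C : Cx R G} (x : C.V 0) : x ∈ C.Z 0 := Submodule.mem_top

theorem Cx.d_mem_B (C : Cx R G) (m : ℕ) (x : C.V (m + 1)) : C.d m x ∈ C.B m :=
  Submodule.mem_sup_left ⟨x, rfl⟩

theorem Cx.Co_le_B (C : Cx R G) (m : ℕ) : Co (C.ρ m) ≤ C.B m := le_sup_right

theorem Cx.mem_B {C : Cx R G} {m : ℕ} {x : C.V m} :
    x ∈ C.B m ↔ ∃ y, x - C.d m y ∈ Co (C.ρ m) := by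
  constructor
  · intro h
    obtain ⟨a, ⟨y, rfl⟩, b, hb, rfl⟩ := Submodule.mem_sup.1 h
    exact ⟨y, by simpa using hb⟩
  · rintro ⟨y, hy⟩
    have := Submodule.add_mem _ (C.d_mem_B m y) (C.Co_le_B m hy)
    simpa using this

theorem Cx.d_Co (C : Cx R G) {m : ℕ} {x : C.V (m + 1)} (hx : x ∈ Co (C.ρ (m + 1))) :
    C.d m x ∈ Co (C.ρ m) := map_Co (C.d m) (C.d_ρ m) hx

theorem Cx.B_le_Z (C : Cx R G) (m : ℕ) : C.B m ≤ C.Z m := by
  cases m with
  | zero => exact le_top
  | succ m =>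
    refine sup_le ?_ ?_
    · rintro _ ⟨y, rfl⟩
      rw [Cx.mem_Z_succ, C.d_d]
      exact Submodule.zero_mem _
    · intro x hx
      exact C.d_Co hx

theorem CMap.map_Z {C D : Cx R G} (f : CMap C D) {m : ℕ} {x : C.V m} (hx : x ∈ C.Z m) :
    f.f m x ∈ D.Z m := by
  cases m with
  | zero => exact Submodule.mem_top
  | succ m =>
    rw [Cx.mem_Z_succ, f.comm]
    exact map_Co (f.f m) (f.equiv m) hx

theorem CMap.map_B {C D : Cx R G} (f : CMap C D) {m : ℕ} {x : C.V m} (hx : x ∈ C.B m) :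
    f.f m x ∈ D.B m := by
  obtain ⟨y, hy⟩ := Cx.mem_B.1 hx
  refine Cx.mem_B.2 ⟨f.f (m + 1) y, ?_⟩
  rw [f.comm, ← map_sub]
  exact map_Co (f.f m) (f.equiv m) hy

theorem Htpy.sub_mem {C D : Cx R G} {f f' : CMap C D} (H : Htpy f f') {m : ℕ} {x : C.V m}
    (hx : x ∈ C.Z m) : f.f m x - f'.f m x ∈ D.B m := by
  cases m with
  | zero =>
    rw [H.zero]
    exact D.d_mem_B 0 _
  | succ m =>
    rw [H.succ]
    exact Submodule.add_mem _ (D.d_mem_B _ _)
      (D.Co_le_B _ (map_Co (H.h m) (H.equiv m) (Cx.mem_Z_succ.1 hx)))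

/-- Homotopy retracts inherit `Van`. -/
theorem Van.of_retract {C D : Cx R G} (f : CMap C D) (g : CMap D C) (H : Htpy (g.comp f) (CMap.id C))
    {m : ℕ} (h : D.Van m) : C.Van m := by
  intro x hx
  have h1 := H.sub_mem hx
  have h2 := g.map_B (h (f.map_Z hx))
  have h3 : x = g.f m (f.f m x) - ((g.comp f).f m x - (CMap.id C).f m x) := by simp
  rw [h3]
  exact Submodule.sub_mem _ h2 h1

/-- Homotopy retracts inherit `Fg`. -/
theorem Fg.of_retract {C D : Cx R G} (f : CMap C D) (g : CMap D C) (H : Htpy (g.comp f) (CMap.id C))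
    {m : ℕ} (h : D.Fg m) : C.Fg m := by
  obtain ⟨Q, hQ, hQ'⟩ := h
  refine ⟨Q.map (g.f m), hQ.map _, ?_⟩
  intro x hx
  have h1 := H.sub_mem hx
  obtain ⟨q, hq, b, hb, hqb⟩ := Submodule.mem_sup.1 (hQ' (f.map_Z hx))
  have h3 : x = g.f m q + (g.f m b - ((g.comp f).f m x - (CMap.id C).f m x)) := by
    rw [CMap.comp_f, CMap.id_f, ← hqb, map_add]
    abel
  rw [h3]
  exact Submodule.add_mem _ (Submodule.mem_sup_left ⟨q, hq, rfl⟩)
    (Submodule.mem_sup_right (Submodule.sub_mem _ (g.map_B hb) h1))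

end Pool.Agent.W_3f1825_h40
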