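import Mathlib

set_option autoImplicit false

/-! Quotient coverings of compact Hausdorff spaces. -/

open Topology

namespace Pool.Agent.W_3f1825_h40

variable {E M : Type} [TopologicalSpace E] [TopologicalSpace M]

/-- PROOF: let `K`, `L` be compact in `E`. For every `(x, y) ∈ E × E` there are open
neighbourhoods `U`, `V` such that `g U ∩ V ≠ ∅` for at most one `g`: if `p x ≠ p y` take disjoint
neighbourhoods of `p x`, `p y` in `M` (T2) and their preimages (no `g`); if `y = h • x`
(`apply_eq_iff_mem_orbit`) take `U` from `hp.disjoint x` (open, its translates pairwise disjoint)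
and `V = h • U`. Cover the compact set `K × L` by finitely many `U × V`. -/
theorem pd_of_quot {G : Type} [Group G] [MulAction G E] {p : E → M}
    (hp : IsQuotientCoveringMap p G) [T2Space M] : ProperlyDiscontinuousSMul G E := by
  have := hp.toContinuousConstSMul
  have key : ∀ x y : E, ∃ U ∈ 𝓝 x, ∃ V ∈ 𝓝 y,
      {g : G | ((g • ·) '' U ∩ V).Nonempty}.Subsingleton := by
    intro x y
    by_cases h : p x = p y
    · obtain ⟨k, hk⟩ := hp.apply_eq_iff_mem_orbit.1 h.symm
      obtain ⟨U, hU, hdis⟩ := hp.disjoint x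
      refine ⟨U, hU, (k • ·) '' U, ?_, ?_⟩
      · have h1 : (k • ·) '' U ∈ 𝓝 (k • x) := (Homeomorph.smul k).isOpenMap.image_mem_nhds hU
        have h2 : k • x = y := hk
        rwa [h2] at h1
      · have h3 : ∀ g : G, ((g • ·) '' U ∩ (k • ·) '' U).Nonempty → g = k := by
          rintro g ⟨_, ⟨u, hu, rfl⟩, ⟨v, hv, hvu⟩⟩
          have h4 : k⁻¹ * g = 1 := by
            refine hdis _ ⟨v, ⟨u, hu, ?_⟩, hv⟩
            have h5 : k • v = g • u := hvu
            change (k⁻¹ * g) • u = v
            rw [mul_smul, ← h5, inv_smul_smul]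
          exact (inv_mul_eq_one.1 h4).symm
        intro g hg g' hg'
        exact (h3 g hg).trans (h3 g' hg').symm
    · obtain ⟨A, B, hA, hB, hxA, hyB, hAB⟩ := t2_separation h
      refine ⟨p ⁻¹' A, (hA.preimage hp.continuous).mem_nhds hxA, p ⁻¹' B,
        (hB.preimage hp.continuous).mem_nhds hyB, ?_⟩
      rintro g ⟨_, ⟨u, hu, rfl⟩, hv⟩
      exfalso
      have h1 : p (g • u) ∈ B := hv
      rw [hp.map_smul] at h1
      exact Set.disjoint_left.1 hAB hu h1
  constructor
  intro K L hK hL
  choose U hU V hV hS using key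
  obtain ⟨t, ht, hcov⟩ := (hK.prod hL).elim_nhds_subcover
    (fun z : E × E => U z.1 z.2 ×ˢ V z.1 z.2) (fun z _ => prod_mem_nhds (hU _ _) (hV _ _))
  refine (Set.Finite.biUnion t.finite_toSet (fun z _ => (hS z.1 z.2).finite)).subset ?_
  rintro g ⟨_, ⟨u, hu, rfl⟩, hv⟩
  have h1 := hcov (Set.mk_mem_prod hu hv)
  obtain ⟨z, hz, hz1, hz2⟩ := Set.mem_iUnion₂.1 h1
  exact Set.mem_iUnion₂.2 ⟨z, hz, g • u, ⟨u, hz1, rfl⟩, hz2⟩

/-- PROOF: `Quotient (orbitRel G E)` is homeomorphic to `M` (`IsQuotientMap`), or: it is the image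
of `M` under the continuous map induced by the quotient map `E → Quotient`. -/
theorem compact_of_quot {G : Type} [Group G] [MulAction G E] {p : E → M}
    (hp : IsQuotientCoveringMap p G) [CompactSpace M] :
    CompactSpace (Quotient (MulAction.orbitRel G E)) := by
  have hsurj := hp.surjective
  let f : M → Quotient (MulAction.orbitRel G E) :=
    fun m => Quotient.mk _ (Function.surjInv hsurj m)
  have hf : ∀ e, f (p e) = Quotient.mk _ e := by
    intro e
    refine Quotient.sound ?_
    exact hp.apply_eq_iff_mem_orbit.1 (Function.surjInv_eq hsurj (p e))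
  have hcont : Continuous f := by
    rw [hp.toIsQuotientMap.continuous_iff]
    have : f ∘ p = Quotient.mk _ := funext hf
    rw [this]
    exact continuous_quotient_mk'
  have hsurjf : Function.Surjective f := by
    intro q
    obtain ⟨e, rfl⟩ := Quotient.exists_rep q
    exact ⟨p e, hf e⟩
  exact hsurjf.compactSpace hcont

/-- PROOF: Mathlib `IsQuotientCoveringMap.fundamentalGroupEquiv`. The base point `x₀` has a
preimage. -/
theorem deck_equiv {G : Type} [Group G] [MulAction G E] {p : E → M}
    (hp : IsQuotientCoveringMap p G) [ContractibleSpace E] (x₀ : M) :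
    Nonempty (FundamentalGroup M x₀ ≃* Gᵐᵒᵖ) := by
  obtain ⟨e, rfl⟩ := hp.surjective x₀
  exact ⟨hp.fundamentalGroupEquiv ⟨e, rfl⟩⟩

/-- The total space of a covering of a T2 space is T2. PROOF: `IsCoveringMap.isSeparatedMap` and
`T2Space` of the base (points with different images are separated by preimages). -/
theorem t2_of_cover {p : E → M} (hp : IsCoveringMap p) [T2Space M] : T2Space E := by
  refine ⟨fun x y hxy => ?_⟩
  by_cases h : p x = p y
  · exact hp.isSeparatedMap x y h hxy
  · obtain ⟨A, B, hA, hB, hxA, hyB, hAB⟩ := t2_separation h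
    exact ⟨p ⁻¹' A, p ⁻¹' B, hA.preimage hp.continuous, hB.preimage hp.continuous, hxA, hyB,
      hAB.preimage p⟩

end Pool.Agent.W_3f1825_h40
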