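import Mathlib

set_option autoImplicit false

/-! Quotients by subgroups of finite index are compact. -/

open Topology

namespace Pool.Agent.W_3f1825_h40

variable {E M : Type} [TopologicalSpace E] [TopologicalSpace M]

/-- PROOF: by local compactness and compactness of the quotient (cover it by the images of the
interiors of compact sets; the quotient map is open) there is a compact `K` with `G K = E`.
Let `g i` be finitely many representatives of `H \ G`; then `H (⋃ g i K) = E`, so the quotient by
`H` is the image of a compact set. -/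
theorem compact_subgroup {G : Type} [Group G] [MulAction G E] [ContinuousConstSMul G E]
    [LocallyCompactSpace E] (hc : CompactSpace (Quotient (MulAction.orbitRel G E)))
    (H : Subgroup G) (hH : H.FiniteIndex) :
    CompactSpace (Quotient (MulAction.orbitRel H E)) := by
  classical
  obtain ⟨K, hK, hGK⟩ : ∃ K : Set E, IsCompact K ∧ ∀ y : E, ∃ g : G, ∃ k ∈ K, g • k = y := by
    have hopen : IsOpenMap (Quotient.mk (MulAction.orbitRel G E)) := isOpenMap_quotient_mk'_mul
    have h := fun x : E => exists_compact_mem_nhds x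
    choose N hN hN2 using h
    obtain ⟨t, ht⟩ := hc.isCompact_univ.elim_finite_subcover
      (fun x : E => Quotient.mk (MulAction.orbitRel G E) '' interior (N x))
      (fun x => hopen _ isOpen_interior) (by
        rintro ⟨x⟩ -
        exact Set.mem_iUnion.2 ⟨x, x, mem_interior_iff_mem_nhds.2 (hN2 x), rfl⟩)
    refine ⟨⋃ x ∈ t, N x, t.isCompact_biUnion fun x _ => hN x, ?_⟩
    intro y
    have h1 := ht (Set.mem_univ (Quotient.mk (MulAction.orbitRel G E) y))
    simp only [Set.mem_iUnion] at h1
    obtain ⟨x, hx, z, hz, hzy⟩ := h1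
    have h2 : z ∈ MulAction.orbit G y := MulAction.orbitRel_apply.1 (Quotient.exact hzy)
    obtain ⟨g, hg⟩ := h2
    refine ⟨g⁻¹, z, Set.mem_biUnion hx (interior_subset hz), ?_⟩
    rw [← hg]
    exact inv_smul_smul g y
  have : Finite (G ⧸ H) := H.finite_quotient_of_finiteIndex
  let L : Set E := ⋃ q : G ⧸ H, (fun x : E => (Quotient.out q)⁻¹ • x) '' K
  have hL : IsCompact L := isCompact_iUnion fun q => hK.image (continuous_const_smul _)
  have hcov : Quotient.mk (MulAction.orbitRel H E) '' L = Set.univ := by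
    rw [Set.eq_univ_iff_forall]
    rintro ⟨y⟩
    obtain ⟨g, k, hk, rfl⟩ := hGK y
    obtain ⟨h, hh⟩ := QuotientGroup.mk_out_eq_mul H g⁻¹
    refine ⟨(Quotient.out ((g⁻¹ : G) : G ⧸ H))⁻¹ • k, Set.mem_iUnion.2 ⟨_, k, hk, rfl⟩, ?_⟩
    refine Quotient.sound ?_
    change _ ∈ MulAction.orbit H (g • k)
    refine ⟨h⁻¹, ?_⟩
    change ((h⁻¹ : H) : G) • (g • k) = (Quotient.out ((g⁻¹ : G) : G ⧸ H))⁻¹ • k
    have hh' : (Quotient.out ((g⁻¹ : G) : G ⧸ H)) = g⁻¹ * h := hh
    rw [hh', mul_inv_rev, inv_inv, mul_smul]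
    rfl
  refine ⟨?_⟩
  rw [← hcov]
  exact hL.image continuous_quot_mk

end Pool.Agent.W_3f1825_h40
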