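import Mathlib

set_option autoImplicit false

/-! Deck transformations. -/

open Topology

namespace Pool.Agent.W_3f1825_h40

variable {E M : Type} [TopologicalSpace E] [TopologicalSpace M]

/-- The group of deck transformations of `p`. -/
def deck (p : E → M) : Subgroup (E ≃ₜ E) where
  carrier := {f | ∀ x, p (f x) = p x}
  mul_mem' := by
    intro f g hf hg x
    change p (f (g x)) = p x
    rw [hf, hg]
  one_mem' := fun _ => rfl
  inv_mem' := by
    intro f hf x
    have h := hf (f⁻¹ x)
    have h2 : f (f⁻¹ x) = x := f.apply_symm_apply x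
    rw [h2] at h
    exact h.symm

instance deckAction (p : E → M) : MulAction (deck p) E where
  smul f x := f.1 x
  one_smul _ := rfl
  mul_smul _ _ _ := rfl

theorem covering_surj {p : E → M} (hp : IsCoveringMap p) [ConnectedSpace M] [Nonempty E] :
    Function.Surjective p := by
  have h1 : IsOpen (Set.range p) := hp.isOpenMap.isOpen_range
  have h2 : IsClosed (Set.range p) := by
    rw [← isOpen_compl_iff, isOpen_iff_mem_nhds]
    intro x hx
    obtain ⟨_, U, hxU, hU, _, H, hH⟩ := hp x
    refine Filter.mem_of_superset (hU.mem_nhds hxU) ?_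
    rintro _ hy ⟨e, rfl⟩
    have h3 := (H ⟨e, hy⟩).2
    exact hx ⟨_, h3.2⟩
  rw [← Set.range_eq_univ]
  exact IsClopen.eq_univ ⟨h2, h1⟩ (Set.range_nonempty p)

theorem deck_exists {p : E → M} (hp : IsCoveringMap p) [ContractibleSpace E]
    [LocallyPathConnectedSpace E] (e e' : E) (h : p e = p e') : ∃ f : deck p, f • e = e' := by
  obtain ⟨F, ⟨hF1, hF2⟩, _⟩ := hp.existsUnique_continuousMap_lifts ⟨p, hp.continuous⟩ e e' h.symm
  obtain ⟨F', ⟨hF1', hF2'⟩, _⟩ := hp.existsUnique_continuousMap_lifts ⟨p, hp.continuous⟩ e' e h
  have hpF : ∀ x, p (F x) = p x := fun x => congrFun hF2 x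
  have hpF' : ∀ x, p (F' x) = p x := fun x => congrFun hF2' x
  have h1 : F' ∘ F = id := hp.eq_of_comp_eq (F'.continuous.comp F.continuous) continuous_id
    (by funext x; simp [hpF, hpF']) e (by simp [hF1, hF1'])
  have h2 : F ∘ F' = id := hp.eq_of_comp_eq (F.continuous.comp F'.continuous) continuous_id
    (by funext x; simp [hpF, hpF']) e' (by simp [hF1, hF1'])
  refine ⟨⟨{ toFun := F, invFun := F', left_inv := fun x => congrFun h1 x,
             right_inv := fun x => congrFun h2 x, continuous_toFun := F.continuous,
             continuous_invFun := F'.continuous }, hpF⟩, hF1⟩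

/-- PROOF: `isQuotientCoveringMap_iff_isCoveringMap_and` (Mathlib). SURJECTIVE: the range of `p` is
open (covering maps are open) and closed (the complement is open: over an evenly covered
neighbourhood the fibre is constant), `M` is connected and `E` is non-empty. CONTINUOUS action: clear.
FREE (`IsCancelSMul`): a deck transformation with a fixed point is the identity by uniqueness of
lifts (`IsCoveringMap.eq_of_comp_eq`), `E` being connected. TRANSITIVE on fibres: if `p e = p e'`
then `existsUnique_continuousMap_lifts` (Mathlib, `A = E` simply connected and locally path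
connected, contractible spaces are simply connected) for the map `p : E → M` gives continuous
`f`, `f' : E → E` with `p ∘ f = p`, `f e = e'`, `p ∘ f' = p`, `f' e' = e`; `f ∘ f' = id = f' ∘ f`
by uniqueness. -/
theorem deck_quot {p : E → M} (hp : IsCoveringMap p) [ConnectedSpace M] [ContractibleSpace E]
    [LocallyPathConnectedSpace E] : IsQuotientCoveringMap p (deck p) := by
  have hE : Nonempty E := inferInstance
  rw [isQuotientCoveringMap_iff_isCoveringMap_and]
  refine ⟨hp, covering_surj hp, ⟨fun f => f.1.continuous⟩, ?_, ?_⟩
  · rw [isCancelSMul_iff_eq_one_of_smul_eq]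
    intro f x hfx
    have h1 : (f.1 : E → E) = id := hp.eq_of_comp_eq f.1.continuous continuous_id
      (by funext y; exact f.2 y) x hfx
    apply Subtype.ext
    apply Homeomorph.ext
    intro y
    exact congrFun h1 y
  · intro e₁ e₂
    constructor
    · intro h
      exact deck_exists hp e₂ e₁ h.symm
    · rintro ⟨f, rfl⟩
      exact f.2 e₂

end Pool.Agent.W_3f1825_h40
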