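import Mathlib

set_option autoImplicit false

/-! Group theory: conditions on the fundamental group. -/

namespace Pool.Agent.W_3f1825_h40

/-- Some subgroup `H` of finite index has a central element `z` which for some prime `p` is not a
`p`-th power in `H`. -/
def VirtNonPower (Γ : Type) [Group Γ] : Prop :=
  ∃ H : Subgroup Γ, H.FiniteIndex ∧ ∃ z ∈ H, (∀ h ∈ H, h * z = z * h) ∧
    ∃ p : ℕ, p.Prime ∧ ∀ w ∈ H, w ^ p ≠ z

/-- Some subgroup of finite index has non-trivial centre. -/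
def VirtCentre (Γ : Type) [Group Γ] : Prop :=
  ∃ H : Subgroup Γ, H.FiniteIndex ∧ ∃ z ∈ H, z ≠ 1 ∧ ∀ h ∈ H, h * z = z * h

/-- Residually finite groups. -/
def ResFin (Γ : Type) [Group Γ] : Prop :=
  ∀ g : Γ, g ≠ 1 → ∃ H : Subgroup Γ, H.FiniteIndex ∧ g ∉ H

/-- There is an infinite cyclic normal subgroup. -/
def NormalCyclic (Γ : Type) [Group Γ] : Prop :=
  ∃ z : Γ, (∀ k : ℤ, z ^ k = 1 → k = 0) ∧ (Subgroup.zpowers z).Normal

/-- There are an infinite cyclic normal subgroup `⟨z⟩` and a prime `p` such that `z` is not a `p`-th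
power. -/
def NormalCyclicNonPower (Γ : Type) [Group Γ] : Prop :=
  ∃ z : Γ, (∀ k : ℤ, z ^ k = 1 → k = 0) ∧ (Subgroup.zpowers z).Normal ∧
    ∃ p : ℕ, p.Prime ∧ ∀ w : Γ, w ^ p ≠ z

end Pool.Agent.W_3f1825_h40
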