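import Pool.Agent.W_3f1825_h40.SS

set_option autoImplicit false

/-! The l1-norm of finitely supported real functions. -/

namespace Pool.Agent.W_3f1825_h40

/-- The l1-norm. -/
noncomputable def l1 {X : Type} (c : X →₀ ℝ) : ℝ := c.sum fun _ r => |r|

theorem l1_nonneg {X : Type} (c : X →₀ ℝ) : 0 ≤ l1 c :=
  Finset.sum_nonneg fun _ _ => abs_nonneg _

@[simp] theorem l1_zero {X : Type} : l1 (0 : X →₀ ℝ) = 0 := by simp [l1]

@[simp] theorem l1_single {X : Type} (x : X) (r : ℝ) : l1 (Finsupp.single x r) = |r| := by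
  simp [l1, Finsupp.sum_single_index]

theorem L1_eq_sum {X : Type} (c : X →₀ ℝ) (s : Finset X) (hs : c.support ⊆ s) :
    l1 c = ∑ x ∈ s, |c x| :=
  Finsupp.sum_of_support_subset c hs _ fun _ _ => abs_zero

/-- PROOF: write all sums over the union of the supports. -/
theorem l1_add_le {X : Type} (a b : X →₀ ℝ) : l1 (a + b) ≤ l1 a + l1 b := by
  classical
  rw [L1_eq_sum (a + b) (a.support ∪ b.support) Finsupp.support_add,
    L1_eq_sum a (a.support ∪ b.support) Finset.subset_union_left,
    L1_eq_sum b (a.support ∪ b.support) Finset.subset_union_right, ← Finset.sum_add_distrib]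
  exact Finset.sum_le_sum fun x _ => abs_add_le _ _

theorem l1_smul {X : Type} (r : ℝ) (a : X →₀ ℝ) : l1 (r • a) = |r| * l1 a := by
  rw [L1_eq_sum (r • a) a.support Finsupp.support_smul, L1_eq_sum a a.support subset_rfl,
    Finset.mul_sum]
  refine Finset.sum_congr rfl fun x _ => ?_
  rw [Finsupp.smul_apply, smul_eq_mul, abs_mul]

theorem l1_sum_le {X ι : Type} (s : Finset ι) (f : ι → (X →₀ ℝ)) :
    l1 (∑ i ∈ s, f i) ≤ ∑ i ∈ s, l1 (f i) := by
  classical
  induction s using Finset.induction_on with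
  | empty => simp
  | insert i s hi ih =>
    rw [Finset.sum_insert hi, Finset.sum_insert hi]
    exact (l1_add_le _ _).trans (add_le_add le_rfl ih)

/-- PROOF: induction (`Finsupp.induction`) or `l1_sum_le` for `c = ∑ x ∈ c.support, single x (c x)`. -/
theorem l1_mapDomain_le {X Y : Type} (f : X → Y) (c : X →₀ ℝ) :
    l1 (Finsupp.mapDomain f c) ≤ l1 c := by
  unfold Finsupp.mapDomain Finsupp.sum
  refine (l1_sum_le _ _).trans (le_of_eq ?_)
  simp only [l1_single]
  rfl

theorem l1_lin_le {G : Type} [Group G] {A B : SS G} (φ : SMap A B) (m : ℕ) (c : A.X m →₀ ℝ) :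
    l1 (φ.lin ℝ m c) ≤ l1 c := l1_mapDomain_le _ c

end Pool.Agent.W_3f1825_h40
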