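import Pool.Agent.W_3f1825_h40.Sing
import Pool.Agent.W_3f1825_h40.L1
import Pool.Agent.W_3f1825_h40.I2R
import Pool.Agent.W_3f1825_h40.GrpDef

set_option autoImplicit false

/-! Definitions for the statement: singular cycles, homology, simplicial volume, aspherical
spaces. -/

namespace Pool.Agent.W_3f1825_h40

open Pool.Agent.W_MP_6d5819_gt

/-- The module of singular chains of degree `m` of `X` with coefficients in `R`: finitely supported
functions on the set of singular `m`-simplices `C(Δ^m, X)`. -/
abbrev SChain (R X : Type) [CommRing R] [TopologicalSpace X] (m : ℕ) : Type :=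
  C(stdSimplex ℝ (Fin (m + 1)), X) →₀ R

/-- Singular cycles. -/
def IsCycle (R : Type) [CommRing R] {X : Type} [TopologicalSpace X] : ∀ {m : ℕ}, SChain R X m → Prop
  | 0, _ => True
  | m + 1, c => bdry R X m c = 0

/-- Homologous chains. -/
def Homologous (R : Type) [CommRing R] {X : Type} [TopologicalSpace X] {m : ℕ}
    (c c' : SChain R X m) : Prop := ∃ b : SChain R X (m + 1), c - c' = bdry R X m b

/-- The chain does not meet the point `x`: all its simplices avoid `x`. -/
def Avoids (R : Type) [CommRing R] {X : Type} [TopologicalSpace X] {m : ℕ} (x : X)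
    (c : SChain R X m) : Prop := ∀ σ ∈ c.support, x ∉ Set.range σ

/-- Relative cycles of `(X, X ∖ {x})`. -/
def IsRelCycle (R : Type) [CommRing R] {X : Type} [TopologicalSpace X] (x : X) :
    ∀ {m : ℕ}, SChain R X m → Prop
  | 0, _ => True
  | m + 1, c => Avoids R x (bdry R X m c)

/-- `c` is an integral fundamental cycle of the `n`-manifold `M`: a cycle of degree `n` whose class
generates the local homology group `H_n(M, M ∖ {x}; ℤ)` at every point `x`. -/
def IsFundamental {M : Type} [TopologicalSpace M] {n : ℕ} (c : SChain ℤ M n) : Prop :=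
  IsCycle ℤ c ∧ ∀ x : M, ∀ d : SChain ℤ M n, IsRelCycle ℤ x d →
    ∃ (k : ℤ) (b : SChain ℤ M (n + 1)), Avoids ℤ x (d - k • c - bdry ℤ M n b)

/-- The simplicial volume of the `n`-manifold `M`: the infimum of the `l1`-norms of the real
cycles which are homologous to an integral fundamental cycle. -/
noncomputable def simplicialVolume (n : ℕ) (M : Type) [TopologicalSpace M] : ℝ :=
  sInf {r | ∃ (c₀ : SChain ℤ M n) (c : SChain ℝ M n), IsFundamental c₀ ∧ IsCycle ℝ c ∧
    Homologous ℝ c (i2r _ c₀) ∧ r = l1 c}

/-- A connected space is aspherical if it has a contractible covering space (its universal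
cover). -/
def IsAspherical (M : Type) [TopologicalSpace M] : Prop :=
  ∃ (E : Type) (_ : TopologicalSpace E) (p : E → M), ContractibleSpace E ∧ IsCoveringMap p

end Pool.Agent.W_3f1825_h40
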