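import Pool.Agent.W_3f1825_h40.GrpDef

set_option autoImplicit false

/-! Infinite cyclic normal subgroups; invariance under isomorphisms. -/

namespace Pool.Agent.W_3f1825_h40

/-- conjugation maps `z` to `z` or to its inverse -/
theorem GrpB_conj {Γ : Type} [Group Γ] (z : Γ) (hz : ∀ k : ℤ, z ^ k = 1 → k = 0)
    (hn : (Subgroup.zpowers z).Normal) (g : Γ) : g * z * g⁻¹ = z ∨ g * z * g⁻¹ = z⁻¹ := by
  obtain ⟨a, ha⟩ := Subgroup.mem_zpowers_iff.1 (hn.conj_mem z (Subgroup.mem_zpowers z) g)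
  obtain ⟨b, hb⟩ := Subgroup.mem_zpowers_iff.1 (hn.conj_mem z (Subgroup.mem_zpowers z) g⁻¹)
  have h1 : z ^ (a * b - 1) = 1 := by
    have h2 : z ^ (a * b) = z := by
      rw [zpow_mul, ha, conj_zpow, hb]
      group
    rw [zpow_sub, h2, zpow_one, mul_inv_cancel]
  have h3 : a * b = 1 := by
    have := hz _ h1
    omega
  rcases Int.eq_one_or_neg_one_of_mul_eq_one h3 with h4 | h4
  · left
    rw [← ha, h4, zpow_one]
  · right
    rw [← ha, h4, zpow_neg, zpow_one]

/-- PROOF: `H = ` centralizer of `z`. Conjugation by `g` maps `z` to a generator of the infinite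
cyclic group `zpowers z`, i.e. to `z` or `z⁻¹`; so if `g, g' ∉ H` then `g⁻¹ * g' ∈ H`, and `H` has
index at most `2`. -/
theorem centralizer_finiteIndex {Γ : Type} [Group Γ] (z : Γ) (hz : ∀ k : ℤ, z ^ k = 1 → k = 0)
    (hn : (Subgroup.zpowers z).Normal) : (Subgroup.centralizer {z}).FiniteIndex := by
  have hmem : ∀ g : Γ, g ∈ Subgroup.centralizer {z} ↔ g * z * g⁻¹ = z := by
    intro g
    rw [Subgroup.mem_centralizer_singleton_iff, mul_inv_eq_iff_eq_mul]
  have key : ∃ g0 : Γ, ∀ g : Γ, g ∉ Subgroup.centralizer {z} →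
      g0⁻¹ * g ∈ Subgroup.centralizer {z} := by
    by_cases h : ∃ g0 : Γ, g0 ∉ Subgroup.centralizer {z}
    · obtain ⟨g0, hg0⟩ := h
      refine ⟨g0, fun g hg => ?_⟩
      have h1 : g * z * g⁻¹ = z⁻¹ := by
        rcases GrpB_conj z hz hn g with h | h
        · exact absurd ((hmem g).2 h) hg
        · exact h
      have h2 : g0 * z * g0⁻¹ = z⁻¹ := by
        rcases GrpB_conj z hz hn g0 with h | h
        · exact absurd ((hmem g0).2 h) hg0
        · exact h
      rw [hmem]
      calc g0⁻¹ * g * z * (g0⁻¹ * g)⁻¹ = g0⁻¹ * (g * z * g⁻¹) * g0 := by group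
        _ = g0⁻¹ * (g0 * z * g0⁻¹) * g0 := by rw [h1, h2]
        _ = z := by group
    · push Not at h
      exact ⟨1, fun g hg => absurd (h g) hg⟩
  obtain ⟨g0, hg0⟩ := key
  have hfin : Finite (Γ ⧸ Subgroup.centralizer {z}) := by
    refine Finite.of_surjective
      (fun b : Bool => if b then ((1 : Γ) : Γ ⧸ Subgroup.centralizer {z}) else (g0 : Γ)) ?_
    intro q
    obtain ⟨g, rfl⟩ := QuotientGroup.mk_surjective q
    by_cases hg : g ∈ Subgroup.centralizer {z}
    · refine ⟨true, ?_⟩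
      simp only [if_true]
      exact QuotientGroup.eq.2 (by simpa using hg)
    · refine ⟨false, ?_⟩
      simp only [Bool.false_eq_true, if_false]
      exact QuotientGroup.eq.2 (hg0 g hg)
  exact Subgroup.finiteIndex_of_finite_quotient

theorem GrpB_ne_one {Γ : Type} [Group Γ] (z : Γ) (hz : ∀ k : ℤ, z ^ k = 1 → k = 0) : z ≠ 1 := by
  rintro rfl
  have := hz 1 (one_zpow 1)
  omega

theorem GrpB_mem {Γ : Type} [Group Γ] (z : Γ) : z ∈ Subgroup.centralizer {z} := by
  rw [Subgroup.mem_centralizer_singleton_iff]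

theorem GrpB_comm {Γ : Type} [Group Γ] (z h : Γ) (hh : h ∈ Subgroup.centralizer {z}) :
    h * z = z * h := by
  rwa [Subgroup.mem_centralizer_singleton_iff] at hh

theorem virtCentre_of_normalCyclic {Γ : Type} [Group Γ] (h : NormalCyclic Γ) : VirtCentre Γ := by
  obtain ⟨z, hz, hn⟩ := h
  exact ⟨Subgroup.centralizer {z}, centralizer_finiteIndex z hz hn, z, GrpB_mem z,
    GrpB_ne_one z hz, fun h hh => GrpB_comm z h hh⟩

/-- PROOF: `H = ` centralizer of `z`; if `w ^ p = z`... the condition for `w ∈ H` is weaker than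
the one for all `w`. -/
theorem virtNonPower_of_normalCyclic {Γ : Type} [Group Γ] (h : NormalCyclicNonPower Γ) :
    VirtNonPower Γ := by
  obtain ⟨z, hz, hn, p, hp, hw⟩ := h
  exact ⟨Subgroup.centralizer {z}, centralizer_finiteIndex z hz hn, z, GrpB_mem z,
    fun h hh => GrpB_comm z h hh, p, hp, fun w _ => hw w⟩

/-- PROOF: transport `H` along the isomorphism (`Subgroup.map`/`comap`, `Subgroup.unop`); index is
preserved. -/
theorem virtNonPower_congr {Γ Γ' : Type} [Group Γ] [Group Γ'] (e : Γ ≃* Γ'ᵐᵒᵖ)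
    (h : VirtNonPower Γ) : VirtNonPower Γ' := by
  obtain ⟨H, hH, z, hz, hc, p, hp, hw⟩ := h
  let f : Γ ≃* Γ' := e.trans (MulEquiv.inv' Γ').symm
  refine ⟨H.map (f : Γ →* Γ'), ⟨?_⟩, f z, Subgroup.mem_map_of_mem _ hz, ?_, p, hp, ?_⟩
  · rw [Subgroup.index_map_equiv]
    exact hH.index_ne_zero
  · rintro _ ⟨x, hx, rfl⟩
    have h1 : (f : Γ →* Γ') x * f z = f z * (f : Γ →* Γ') x := by
      change f x * f z = f z * f x
      rw [← map_mul, ← map_mul, hc x hx]
    exact h1
  · rintro _ ⟨x, hx, rfl⟩ h1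
    refine hw x hx (f.injective ?_)
    rw [map_pow]
    exact h1

end Pool.Agent.W_3f1825_h40
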