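import Pool.Agent.W_3f1825_h40.GrpA
import Pool.Agent.W_3f1825_h40.GrpB

/-! Group theory: collection of the lemmas. -/
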