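import Pool.Agent.W_3f1825_h40.GrpDef

set_option autoImplicit false

/-! Residually finite groups. -/

namespace Pool.Agent.W_3f1825_h40

/-- The subgroup of all `z ^ i * y`, `y ∈ K`, where `z` is central in `K`. -/
def GrpA_H {Γ : Type} [Group Γ] (K : Subgroup Γ) (z : Γ) (hz : ∀ h ∈ K, h * z = z * h) :
    Subgroup Γ where
  carrier := {x | ∃ i : ℤ, ∃ y ∈ K, x = z ^ i * y}
  mul_mem' := by
    rintro a b ⟨i, y, hy, rfl⟩ ⟨j, y', hy', rfl⟩
    refine ⟨i + j, y * y', K.mul_mem hy hy', ?_⟩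
    have h1 : y * z ^ j = z ^ j * y := (Commute.zpow_right (hz y hy) j)
    rw [zpow_add, mul_assoc, ← mul_assoc y, h1]
    simp only [mul_assoc]
  one_mem' := ⟨0, 1, K.one_mem, by simp⟩
  inv_mem' := by
    rintro a ⟨i, y, hy, rfl⟩
    refine ⟨-i, y⁻¹, K.inv_mem hy, ?_⟩
    have h1 : y⁻¹ * z ^ (-i) = z ^ (-i) * y⁻¹ :=
      (Commute.zpow_right (hz _ (K.inv_mem hy)) (-i))
    rw [mul_inv_rev, ← zpow_neg, h1]

/-- PROOF (Corollary B of the paper proof): let `H₀` be the finite index subgroup with central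
`z ≠ 1`. Take `H₁` of finite index with `z ∉ H₁`, its normal core `N` in `Γ` (finite index, normal),
`H = (N ⊓ H₀) ⊔ zpowers z`: every element of `H` is `z ^ i * y` with `y ∈ N ⊓ H₀` (`z` is central in
`H₀`). The set `{i : ℤ | z ^ i ∈ N}` is a subgroup `m ℤ` of `ℤ` with `m ≠ 1` and `m ≠ 0` (finite
index); take a prime `p ∣ m`. If `w = z ^ i * y ∈ H` and `w ^ p = z` then `z ^ (p i) * y ^ p = z`, so
`z ^ (p i - 1) ∈ N`, `m ∣ p i - 1`, `p ∣ 1`, contradiction. -/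
theorem virtNonPower_of_resFin {Γ : Type} [Group Γ] (h1 : ResFin Γ) (h2 : VirtCentre Γ) :
    VirtNonPower Γ := by
  obtain ⟨H₀, hfin, z, hz0, hz1, hzc⟩ := h2
  obtain ⟨H₁, hfin1, hz2⟩ := h1 z hz1
  have hN : H₁.normalCore.FiniteIndex := inferInstance
  have hK : (H₁.normalCore ⊓ H₀).FiniteIndex := inferInstance
  have hc : ∀ h ∈ H₁.normalCore ⊓ H₀, h * z = z * h := fun h hh => hzc h (Subgroup.mem_inf.1 hh).2
  have hle : H₁.normalCore ⊓ H₀ ≤ GrpA_H (H₁.normalCore ⊓ H₀) z hc := fun y hy =>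
    ⟨0, y, hy, by simp⟩
  refine ⟨GrpA_H (H₁.normalCore ⊓ H₀) z hc, Subgroup.finiteIndex_of_le hle, z,
    ⟨1, 1, Subgroup.one_mem _, by simp⟩, ?_, ?_⟩
  · rintro h ⟨i, y, hy, rfl⟩
    rw [mul_assoc, hc y hy, ← mul_assoc, ← mul_assoc, (Commute.self_zpow z i).eq]
  · have hq : (QuotientGroup.mk z : Γ ⧸ H₁.normalCore) ≠ 1 := by
      intro h
      rw [QuotientGroup.eq_one_iff] at h
      exact hz2 (H₁.normalCore_le h)
    have hfin2 : Finite (Γ ⧸ H₁.normalCore) := inferInstance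
    have hm : orderOf (QuotientGroup.mk z : Γ ⧸ H₁.normalCore) ≠ 1 := by
      rwa [Ne, orderOf_eq_one_iff]
    refine ⟨_, Nat.minFac_prime hm, ?_⟩
    rintro w ⟨i, y, hy, rfl⟩ hw
    obtain ⟨p, hp⟩ : ∃ p, p = (orderOf (QuotientGroup.mk z : Γ ⧸ H₁.normalCore)).minFac := ⟨_, rfl⟩
    rw [← hp] at hw
    have hpp : p.Prime := hp ▸ Nat.minFac_prime hm
    have hpd : p ∣ orderOf (QuotientGroup.mk z : Γ ⧸ H₁.normalCore) := hp ▸ Nat.minFac_dvd _
    have h3 := congrArg (fun x => (QuotientGroup.mk x : Γ ⧸ H₁.normalCore)) hw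
    have h4 : (QuotientGroup.mk y : Γ ⧸ H₁.normalCore) = 1 :=
      (QuotientGroup.eq_one_iff y).2 (Subgroup.mem_inf.1 hy).1
    simp only [QuotientGroup.mk_pow, QuotientGroup.mk_mul, QuotientGroup.mk_zpow, h4,
      mul_one] at h3
    rw [← zpow_natCast, ← zpow_mul] at h3
    have h5 : (QuotientGroup.mk z : Γ ⧸ H₁.normalCore) ^ (i * p - 1) = 1 := by
      rw [zpow_sub, h3, zpow_one, mul_inv_cancel]
    have h6 := orderOf_dvd_iff_zpow_eq_one.2 h5
    have h7 : (p : ℤ) ∣ i * p - 1 := (Int.natCast_dvd_natCast.2 hpd).trans h6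
    have h8 : (p : ℤ) ∣ 1 := by
      have h9 := dvd_sub (Dvd.intro_left i rfl : (p : ℤ) ∣ i * p) h7
      rwa [sub_sub_cancel] at h9
    have h10 : p ∣ 1 := by exact_mod_cast h8
    exact hpp.one_lt.ne' (Nat.dvd_one.1 h10)

end Pool.Agent.W_3f1825_h40
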