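import Pool.Agent.W_3f1825_h40.TD

set_option autoImplicit false

/-! The operator `T - 1` on tuples. -/

namespace Pool.Agent.W_3f1825_h40

namespace TD

variable {G S B : Type} [Group G] [MulAction G S] [MulAction G B] {N : Subgroup G}

variable (R : Type) [CommRing R]

/-- The action of `T` on tuples. -/
noncomputable def Tl (D : TD G S B N) (m : ℕ) :
    ((Fin (m + 1) → S) →₀ R) →ₗ[R] ((Fin (m + 1) → S) →₀ R) :=
  Finsupp.lmapDomain R R (fun (x : Fin (m + 1) → S) (i : Fin (m + 1)) => D.T (x i))

theorem Tl_single (D : TD G S B N) (m : ℕ) (x : Fin (m + 1) → S) (r : R) :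
    D.Tl R m (Finsupp.single x r) = Finsupp.single (fun i => D.T (x i)) r :=
  Finsupp.mapDomain_single

theorem Tl_dd (D : TD G S B N) (m : ℕ) (x : (Fin (m + 2) → S) →₀ R) :
    (tSS G S).dd R m (D.Tl R (m + 1) x) = D.Tl R m ((tSS G S).dd R m x) := by
  induction x using Finsupp.induction_linear with
  | zero => simp
  | add a b ha hb => simp only [map_add, ha, hb]
  | single x r =>
    rw [Tl_single, SS.dd_single, SS.dd_single, map_sum]
    refine Finset.sum_congr rfl fun i _ => ?_
    rw [Tl_single]

/-- The action of `ℤ` on tuples by powers of `T`. -/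
@[implicit_reducible]
def actT (D : TD G S B N) (m : ℕ) : MulAction (Multiplicative ℤ) (Fin (m + 1) → S) where
  smul k x := fun i => (D.T ^ (Multiplicative.toAdd k)) (x i)
  one_smul x := by
    funext i
    change (D.T ^ (0 : ℤ)) (x i) = x i
    simp
  mul_smul k l x := by
    funext i
    change (D.T ^ (Multiplicative.toAdd k + Multiplicative.toAdd l)) (x i) =
      (D.T ^ (Multiplicative.toAdd k)) ((D.T ^ (Multiplicative.toAdd l)) (x i))
    rw [zpow_add, Equiv.Perm.mul_apply]

theorem permT_mem (D : TD G S B N) (m : ℕ) (k : ℤ) (v : (Fin (m + 1) → S) →₀ R) :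
    letI := D.actT m
    perm R (Multiplicative ℤ) (Fin (m + 1) → S) (Multiplicative.ofAdd k) v - v ∈
      LinearMap.range (D.Tl R m - LinearMap.id) := by
  let _ := D.actT m
  have hk : ∀ (k : ℤ) (v : (Fin (m + 1) → S) →₀ R),
      D.Tl R m (perm R (Multiplicative ℤ) (Fin (m + 1) → S) (Multiplicative.ofAdd k) v) =
        perm R (Multiplicative ℤ) (Fin (m + 1) → S) (Multiplicative.ofAdd (k + 1)) v := by
    intro k v
    induction v using Finsupp.induction_linear with
    | zero => simp
    | add a b ha hb => simp only [map_add, ha, hb]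
    | single x r =>
      rw [perm_single, perm_single, Tl_single]
      congr 1
      funext i
      change D.T ((D.T ^ k) (x i)) = (D.T ^ (k + 1)) (x i)
      rw [add_comm, zpow_add, zpow_one, Equiv.Perm.mul_apply]
  change perm R (Multiplicative ℤ) (Fin (m + 1) → S) (Multiplicative.ofAdd k) v - v ∈
      LinearMap.range (D.Tl R m - LinearMap.id)
  induction k using Int.induction_on with
  | zero =>
    rw [show (Multiplicative.ofAdd (0 : ℤ)) = 1 from rfl, map_one, Module.End.one_apply, sub_self]
    exact Submodule.zero_mem _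
  | succ n ih =>
    rw [← hk]
    have h1 : ∀ w, D.Tl R m w - w ∈ LinearMap.range (D.Tl R m - LinearMap.id) := fun w => ⟨w, rfl⟩
    have h2 := Submodule.add_mem _ (h1 (perm R (Multiplicative ℤ) (Fin (m + 1) → S)
      (Multiplicative.ofAdd (n : ℤ)) v)) ih
    rwa [sub_add_sub_cancel] at h2
  | pred n ih =>
    have h1 : ∀ w, D.Tl R m w - w ∈ LinearMap.range (D.Tl R m - LinearMap.id) := fun w => ⟨w, rfl⟩
    have h2 := h1 (perm R (Multiplicative ℤ) (Fin (m + 1) → S)
      (Multiplicative.ofAdd (-(n : ℤ) - 1)) v)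
    rw [hk, sub_add_cancel] at h2
    have h3 := Submodule.sub_mem _ ih h2
    rwa [sub_sub_sub_cancel_left] at h3

/-- Kernel of `P → D`. PROOF: `mem_Co_perm` for the group `Multiplicative ℤ` (or
`Subgroup.zpowers D.T`) acting on tuples by powers of `T` and for the map to the quotient; then
`(T ^ k) x - x` is in the range of `Tl - 1`, for natural `k` by induction and for negative `k` by
symmetry. -/
theorem exists_Tl (D : TD G S B N) (m : ℕ) (x : (Fin (m + 1) → S) →₀ R)
    (hx : D.proj.lin R m x = 0) : ∃ w, x = D.Tl R m w - w := by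
  let _ := D.actT m
  have h1 : x ∈ Co (perm R (Multiplicative ℤ) (Fin (m + 1) → S)) := by
    refine mem_Co_perm (R := R) (G := Multiplicative ℤ) (Quotient.mk (D.std m)) ?_ x hx
    intro y y' h
    obtain ⟨k, hk⟩ := D.std_iff.1 h
    exact ⟨Multiplicative.ofAdd k, funext hk⟩
  have h2 : Co (perm R (Multiplicative ℤ) (Fin (m + 1) → S)) ≤
      LinearMap.range (D.Tl R m - LinearMap.id) := by
    rw [Co, Submodule.span_le]
    rintro _ ⟨g, v, rfl⟩
    exact D.permT_mem R m (Multiplicative.toAdd g) v
  obtain ⟨w, hw⟩ := h2 h1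
  exact ⟨w, hw.symm⟩

/-- PROOF: if `w ≠ 0` take `x` in the support of `w`; `w (T ^ k x) = w x ≠ 0` for all `k : ℕ`
(coefficients are invariant), but the tuples `T ^ k x` are pairwise different (`free`), so the
support is infinite. -/
theorem eq_zero_of_Tl (D : TD G S B N) (m : ℕ) (w : (Fin (m + 1) → S) →₀ R)
    (hw : D.Tl R m w = w) : w = 0 := by
  by_contra hne
  obtain ⟨x, hx⟩ := Finsupp.support_nonempty_iff.2 hne
  set f : (Fin (m + 1) → S) → (Fin (m + 1) → S) := fun x i => D.T (x i) with hf
  have hinj : Function.Injective f := fun a b h => funext fun i => D.T.injective (congrFun h i)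
  have h1 : ∀ y, w (f y) = w y := by
    intro y
    have h2 : (Finsupp.mapDomain f w) (f y) = w y := Finsupp.mapDomain_apply hinj w y
    have h3 : Finsupp.mapDomain f w = w := hw
    rw [h3] at h2
    exact h2
  have h4 : ∀ n : ℕ, w (fun i => (D.T ^ n) (x i)) = w x := by
    intro n
    induction n with
    | zero => rfl
    | succ n ih =>
      rw [← ih, ← h1 (fun i => (D.T ^ n) (x i))]
      congr 1
      funext i
      rw [hf, pow_succ', Equiv.Perm.mul_apply]
  refine Set.infinite_of_injective_forall_mem (s := (w.support : Set (Fin (m + 1) → S)))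
    (f := fun n : ℕ => fun i => (D.T ^ n) (x i)) ?_ ?_ w.support.finite_toSet
  · intro n n' h
    have h5 : (D.T ^ n) (x 0) = (D.T ^ n') (x 0) := congrFun h 0
    have h6 : (D.T ^ ((n : ℤ) - n')) (x 0) = x 0 := by
      rw [sub_eq_neg_add, zpow_add, Equiv.Perm.mul_apply, zpow_natCast, h5, zpow_neg,
        zpow_natCast]
      exact (D.T ^ n').symm_apply_apply (x 0)
    have := D.free _ _ h6
    omega
  · intro n
    rw [Finset.mem_coe, Finsupp.mem_support_iff, h4]
    exact Finsupp.mem_support_iff.1 hx

theorem proj_surjective (D : TD G S B N) (m : ℕ) : Function.Surjective (D.proj.lin R m) :=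
  Finsupp.mapDomain_surjective Quotient.mk_surjective

end TD

end Pool.Agent.W_3f1825_h40
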