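import Pool.Agent.W_3f1825_h40.TDRes
import Pool.Agent.W_3f1825_h40.TDT

set_option autoImplicit false

/-! The shifted kernel complex `K` is a resolution. -/

namespace Pool.Agent.W_3f1825_h40

namespace TD

variable {G S B : Type} [Group G] [MulAction G S] [MulAction G B] {N : Subgroup G}

variable (R : Type) [CommRing R]

theorem TDEx_pi_surjective (D : TD G S B N) (m : ℕ) : Function.Surjective (D.pi.lin R m) := by
  intro b
  induction b using Finsupp.induction_linear with
  | zero => exact ⟨0, map_zero _⟩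
  | add a b ha hb =>
    obtain ⟨x, rfl⟩ := ha
    obtain ⟨y, rfl⟩ := hb
    exact ⟨x + y, map_add _ _ _⟩
  | single b r =>
    choose f hf using D.q_surj
    refine ⟨Finsupp.single (Quotient.mk (D.std m) (fun i => f (b i))) r, ?_⟩
    rw [SMap.lin_single]
    congr 1
    funext i
    exact hf (b i)

theorem TDEx_pi_injective (D : TD G S B N) : Function.Injective (D.pi.lin R 0) := by
  have h1 : Function.Injective (D.pi.f 0) := by
    intro x y
    induction x using Quotient.inductionOn with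
    | _ x =>
      induction y using Quotient.inductionOn with
      | _ y =>
        intro h
        have h2 : D.q (x 0) = D.q (y 0) := congrFun h 0
        obtain ⟨k, hk⟩ := (D.q_eq _ _).1 h2
        refine (D.std_iff).2 ⟨k, fun i => ?_⟩
        have hi : i = 0 := Fin.ext (by have := i.2; omega)
        rw [hi]
        exact hk
  exact Finsupp.mapDomain_injective h1

theorem TDEx_proj_Tl (D : TD G S B N) (m : ℕ) (v : (Fin (m + 1) → S) →₀ R) :
    D.proj.lin R m (D.Tl R m v) = D.proj.lin R m v := by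
  induction v using Finsupp.induction_linear with
  | zero => simp
  | add a b ha hb => simp only [map_add, ha, hb]
  | single x r =>
    have h1 : D.Tl R m (Finsupp.single x r) = Finsupp.single (fun i => D.T (x i)) r :=
      Finsupp.mapDomain_single
    rw [h1, SMap.lin_single, SMap.lin_single]
    congr 1
    symm
    exact (D.std_iff).2 ⟨1, fun i => by simp⟩

/-- The linear form `single s r ↦ r * a s`. -/
noncomputable def TDEx_form (D : TD G S B N) : ((Fin 1 → S) →₀ R) →ₗ[R] R :=
  Finsupp.linearCombination R (fun x => ((D.a (x 0) : ℤ) : R))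

theorem TDEx_form_Tl (D : TD G S B N) (w : (Fin 1 → S) →₀ R) :
    D.TDEx_form R (D.Tl R 0 w) = D.TDEx_form R w + sumc R _ w := by
  induction w using Finsupp.induction_linear with
  | zero => simp
  | add a b ha hb =>
    simp only [map_add, ha, hb]
    ring
  | single x r =>
    have h1 : D.Tl R 0 (Finsupp.single x r) = Finsupp.single (fun i => D.T (x i)) r :=
      Finsupp.mapDomain_single
    rw [h1, sumc_single]
    unfold TDEx_form
    rw [Finsupp.linearCombination_single, Finsupp.linearCombination_single, a_T]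
    push_cast
    simp only [smul_eq_mul]
    ring

theorem TDEx_form_dd (D : TD G S B N) (x : (Fin 2 → S) →₀ R) :
    D.TDEx_form R ((tSS G S).dd R 0 x) = D.kap R (D.proj.lin R 1 x) := by
  induction x using Finsupp.induction_linear with
  | zero => simp
  | add a b ha hb => simp only [map_add, ha, hb]
  | single x r =>
    rw [SMap.lin_single, SS.dd_single, map_sum, Fin.sum_univ_two]
    unfold TDEx_form kap
    rw [Finsupp.linearCombination_single, Finsupp.linearCombination_single,
      Finsupp.linearCombination_single]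
    have h0 : D.lam (D.proj.f 1 x) = D.a (x 1) - D.a (x 0) := rfl
    rw [h0]
    have h1 : ((tSS G S).face 0 0 x) 0 = x 1 := rfl
    have h2 : ((tSS G S).face 0 1 x) 0 = x 0 := rfl
    rw [h1, h2]
    push_cast
    simp only [smul_eq_mul]
    simp
    ring

theorem TDEx_core [Nonempty S] (D : TD G S B N) (m : ℕ) (y : D.dSS.X (m + 1) →₀ R)
    (hpi : D.pi.lin R (m + 1) y = 0) (hdd : D.dSS.dd R m y = 0)
    (hw : ∀ w : (Fin (m + 1) → S) →₀ R, ∀ x' : (Fin (m + 2) → S) →₀ R,
      D.proj.lin R (m + 1) x' = y → (tSS G S).dd R m x' = D.Tl R m w - w →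
      ∃ v, (tSS G S).dd R m v = w) :
    ∃ x : (D.kcx R).V (m + 1), D.dSS.dd R (m + 1) (D.kinc R (m + 1) x) = y := by
  haveI : Nonempty B := ⟨D.q (Classical.arbitrary S)⟩
  have hS := tAug_exact R (G := G) S
  have hB := tAug_exact R (G := G) B
  obtain ⟨x', hx'⟩ := D.proj_surjective R (m + 1) y
  have h1 : D.proj.lin R m ((tSS G S).dd R m x') = 0 := by
    rw [← SMap.dd_lin, hx', hdd]
  obtain ⟨w, hw'⟩ := D.exists_Tl R m _ h1
  obtain ⟨v, hv⟩ := hw w x' hx' hw'
  have h2 : (tSS G S).dd R m (x' - (D.Tl R (m + 1) v - v)) = 0 := by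
    rw [map_sub, map_sub, Tl_dd, hv, hw', sub_self]
  obtain ⟨u, hu⟩ := hS.succ m _ h2
  change (tSS G S).dd R (m + 1) u = _ at hu
  have h3 : D.dSS.dd R (m + 1) (D.proj.lin R (m + 2) u) = y := by
    rw [SMap.dd_lin, hu, map_sub, map_sub, TDEx_proj_Tl, sub_self, sub_zero, hx']
  have h4 : (tSS G B).dd R (m + 1) (D.pi.lin R (m + 2) (D.proj.lin R (m + 2) u)) = 0 := by
    rw [SMap.dd_lin, h3, hpi]
  obtain ⟨b, hb⟩ := hB.succ (m + 1) _ h4
  change (tSS G B).dd R (m + 2) b = _ at hb
  obtain ⟨b', rfl⟩ := D.TDEx_pi_surjective R (m + 3) b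
  have h5 : D.pi.lin R (m + 2) (D.proj.lin R (m + 2) u - D.dSS.dd R (m + 2) b') = 0 := by
    rw [map_sub, ← SMap.dd_lin, hb, sub_self]
  obtain ⟨x, hx⟩ := D.exists_kinc R (m + 1) _ h5
  refine ⟨x, ?_⟩
  rw [hx, map_sub, SS.dd_dd, sub_zero, h3]

/-- PROOF: see the paper proof (K1). Let `x : (D.kcx R).V m` with `d x = 0` (for `m ≥ 1`) or
`kap x = 0` (for `m = 0`). Lift `kinc x` to `x' : (Fin (m+2) → S) →₀ R` (`proj_surjective`).
`dd m x'` (degree `m`) maps to `dd (kinc x)` in `D`, which is `0` (for `m ≥ 1` by assumption; for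
`m = 0` because `pi` is bijective in degree `0`: `D.dSS.X 0 → (Fin 1 → B)` is injective by `q_eq`).
`exists_Tl`: `dd m x' = Tl w - w`. `Tl (dd w) = dd w` (for `m ≥ 1`) by `Tl_dd` and `dd_dd`, so
`dd w = 0` (`eq_zero_of_Tl`), and `w = dd v` by `tAug_exact`. For `m = 0`: apply the linear form
`single s r ↦ r * a s` on tuples of length one: on `Tl w - w` it takes the value `sumc w`, on
`dd 0 x'` it takes the value `kap (proj x') = kap (kinc x) = 0`; so `sumc w = 0` and `w = dd 0 v`
by `tAug_exact`. Then `x' - (Tl v - v)` is a cycle of positive degree, `= dd u`, and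
`kinc x = dd (proj u)`. `pi (proj u)` is a cycle of `C(B)` of degree `m + 2 ≥ 1`, `= dd b`; lift `b`
to `b'` in `D`; `proj u - dd b'` is in the kernel of `pi` and has the same boundary.
`surj`: `y = single [(s, T s)] 1 - single [(s, s)] 1` has `pi y = 0`, `kap y = 1`. -/
theorem kaug_exact [Nonempty S] (D : TD G S B N) : (D.kaug R).Exact := by
  refine ⟨?_, ?_, ?_⟩
  · let s : S := Classical.arbitrary S
    obtain ⟨e1, he1⟩ : ∃ e : D.dSS.X 1, e = Quotient.mk (D.std 1) ![s, D.T s] := ⟨_, rfl⟩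
    obtain ⟨e2, he2⟩ : ∃ e : D.dSS.X 1, e = Quotient.mk (D.std 1) ![s, s] := ⟨_, rfl⟩
    have h1 : D.q (D.T s) = D.q s := ((D.q_eq s (D.T s)).2 ⟨1, by simp⟩).symm
    have h2 : D.pi.f 1 e1 = D.pi.f 1 e2 := by
      rw [he1, he2]
      funext i
      change D.q (![s, D.T s] i) = D.q (![s, s] i)
      fin_cases i
      · rfl
      · exact h1
    have h3 : D.lam e1 = D.a (D.T s) - D.a s := by rw [he1]; rfl
    have h4 : D.lam e2 = D.a s - D.a s := by rw [he2]; rfl
    have hy : D.pi.lin R 1 (Finsupp.single e1 1 - Finsupp.single e2 1) = 0 := by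
      rw [map_sub, SMap.lin_single, SMap.lin_single, h2, sub_self]
    obtain ⟨x, hx⟩ := D.exists_kinc R 0 _ hy
    refine ⟨x, ?_⟩
    rw [kaug_ε, hx, map_sub]
    unfold kap
    rw [Finsupp.linearCombination_single, Finsupp.linearCombination_single, h3, h4, a_T]
    simp
  · intro x hx0
    have hx : D.kap R (D.kinc R 0 x) = 0 := hx0
    have h0 : D.dSS.dd R 0 (D.kinc R 0 x) = 0 := by
      have h1 : (tSS G B).dd R 0 (D.pi.lin R 1 (D.kinc R 0 x)) =
          D.pi.lin R 0 (D.dSS.dd R 0 (D.kinc R 0 x)) := SMap.dd_lin R D.pi 0 (D.kinc R 0 x)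
      rw [D.pi_kinc R, map_zero] at h1
      exact TDEx_pi_injective R D (by rw [← h1, map_zero])
    obtain ⟨y, hy⟩ := D.TDEx_core R 0 (D.kinc R 0 x) (D.pi_kinc R 0 x) h0 (by
      intro w x' hx' hw'
      have h1 : D.TDEx_form R ((tSS G S).dd R 0 x') = D.kap R (D.proj.lin R 1 x') :=
        D.TDEx_form_dd R x'
      rw [hx', hx, hw', map_sub, TDEx_form_Tl, add_sub_cancel_left] at h1
      exact (tAug_exact R (G := G) S).zero w h1)
    exact ⟨y, D.kinc_injective R 0 (by rw [kinc_d, hy])⟩
  · intro m x hx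
    have h0 : D.dSS.dd R (m + 1) (D.kinc R (m + 1) x) = 0 := by
      rw [← kinc_d, hx, map_zero]
    obtain ⟨y, hy⟩ := D.TDEx_core R (m + 1) (D.kinc R (m + 1) x) (D.pi_kinc R (m + 1) x) h0 (by
      intro w x' hx' hw'
      have h1 : (tSS G S).dd R m (D.Tl R (m + 1) w - w) = 0 := by
        rw [← hw', SS.dd_dd]
      rw [map_sub, Tl_dd, sub_eq_zero] at h1
      exact (tAug_exact R (G := G) S).succ m w (D.eq_zero_of_Tl R m _ h1))
    exact ⟨y, D.kinc_injective R (m + 1) (by rw [kinc_d, hy])⟩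

end TD

end Pool.Agent.W_3f1825_h40
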