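import Pool.Agent.W_3f1825_h40.Sec
import Pool.Agent.W_3f1825_h40.TDEx
import Pool.Agent.W_3f1825_top.FinN

set_option autoImplicit false

/-! Consequences of the Gysin sequence. -/

namespace Pool.Agent.W_3f1825_h40

namespace TD

variable {G S B : Type} [Group G] [MulAction G S] [MulAction G B] {N : Subgroup G}
variable {R : Type} [CommRing R]

variable {D : TD G S B N}

/-- `K` and `C(B)` are homotopy equivalent. -/
theorem exists_phi [Nonempty S] [Nonempty B] (D : TD G S B N) :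
    ∃ (f : CMap ((tSS G B).cx R) (D.kcx R)) (g : CMap (D.kcx R) ((tSS G B).cx R)),
      (∀ x, (D.kaug R).ε (f.f 0 x) = ((tSS G B).aug R).ε x) ∧
      (∀ x, ((tSS G B).aug R).ε (g.f 0 x) = (D.kaug R).ε x) ∧
      Nonempty (Htpy (g.comp f) (CMap.id _)) ∧ Nonempty (Htpy (f.comp g) (CMap.id _)) :=
  exists_equiv (D.bLifts R) (D.bTriv R) (D.kLifts R) (D.kTriv R) _ (tAug_exact R B) _
    (D.kaug_exact R)

/-- PROOF: `Pool.Agent.W_3f1825_top.fg_lift` with `Y = Z (m+2)`, `θ = σ.θ m`, `Q`, `B` from `(D.kcx R).Fg m` (use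
`θ_Z`), gives `Y₀`; for `y ∈ Z (m+2)`: `θ (y - y₀) ∈ B`, so `y - y₀ = pi w`, `w ∈ Z_D (m+2)`
(`exact₁`), `w ∈ Q_D ⊔ B_D`. Take `Y₀ ⊔ map pi Q_D`. -/
theorem fg_step [IsNoetherianRing R] (m : ℕ) (h1 : (D.dSS.cx R).Fg (m + 2))
    (h2 : (D.kcx R).Fg m) : ((tSS G B).cx R).Fg (m + 2) := by
  obtain ⟨σ⟩ := D.exists_sec R
  obtain ⟨QD, hQD, hD⟩ := h1
  obtain ⟨QK, hQK, hK⟩ := h2
  obtain ⟨Y₀, hY₀, hY₀Z, hY⟩ := Pool.Agent.W_3f1825_top.fg_lift (((tSS G B).cx R).Z (m + 2))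
    (σ.θ m) QK ((D.kcx R).B m) hQK (fun y hy => hK (σ.θ_Z m hy))
  refine ⟨Y₀ ⊔ QD.map (D.pi.lin R (m + 2)), hY₀.sup (hQD.map _), fun y hy => ?_⟩
  obtain ⟨y₀, hy₀, hθ⟩ := hY y hy
  obtain ⟨w, hw, hwy⟩ := σ.exact₁ m (Submodule.sub_mem _ hy (hY₀Z hy₀)) hθ
  obtain ⟨q, hq, b, hb, hqb⟩ := Submodule.mem_sup.1 (hD hw)
  have h3 : y = (y₀ + D.pi.lin R (m + 2) q) + D.pi.lin R (m + 2) b := by
    rw [add_assoc, ← map_add, hqb, hwy]
    abel
  rw [h3]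
  refine Submodule.add_mem _ (Submodule.mem_sup_left (Submodule.add_mem _
    (Submodule.mem_sup_left hy₀) (Submodule.mem_sup_right ⟨q, hq, rfl⟩))) ?_
  exact Submodule.mem_sup_right ((D.pi.cm R).map_B hb)

theorem fg_one (h : (D.dSS.cx R).Fg 1) : ((tSS G B).cx R).Fg 1 := by
  obtain ⟨QD, hQD, hD⟩ := h
  refine ⟨QD.map (D.pi.lin R 1), hQD.map _, fun y hy => ?_⟩
  obtain ⟨w, hw, hwy⟩ := Sec.exact_one (D := D) hy
  obtain ⟨q, hq, b, hb, hqb⟩ := Submodule.mem_sup.1 (hD hw)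
  rw [← hwy, ← hqb, map_add]
  exact Submodule.add_mem _ (Submodule.mem_sup_left ⟨q, hq, rfl⟩)
    (Submodule.mem_sup_right ((D.pi.cm R).map_B hb))

theorem fg_zero (h : (D.dSS.cx R).Fg 0) : ((tSS G B).cx R).Fg 0 := by
  obtain ⟨σ⟩ := D.exists_sec R
  obtain ⟨QD, hQD, hD⟩ := h
  refine ⟨QD.map (D.pi.lin R 0), hQD.map _, fun y _ => ?_⟩
  obtain ⟨q, hq, b, hb, hqb⟩ := Submodule.mem_sup.1 (hD (Cx.mem_Z_zero (σ.s 0 y)))
  rw [← σ.pi_s 0 y, ← hqb, map_add]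
  exact Submodule.add_mem _ (Submodule.mem_sup_left ⟨q, hq, rfl⟩)
    (Submodule.mem_sup_right ((D.pi.cm R).map_B hb))

/-- PROOF: strong induction with `fg_step`, `fg_one`, `fg_zero`; `(D.kcx R).Fg m` follows from
`((tSS G B).cx R).Fg m` by `exists_phi` and `Fg.of_retract`. -/
theorem fg_all [IsNoetherianRing R] [Nonempty S] [Nonempty B] (h : ∀ m, (D.dSS.cx R).Fg m) (m : ℕ) :
    ((tSS G B).cx R).Fg m := by
  obtain ⟨f, g, -, -, ⟨H1⟩, ⟨H2⟩⟩ := exists_phi (R := R) D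
  induction m using Nat.strong_induction_on with
  | _ m ih =>
    rcases m with _ | _ | m
    · exact fg_zero (h 0)
    · exact fg_one (h 1)
    · exact fg_step m (h _) (Fg.of_retract g f H2 (ih m (by omega)))

theorem Gysin_pi_inj : Function.Injective (D.pi.lin R 0) := by
  refine Finsupp.mapDomain_injective ?_
  intro x y
  induction x using Quotient.inductionOn with
  | _ x =>
    induction y using Quotient.inductionOn with
    | _ y =>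
      intro hxy
      have h1 : D.q (x 0) = D.q (y 0) := congrFun hxy 0
      obtain ⟨k, hk⟩ := (D.q_eq _ _).1 h1
      refine Quotient.sound ⟨k, fun i => ?_⟩
      rw [Fin.eq_zero i]
      exact hk

theorem Gysin_kinc_Z (m : ℕ) {k : (D.kcx R).V m} (hk : k ∈ (D.kcx R).Z m) :
    D.kinc R m k ∈ (D.dSS.cx R).Z (m + 1) := by
  rw [Cx.mem_Z_succ]
  cases m with
  | zero =>
    have h1 : D.dSS.dd R 0 (D.kinc R 0 k) = 0 := by
      apply Gysin_pi_inj (R := R) (D := D)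
      have h2 := SMap.dd_lin R D.pi 0 (D.kinc R 0 k)
      have h3 := D.pi_kinc R 0 k
      rw [h3, map_zero] at h2
      rw [map_zero, ← h2]
    rw [show (D.dSS.cx R).d 0 (D.kinc R 0 k) = 0 from h1]
    exact Submodule.zero_mem _
  | succ m =>
    have h1 : (D.dSS.cx R).d (m + 1) (D.kinc R (m + 1) k) = D.kinc R m ((D.kcx R).d m k) := rfl
    rw [h1]
    exact map_Co (D.kinc R m) (fun g v => D.kinc_ρ R m g v) (Cx.mem_Z_succ.1 hk)

/-- PROOF: let `y ∈ Z m`, `f`, `g` from `exists_phi`. `f y ∈ Z`; `kinc (f y)` is a cycle of `D`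
in degree `m + 1`, so in `B` (`Van`), `exact₂` gives `x ∈ Z (m+2)` with `θ x - f y ∈ B`.
`r • x ∈ B`, so `r • θ x ∈ B` (`θ_B`), `r • f y ∈ B`, `r • g (f y) ∈ B`, and
`g (f y) - y ∈ B` (`Htpy.sub_mem`). -/
theorem tor_down [Nonempty S] [Nonempty B] (m : ℕ) (h1 : (D.dSS.cx ℤ).Van (m + 1))
    (h2 : ((tSS G B).cx ℤ).Tor (m + 2)) : ((tSS G B).cx ℤ).Tor m := by
  obtain ⟨f, g, -, -, ⟨H1⟩, ⟨H2⟩⟩ := exists_phi (R := ℤ) D
  obtain ⟨σ⟩ := D.exists_sec ℤ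
  intro y hy
  have hfy := f.map_Z hy
  obtain ⟨x, hx, hxk⟩ := σ.exact₂ m hfy (h1 (Gysin_kinc_Z m hfy))
  obtain ⟨r, hr, hrx⟩ := h2 x hx
  refine ⟨r, hr, ?_⟩
  have h3 : (r : ℤ) • f.f m y ∈ (D.kcx ℤ).B m := by
    have h4 := σ.θ_B m hrx
    rw [map_smul] at h4
    have h5 : (r : ℤ) • f.f m y = (r : ℤ) • σ.θ m x - (r : ℤ) • (σ.θ m x - f.f m y) := by
      rw [smul_sub]
      abel
    rw [h5]
    exact Submodule.sub_mem _ h4 (Submodule.smul_mem _ _ hxk)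
  have h4 := g.map_B h3
  rw [map_smul] at h4
  have h5 := H1.sub_mem hy
  have h6 : (r : ℤ) • y = (r : ℤ) • g.f m (f.f m y) -
      (r : ℤ) • ((g.comp f).f m y - (CMap.id _).f m y) := by
    rw [CMap.comp_f, CMap.id_f, smul_sub]
    abel
  rw [h6]
  exact Submodule.sub_mem _ h4 (Submodule.smul_mem _ _ h5)

end TD

end Pool.Agent.W_3f1825_h40
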