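import Pool.Agent.W_3f1825_h40.Core
import Pool.Agent.W_3f1825_h40.Deck
import Pool.Agent.W_3f1825_h40.Defs
import Pool.Agent.W_3f1825_h40.Grp
import Pool.Agent.W_3f1825_h40.Bridge
import Pool.Agent.W_3f1825_top.Main0

set_option autoImplicit false

/-! Assembly. -/

open Topology

namespace Pool.Agent.W_3f1825_h40

open Pool.Agent.W_MP_6d5819_gt Pool.Agent.W_3f1825_top

theorem nrm_inc {X : Type} [TopologicalSpace X] (m : ℕ) (c : C(Simp (m + 1), X) →₀ ℝ) :
    nrm (inc ℝ X m c) = l1 c := by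
  classical
  have hinj : Function.Injective (fun σ : C(Simp (m + 1), X) => (⟨m, σ⟩ : Sing X)) := by
    intro σ τ h
    simpa using h
  change ∑ t ∈ (Finsupp.mapDomain (fun σ : C(Simp (m + 1), X) => (⟨m, σ⟩ : Sing X)) c).support,
    |(Finsupp.mapDomain (fun σ : C(Simp (m + 1), X) => (⟨m, σ⟩ : Sing X)) c) t| = _
  rw [Finsupp.mapDomain_support_of_injective hinj, Finset.sum_image (fun a _ b _ h => hinj h)]
  refine Finset.sum_congr rfl fun σ _ => ?_
  rw [Finsupp.mapDomain_apply hinj]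

theorem mem_cyc_inc {X : Type} [TopologicalSpace X] {m : ℕ} {c : SChain ℝ X m} :
    inc ℝ X m c ∈ cyc ℝ m (Set.univ : Set X) ↔ IsCycle ℝ c := by
  constructor
  · intro h
    cases m with
    | zero => trivial
    | succ m =>
      have h2 := (Submodule.mem_inf.1 h).2
      rw [LinearMap.mem_ker, bd_inc] at h2
      exact inc_injective ℝ X m (by rw [h2, map_zero])
  · intro h
    refine Submodule.mem_inf.2 ⟨(mem_chIn_univ_iff ℝ m _).2 ⟨c, rfl⟩, ?_⟩
    rw [LinearMap.mem_ker]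
    cases m with
    | zero => exact bd_chIn_zero ℝ ((mem_chIn_univ_iff ℝ 0 _).2 ⟨c, rfl⟩)
    | succ m =>
      rw [bd_inc]
      have h2 : bdry ℝ X m c = 0 := h
      rw [h2, map_zero]

theorem main_cycles {n : ℕ} (hn : 1 ≤ n) (M : Type) [TopologicalSpace M] [T2Space M]
    [CompactSpace M] [ConnectedSpace M] [ChartedSpace (EuclideanSpace ℝ (Fin n)) M]
    (hM : IsAspherical M) (x₀ : M) (h : VirtNonPower (FundamentalGroup M x₀))
    (c : SChain ℝ M n) (hc : IsCycle ℝ c) (ε : ℝ) (hε : 0 < ε) :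
    ∃ c' : SChain ℝ M n, IsCycle ℝ c' ∧ Homologous ℝ c c' ∧ l1 c' < ε := by
  obtain ⟨E, tE, p, hE, hp⟩ := hM
  have hM' : LocEuc n M := LocEuc_of_charted
  have hLE : LocEuc n E := LocEuc_source hp.isLocalHomeomorph hM'
  have : T2Space E := t2_of_cover hp
  have : LocallyCompactSpace E := locallyCompact_of_locEuc hLE
  have : LocallyPathConnectedSpace E := locallyPathConnected_of_locEuc hLE
  have hq : IsQuotientCoveringMap p (deck p) := deck_quot hp
  have : ContinuousConstSMul (deck p) E := hq.toContinuousConstSMul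
  have : ProperlyDiscontinuousSMul (deck p) E := pd_of_quot hq
  have hcomp := compact_of_quot hq
  obtain ⟨e⟩ := deck_equiv hq x₀
  obtain ⟨H, hH, z, hzH, hzc, q, hq', hnp⟩ := virtNonPower_congr e h
  have : ContinuousConstSMul H E := ⟨fun g => continuous_const_smul (g : deck p)⟩
  have : ProperlyDiscontinuousSMul H E := by
    constructor
    intro K L hK hL
    have h1 : Set.Finite {γ : deck p | ((fun x : E => γ • x) '' K ∩ L).Nonempty} :=
      ProperlyDiscontinuousSMul.finite_disjoint_inter_image hK hL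
    have h2 : Set.Finite ((fun γ : H => (γ : deck p)) ⁻¹'
        {γ : deck p | ((fun x : E => γ • x) '' K ∩ L).Nonempty}) :=
      h1.preimage (Subtype.val_injective.injOn)
    exact h2
  have hfree : ∀ (g : H) (x : E), g • x = x → g = 1 := by
    intro g x hx
    have := hq.isCancelSMul
    have h1 : (g : deck p) • x = (1 : deck p) • x := by rw [one_smul]; exact hx
    exact Subtype.ext (IsCancelSMul.right_cancel _ _ _ h1)
  have hcore := core (G := H) (E := E) hn hLE hfree (compact_subgroup hcomp H hH) ⟨z, hzH⟩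
    (fun g => Subtype.ext (hzc g g.2)) hq' (fun w hw => hnp w w.2 (congrArg Subtype.val hw))
  obtain ⟨c', hc'1, hc'2, hc'3⟩ := main0 (f := ⟨p, hp.continuous⟩) hq H (z := ⟨z, hzH⟩)
    (fun g => (Subtype.ext (hzc g g.2) : g * ⟨z, hzH⟩ = ⟨z, hzH⟩ * g).symm) (n := n)
    (hB_of_van ℝ n hcore) (inc ℝ M n c) (mem_cyc_inc.2 hc) ε hε
  obtain ⟨c'', rfl⟩ := (mem_chIn_univ_iff ℝ n _).1 (Submodule.mem_inf.1 hc'1).1
  refine ⟨c'', mem_cyc_inc.1 hc'1, ?_, by rwa [nrm_inc] at hc'3⟩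
  obtain ⟨b, hb, hb'⟩ := hc'2
  obtain ⟨b', rfl⟩ := (mem_chIn_univ_iff ℝ (n + 1) _).1 hb
  refine ⟨b', inc_injective ℝ M n ?_⟩
  rw [map_sub, ← hb', bd_inc]

theorem simplicialVolume_eq_zero {n : ℕ} (M : Type) [TopologicalSpace M]
    (h : ∀ c : SChain ℝ M n, IsCycle ℝ c → ∀ ε : ℝ, 0 < ε →
      ∃ c' : SChain ℝ M n, IsCycle ℝ c' ∧ Homologous ℝ c c' ∧ l1 c' < ε) :
    simplicialVolume n M = 0 := by
  rw [simplicialVolume]
  set S : Set ℝ := {r | ∃ (c₀ : SChain ℤ M n) (c : SChain ℝ M n), IsFundamental c₀ ∧ IsCycle ℝ c ∧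
    Homologous ℝ c (i2r _ c₀) ∧ r = l1 c} with hS
  rcases S.eq_empty_or_nonempty with h0 | ⟨r, c₀, c, h1, h2, ⟨b, hb⟩, rfl⟩
  · rw [h0, Real.sInf_empty]
  · have hbd : ∀ x ∈ S, 0 ≤ x := by
      rintro _ ⟨_, _, _, _, _, rfl⟩
      exact l1_nonneg _
    refine le_antisymm ?_ (Real.sInf_nonneg hbd)
    refine le_of_forall_pos_le_add fun ε hε => ?_
    obtain ⟨c', hc', ⟨b', hb'⟩, hl⟩ := h c h2 ε hε
    have hmem : l1 c' ∈ S := by
      refine ⟨c₀, c', h1, hc', ⟨b - b', ?_⟩, rfl⟩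
      rw [map_sub, ← hb, ← hb']
      abel
    have := csInf_le ⟨0, hbd⟩ hmem
    linarith

theorem main {n : ℕ} (hn : 1 ≤ n) (M : Type) [TopologicalSpace M] [T2Space M]
    [CompactSpace M] [ConnectedSpace M] [ChartedSpace (EuclideanSpace ℝ (Fin n)) M]
    (hM : IsAspherical M) (x₀ : M)
    (h : VirtNonPower (FundamentalGroup M x₀) ∨
      NormalCyclicNonPower (FundamentalGroup M x₀) ∨
      (ResFin (FundamentalGroup M x₀) ∧ VirtCentre (FundamentalGroup M x₀)) ∨
      (ResFin (FundamentalGroup M x₀) ∧ NormalCyclic (FundamentalGroup M x₀))) :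
    (∀ c : SChain ℝ M n, IsCycle ℝ c → ∀ ε : ℝ, 0 < ε →
      ∃ c' : SChain ℝ M n, IsCycle ℝ c' ∧ Homologous ℝ c c' ∧ l1 c' < ε) ∧
    simplicialVolume n M = 0 := by
  have h1 : VirtNonPower (FundamentalGroup M x₀) := by
    rcases h with h | h | h | h
    · exact h
    · exact virtNonPower_of_normalCyclic h
    · exact virtNonPower_of_resFin h.1 h.2
    · exact virtNonPower_of_resFin h.1 (virtCentre_of_normalCyclic h.2)
  have h2 := main_cycles hn M hM x₀ h1
  exact ⟨h2, simplicialVolume_eq_zero M h2⟩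

end Pool.Agent.W_3f1825_h40
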