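import Pool.Agent.W_3f1825_h40.MultA
import Pool.Agent.W_3f1825_h40.Gysin

set_option autoImplicit false

/-! Divisibility of the homology of `C(B)` by `p`. -/

namespace Pool.Agent.W_3f1825_h40

namespace TD

variable {G S S' B : Type} [Group G] [MulAction G S] [MulAction G S'] [MulAction G B]
  {N : Subgroup G}

/-- The inclusion of the kernel maps cycles to cycles. -/
theorem Mult_aux_kinc {G S B : Type} [Group G] [MulAction G S] [MulAction G B] {N : Subgroup G}
    (D : TD G S B N) (R : Type) [CommRing R] (m : ℕ) {k : (D.kcx R).V m}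
    (hk : k ∈ (D.kcx R).Z m) : D.kinc R m k ∈ (D.dSS.cx R).Z (m + 1) := by
  rw [Cx.mem_Z_succ]
  cases m with
  | zero =>
    have h4 : (D.dSS.cx R).d 0 (D.kinc R 0 k) = 0 := by
      have hinj : Function.Injective (D.pi.f 0) := by
        intro a b
        induction a using Quotient.inductionOn with
        | _ a =>
          induction b using Quotient.inductionOn with
          | _ b =>
            intro h
            have h0 : D.q (a 0) = D.q (b 0) := congrFun h 0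
            obtain ⟨k, hk⟩ := (D.q_eq _ _).1 h0
            refine D.std_iff.2 ⟨k, fun i => ?_⟩
            have hi : i = 0 := Fin.ext (by have := i.2; omega)
            rw [hi]
            exact hk
      have hinj' : Function.Injective (D.pi.lin R 0) := Finsupp.mapDomain_injective hinj
      apply hinj'
      change D.pi.lin R 0 (D.dSS.dd R 0 _) = _
      rw [← SMap.dd_lin, pi_kinc, map_zero, map_zero]
    rw [h4]
    exact Submodule.zero_mem _
  | succ m =>
    change D.dSS.dd R (m + 1) (D.kinc R (m + 1) k) ∈ _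
    rw [← kinc_d]
    exact map_Co (D.kinc R m) (fun g v => D.kinc_ρ R m g v) (Cx.mem_Z_succ.1 hk)

namespace Mor

variable {D : TD G S B N} {D' : TD G S' B N} {p : ℕ} {R : Type} [CommRing R]

/-- Divisibility by `p`. PROOF (paper proof, Step 4 (c)): `φ, ψ` for `D` and `φ', ψ'` for `D'` from
`exists_phi`. `kmap ∘ φ` and `p • φ'` (`CMap.smul`) are homotopic by `exists_htpy`
(`bLifts`, `kTriv`, `kaug_exact`, `kap_kmap`). For `y ∈ Z m`: `φ' y ∈ Z`, its image in `D'` is in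
`B` (`Van (m+1)`), so `exact₂` for `σ'` gives `x` with `θ' x - φ' y ∈ B`. By `θ_kmap`
`kmap (θ x) - φ' y ∈ B`. `θ x - φ (ψ (θ x)) ∈ B`, `q := ψ (θ x) ∈ Z m`; so
`kmap (φ q) - φ' y ∈ B`, `p • φ' q - φ' y ∈ B`; apply `ψ'`: `p • q - y ∈ B`. -/
theorem divis [Nonempty S] [Nonempty S'] [Nonempty B] (F : Mor D D' p) (m : ℕ)
    (h : (D'.dSS.cx R).Van (m + 1)) (y : ((tSS G B).cx R).V m)
    (hy : y ∈ ((tSS G B).cx R).Z m) :
    ∃ q ∈ ((tSS G B).cx R).Z m, y - (p : R) • q ∈ ((tSS G B).cx R).B m := by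
  obtain ⟨σ⟩ := D.exists_sec R
  obtain ⟨σ'⟩ := D'.exists_sec R
  obtain ⟨φ, ψ, hφ, -, -, ⟨H2⟩⟩ := exists_phi (R := R) D
  obtain ⟨φ', ψ', hφ', -, ⟨H1'⟩, -⟩ := exists_phi (R := R) D'
  obtain ⟨K⟩ := exists_htpy (D.bLifts R) (D'.kTriv R) (D'.kaug R) (D'.kaug_exact R)
    ((F.kmap R).comp φ) (φ'.smul (p : R)) (fun x => by
      rw [CMap.comp_f, kap_kmap, CMap.smul_f, map_smul, hφ, hφ', smul_eq_mul])
  have hfy := φ'.map_Z hy
  have h3 := Mult_aux_kinc D' R m hfy
  obtain ⟨x, hx, hx'⟩ := σ'.exact₂ m hfy (h h3)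
  have h4 := F.θ_kmap σ σ' m hx
  have hθ : σ.θ m x ∈ (D.kcx R).Z m := σ.θ_Z m hx
  have hq : ψ.f m (σ.θ m x) ∈ ((tSS G B).cx R).Z m := ψ.map_Z hθ
  refine ⟨ψ.f m (σ.θ m x), hq, ?_⟩
  have h5 := (F.kmap R).map_B (H2.sub_mem hθ)
  rw [map_sub, CMap.comp_f, CMap.id_f] at h5
  have h6 := K.sub_mem hq
  rw [CMap.comp_f, CMap.smul_f] at h6
  have h7 : φ'.f m (y - (p : R) • ψ.f m (σ.θ m x)) ∈ (D'.kcx R).B m := by
    have h8 := Submodule.sub_mem _ (Submodule.sub_mem _ h6 h5) (Submodule.sub_mem _ hx' h4)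
    rw [map_sub, map_smul]
    convert h8 using 1
    abel
  have h9 := ψ'.map_B h7
  have hyq : y - (p : R) • ψ.f m (σ.θ m x) ∈ ((tSS G B).cx R).Z m :=
    Submodule.sub_mem _ hy (Submodule.smul_mem _ _ hq)
  have h10 := H1'.sub_mem hyq
  rw [CMap.comp_f, CMap.id_f] at h10
  have h11 := Submodule.sub_mem _ h9 h10
  rwa [sub_sub_cancel] at h11

end Mor

end TD

end Pool.Agent.W_3f1825_h40
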