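import Pool.Agent.W_3f1825_h40.TD

set_option autoImplicit false

/-! The shifted kernel complex `K` is a resolution. -/

namespace Pool.Agent.W_3f1825_h40

namespace TD

variable {G S B : Type} [Group G] [MulAction G S] [MulAction G B] {N : Subgroup G}

theorem zpow_inj (D : TD G S B N) (s : S) (k l : ℤ) (h : (D.T ^ k) s = (D.T ^ l) s) : k = l := by
  have h1 : (D.T ^ (k - l)) s = s := by
    rw [sub_eq_neg_add, zpow_add, Equiv.Perm.mul_apply, h, ← Equiv.Perm.mul_apply, ← zpow_add]
    simp
  have h2 := D.free s _ h1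
  omega

/-- PROOF: choose a section `σ : B → S` of `q`; for `s : S` there is `k` with
`s = (T ^ k) (σ (q s))` (`q_eq`), unique by `free`; put `a s = k`. -/
theorem exists_a (D : TD G S B N) : ∃ a : S → ℤ, ∀ s, a (D.T s) = a s + 1 := by
  have h1 : ∀ s : S, ∃ k : ℤ, s = (D.T ^ k) (Function.surjInv D.q_surj (D.q s)) := fun s =>
    (D.q_eq _ s).1 (Function.surjInv_eq D.q_surj (D.q s))
  choose k hk using h1
  refine ⟨k, fun s => ?_⟩
  have h2 : D.q s = D.q (D.T s) := (D.q_eq _ _).2 ⟨1, by simp⟩
  have h3 := hk (D.T s)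
  rw [← h2] at h3
  have h4 : D.T s = (D.T ^ (k s + 1)) (Function.surjInv D.q_surj (D.q s)) := by
    rw [add_comm, zpow_add, Equiv.Perm.mul_apply, ← hk s]
    simp
  rw [h4] at h3
  rw [← h4] at h3
  exact (D.zpow_inj _ _ _ (h4.symm.trans h3)).symm

/-- A function with `a (T s) = a s + 1`. -/
noncomputable def a (D : TD G S B N) : S → ℤ := D.exists_a.choose

theorem a_T (D : TD G S B N) (s : S) : D.a (D.T s) = D.a s + 1 := D.exists_a.choose_spec s

theorem a_zpow (D : TD G S B N) (s : S) (k : ℤ) : D.a ((D.T ^ k) s) = D.a s + k := by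
  induction k using Int.induction_on with
  | zero => simp
  | succ n ih =>
    rw [add_comm (n : ℤ) 1, zpow_add, Equiv.Perm.mul_apply, zpow_one, a_T, ih]
    ring
  | pred n ih =>
    have h1 := D.a_T ((D.T ^ (-(n : ℤ) - 1)) s)
    have h2 : D.T ((D.T ^ (-(n : ℤ) - 1)) s) = (D.T ^ (-(n : ℤ))) s := by
      rw [← Equiv.Perm.mul_apply]
      congr 1
      rw [sub_eq_neg_add, zpow_add, ← mul_assoc]
      simp
    rw [h2, ih] at h1
    linarith

/-- The function `a (x 1) - a (x 0)` on `T`-orbits of pairs. -/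
noncomputable def lam (D : TD G S B N) : D.dSS.X 1 → ℤ :=
  Quotient.lift (fun x : Fin 2 → S => D.a (x 1) - D.a (x 0)) (by
    rintro x y ⟨k, hk⟩
    simp only [hk, a_zpow]
    ring)

variable (R : Type) [CommRing R]

/-- The linear form with values `lam`. -/
noncomputable def kap (D : TD G S B N) : (D.dSS.X 1 →₀ R) →ₗ[R] R :=
  Finsupp.linearCombination R (fun x => ((D.lam x : ℤ) : R))

/-- PROOF: cocycle identity, on basis elements: `(a x₂ - a x₁) - (a x₂ - a x₀) + (a x₁ - a x₀)`. -/
theorem kap_dd (D : TD G S B N) (x : D.dSS.X 2 →₀ R) : D.kap R (D.dSS.dd R 1 x) = 0 := by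
  induction x using Finsupp.induction_linear with
  | zero => simp
  | add a b ha hb => simp only [map_add, ha, hb, add_zero]
  | single x r =>
    induction x using Quotient.inductionOn with
    | _ x =>
      rw [SS.dd_single, map_sum, Fin.sum_univ_three]
      have h1 : ∀ (y : D.dSS.X 1) (r : R), D.kap R (Finsupp.single y r) = r * ((D.lam y : ℤ) : R) := by
        intro y r
        rw [kap, Finsupp.linearCombination_single, smul_eq_mul]
      rw [h1, h1, h1]
      have e0 : D.lam (D.dSS.face 1 0 (Quotient.mk (D.std 2) x)) = D.a (x 2) - D.a (x 1) := rfl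
      have e1 : D.lam (D.dSS.face 1 1 (Quotient.mk (D.std 2) x)) = D.a (x 2) - D.a (x 0) := rfl
      have e2 : D.lam (D.dSS.face 1 2 (Quotient.mk (D.std 2) x)) = D.a (x 1) - D.a (x 0) := rfl
      rw [e0, e1, e2]
      push_cast
      simp
      ring

/-- PROOF: for fixed `g` the number `lam (g • y) - lam y` depends only on the image of `y` in
`Fin 2 → B` (because `a (g • (T ^ k) s) = a (g • s) + k`), say it is `u (pi y)`. So
`kap (g x) - kap x = ∑ x y * u (pi y)` is the value of the linear form `u` on `pi x = 0`. -/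
theorem kap_perm (D : TD G S B N) (g : G) (x : D.dSS.X 1 →₀ R) (hx : D.pi.lin R 1 x = 0) :
    D.kap R (perm R G _ g x) = D.kap R x := by
  classical
  have hlam : ∀ y : Fin 2 → S, D.lam (D.proj.f 1 y) = D.a (y 1) - D.a (y 0) :=
    fun _ => rfl
  have hg : ∀ y : Fin 2 → S, D.lam (g • (D.proj.f 1 y))
      = D.a (g • y 1) - D.a (g • y 0) := fun _ => rfl
  have hfac : Function.FactorsThrough (fun y : D.dSS.X 1 => D.lam (g • y) - D.lam y)
      (D.pi.f 1) := by
    intro y y' hyy
    induction y using Quotient.inductionOn with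
    | _ y =>
    induction y' using Quotient.inductionOn with
    | _ y' =>
    change D.lam (g • D.proj.f 1 y) - D.lam (D.proj.f 1 y)
      = D.lam (g • D.proj.f 1 y') - D.lam (D.proj.f 1 y')
    have hq : ∀ i, D.q (y i) = D.q (y' i) := fun i => congrFun hyy i
    obtain ⟨k0, hk0⟩ := (D.q_eq _ _).1 (hq 0)
    obtain ⟨k1, hk1⟩ := (D.q_eq _ _).1 (hq 1)
    rw [hg, hg, hlam, hlam, hk0, hk1, ← D.Tk_smul, ← D.Tk_smul, a_zpow, a_zpow, a_zpow, a_zpow]
    ring
  have key : ∀ x : D.dSS.X 1 →₀ R, D.kap R (perm R G _ g x) - D.kap R x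
      = Finsupp.linearCombination R (fun b : (tSS G B).X 1 =>
          ((Function.extend (D.pi.f 1) (fun y : D.dSS.X 1 => D.lam (g • y) - D.lam y)
            (fun _ => 0) b : ℤ) : R)) (D.pi.lin R 1 x) := by
    intro x
    induction x using Finsupp.induction_linear with
    | zero => simp
    | add a b ha hb =>
      rw [map_add, map_add, map_add, map_add, map_add, ← ha, ← hb]
      ring
    | single y r =>
      rw [perm_single, SMap.lin_single, Finsupp.linearCombination_single,
        hfac.extend_apply]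
      rw [kap, Finsupp.linearCombination_single, Finsupp.linearCombination_single]
      simp only [smul_eq_mul]
      push_cast
      ring
  have h1 := key x
  rw [hx, map_zero] at h1
  exact sub_eq_zero.1 h1

/-- The augmentation of `K`. -/
noncomputable def kaug (D : TD G S B N) : Aug (D.kcx R) where
  ε := (D.kap R).comp (D.kinc R 0)
  ε_d x := D.kap_dd R _
  ε_ρ g x := D.kap_perm R g _ x.2

theorem kaug_ε (D : TD G S B N) (x : (D.kcx R).V 0) : (D.kaug R).ε x = D.kap R (D.kinc R 0 x) := rfl

end TD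

end Pool.Agent.W_3f1825_h40
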