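import Pool.Agent.W_3f1825_h40.Sec
import Pool.Agent.W_3f1825_h40.TDRes

set_option autoImplicit false

/-! Two sets of data over the same `B`; multiplication by `p`. -/

namespace Pool.Agent.W_3f1825_h40

namespace TD

variable {G S S' B : Type} [Group G] [MulAction G S] [MulAction G S'] [MulAction G B]
  {N : Subgroup G}

/-- A map of data multiplying the generator by `p`. -/
structure Mor (D : TD G S B N) (D' : TD G S' B N) (p : ℕ) where
  /-- the map -/
  f : S → S'
  f_smul : ∀ (g : G) s, f (g • s) = g • f s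
  f_q : ∀ s, D'.q (f s) = D.q s
  f_T : ∀ s, f (D.T s) = (D'.T ^ p) (f s)

namespace Mor

variable {D : TD G S B N} {D' : TD G S' B N} {p : ℕ}

theorem f_zpow (F : Mor D D' p) (k : ℤ) (s : S) : F.f ((D.T ^ k) s) = (D'.T ^ ((p : ℤ) * k)) (F.f s) := by
  have h1 : ∀ (n : ℕ) (s : S), F.f ((D.T ^ n) s) = (D'.T ^ ((p : ℤ) * n)) (F.f s) := by
    intro n
    induction n with
    | zero => intro s; simp
    | succ n ih =>
      intro s
      rw [pow_succ, Equiv.Perm.mul_apply, ih, F.f_T, ← zpow_natCast, ← Equiv.Perm.mul_apply,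
        ← zpow_add]
      congr 2
  cases k with
  | ofNat n => simpa using h1 n s
  | negSucc n =>
    have h2 := h1 (n + 1) ((D.T ^ (Int.negSucc n)) s)
    rw [← zpow_natCast, ← Equiv.Perm.mul_apply, ← zpow_add] at h2
    have h3 : (((n + 1 : ℕ) : ℤ) + Int.negSucc n) = 0 := by
      rw [Int.negSucc_eq]
      push_cast
      ring
    rw [h3, zpow_zero, Equiv.Perm.one_apply] at h2
    rw [h2, ← Equiv.Perm.mul_apply, ← zpow_add]
    have h4 : (p : ℤ) * Int.negSucc n + (p : ℤ) * ((n + 1 : ℕ) : ℤ) = 0 := by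
      rw [Int.negSucc_eq]
      push_cast
      ring
    rw [h4, zpow_zero, Equiv.Perm.one_apply]

/-- The induced map of semi-simplicial sets. -/
def dmap (F : Mor D D' p) : SMap D.dSS D'.dSS where
  f m := Quotient.map (fun x i => F.f (x i)) (by
    rintro x y ⟨k, hk⟩
    refine ⟨(p : ℤ) * k, fun i => ?_⟩
    change F.f (y i) = _
    rw [hk, F.f_zpow])
  f_face m i x := by
    induction x using Quotient.inductionOn with
    | _ x => rfl
  f_smul m g x := by
    induction x using Quotient.inductionOn with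
    | _ x => exact congrArg (Quotient.mk (D'.std m)) (funext fun i => F.f_smul g (x i))

theorem pi_dmap (F : Mor D D' p) (m : ℕ) (x : D.dSS.X m) :
    D'.pi.f m (F.dmap.f m x) = D.pi.f m x := by
  induction x using Quotient.inductionOn with
  | _ x => exact funext fun i => F.f_q (x i)

variable (R : Type) [CommRing R]

/-- PROOF: induction on the finitely supported function and `pi_dmap`. -/
theorem pi_lin_dmap (F : Mor D D' p) (m : ℕ) (x : D.dSS.X m →₀ R) :
    D'.pi.lin R m (F.dmap.lin R m x) = D.pi.lin R m x := by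
  induction x using Finsupp.induction_linear with
  | zero => simp
  | add a b ha hb => simp only [map_add, ha, hb]
  | single x r =>
    rw [SMap.lin_single, SMap.lin_single, SMap.lin_single, F.pi_dmap]

/-- The induced map of the kernel complexes. -/
noncomputable def kmap (F : Mor D D' p) : CMap (D.kcx R) (D'.kcx R) where
  f m := (F.dmap.lin R (m + 1)).restrict (fun x hx => by
    rw [LinearMap.mem_ker] at hx ⊢
    rw [pi_lin_dmap, hx])
  comm m x := Subtype.ext (SMap.dd_lin R F.dmap (m + 1) _)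
  equiv m g x := Subtype.ext (SMap.lin_perm R F.dmap (m + 1) g _)

theorem kinc_kmap (F : Mor D D' p) (m : ℕ) (x : (D.kcx R).V m) :
    D'.kinc R m ((F.kmap R).f m x) = F.dmap.lin R (m + 1) (D.kinc R m x) := rfl

/-- PROOF: `D'.a (f s) - p * D.a s` depends only on `q s` (`a_zpow`, `f_zpow`, `q_eq`), so
`lam' (dmap y) - p * lam y = u (pi y)` for a function `u` on pairs of elements of `B`, and
`∑ x y * u (pi y) = 0` because `pi x = 0`. -/
theorem kap_kmap (F : Mor D D' p) (x : (D.kcx R).V 0) :
    (D'.kaug R).ε ((F.kmap R).f 0 x) = (p : R) * (D.kaug R).ε x := by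
  rw [kaug_ε, kaug_ε, kinc_kmap]
  -- the difference of the two cocycles comes from `B`
  have hc : ∀ s s' : S, D.q s = D.q s' →
      D'.a (F.f s) - p * D.a s = D'.a (F.f s') - p * D.a s' := by
    intro s s' h
    obtain ⟨k, rfl⟩ := (D.q_eq _ _).1 h
    rw [F.f_zpow, a_zpow, a_zpow]
    ring
  have hc' : ∀ y y' : D.dSS.X 1, D.pi.f 1 y = D.pi.f 1 y' →
      D'.lam (F.dmap.f 1 y) - p * D.lam y = D'.lam (F.dmap.f 1 y') - p * D.lam y' := by
    intro y y'
    induction y using Quotient.inductionOn with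
    | _ y =>
      induction y' using Quotient.inductionOn with
      | _ y' =>
        intro h
        have h0 := hc (y 0) (y' 0) (congrFun h 0)
        have h1 := hc (y 1) (y' 1) (congrFun h 1)
        change (D'.a (F.f (y 1)) - D'.a (F.f (y 0))) - p * (D.a (y 1) - D.a (y 0)) =
          (D'.a (F.f (y' 1)) - D'.a (F.f (y' 0))) - p * (D.a (y' 1) - D.a (y' 0))
        linear_combination h1 - h0
  obtain ⟨u, hu⟩ : ∃ u : (Fin 2 → B) → ℤ, ∀ y : D.dSS.X 1,
      D'.lam (F.dmap.f 1 y) - p * D.lam y = u (D.pi.f 1 y) := by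
    classical
    refine ⟨fun b => if h : ∃ y : D.dSS.X 1, D.pi.f 1 y = b then
      D'.lam (F.dmap.f 1 h.choose) - p * D.lam h.choose else 0, fun y => ?_⟩
    have h : ∃ y' : D.dSS.X 1, D.pi.f 1 y' = D.pi.f 1 y := ⟨y, rfl⟩
    beta_reduce
    rw [dif_pos h]
    exact hc' _ _ h.choose_spec.symm
  have key : ∀ z : D.dSS.X 1 →₀ R, D'.kap R (F.dmap.lin R 1 z) - (p : R) * D.kap R z =
      Finsupp.linearCombination R (fun b => ((u b : ℤ) : R)) (D.pi.lin R 1 z) := by
    intro z
    induction z using Finsupp.induction_linear with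
    | zero => simp
    | add a b ha hb =>
      simp only [map_add]
      rw [← ha, ← hb]
      ring
    | single y r =>
      rw [SMap.lin_single, SMap.lin_single, Finsupp.linearCombination_single, kap, kap,
        Finsupp.linearCombination_single, Finsupp.linearCombination_single, ← hu y]
      simp only [smul_eq_mul]
      push_cast
      ring
  have h := key (D.kinc R 0 x)
  rw [pi_kinc, map_zero, sub_eq_zero] at h
  exact h

variable {R}

/-- The two connecting maps agree up to boundaries. PROOF: `u m x := σ'.s (m+1) x - dmap (σ.s (m+1)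
x)` is in the kernel of `pi`, an equivariant linear map `C(B)_(m+1) → K'_m`; and
`kinc (θ' x - kmap (θ x)) = dd (u' x) - u (dd x)` with `dd x ∈ Co`. -/
theorem θ_kmap (F : Mor D D' p) (σ : D.Sec R) (σ' : D'.Sec R) (m : ℕ)
    {x : ((tSS G B).cx R).V (m + 2)} (hx : x ∈ ((tSS G B).cx R).Z (m + 2)) :
    σ'.θ m x - (F.kmap R).f m (σ.θ m x) ∈ (D'.kcx R).B m := by
  -- the map `u`
  let u : ∀ m, ((tSS G B).X (m + 1) →₀ R) →ₗ[R] (D'.kcx R).V m := fun m =>
    LinearMap.codRestrict (LinearMap.ker (D'.pi.lin R (m + 1)))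
      (σ'.s (m + 1) - (F.dmap.lin R (m + 1)).comp (σ.s (m + 1)))
      (fun x => by
        rw [LinearMap.mem_ker, LinearMap.sub_apply, LinearMap.comp_apply, map_sub, σ'.pi_s,
          pi_lin_dmap, σ.pi_s, sub_self])
  have hu : ∀ m x, D'.kinc R m (u m x) = σ'.s (m + 1) x - F.dmap.lin R (m + 1) (σ.s (m + 1) x) :=
    fun _ _ => rfl
  have hue : ∀ m (g : G) x, u m (perm R G _ g x) = (D'.kcx R).ρ m g (u m x) := by
    intro m g x
    apply D'.kinc_injective R m
    rw [kinc_ρ, hu, hu, σ'.equiv, σ.equiv, SMap.lin_perm, map_sub]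
  refine Cx.mem_B.2 ⟨u (m + 1) x, ?_⟩
  have h1 : σ'.θ m x - (F.kmap R).f m (σ.θ m x) - (D'.kcx R).d m (u (m + 1) x) =
      - u m ((tSS G B).dd R (m + 1) x) := by
    apply D'.kinc_injective R m
    rw [map_sub, map_sub, map_neg, kinc_kmap, Sec.kinc_θ, Sec.kinc_θ, kinc_d, hu, hu, map_sub,
      map_sub, SMap.dd_lin]
    abel
  rw [h1]
  exact Submodule.neg_mem _ (map_Co (u m) (hue m) (Cx.mem_Z_succ.1 hx))

end Mor

end TD

end Pool.Agent.W_3f1825_h40
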