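import Mathlib

set_option autoImplicit false

/-! The homeomorphism `τ` of `E^p`. -/

open Topology

namespace Pool.Agent.W_3f1825_h40

variable {G E : Type} [Group G] [TopologicalSpace E] [MulAction G E] [ContinuousConstSMul G E]

/-- The homeomorphism `(x 0, …, x k) ↦ (x 1, …, x k, z • x 0)` of `E ^ (k + 1)`. -/
noncomputable def tauH (k : ℕ) (z : G) : (Fin (k + 1) → E) ≃ₜ (Fin (k + 1) → E) where
  toFun x i := if h : (i : ℕ) + 1 < k + 1 then x ⟨i + 1, h⟩ else z • x 0
  invFun x i := if h : (i : ℕ) = 0 then z⁻¹ • x (Fin.last k) else x ⟨i - 1, by omega⟩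
  left_inv := by
    intro x
    funext i
    by_cases h : (i : ℕ) = 0
    · have h1 : ¬ ((Fin.last k : Fin (k + 1)) : ℕ) + 1 < k + 1 := by simp
      have h2 : i = 0 := Fin.ext h
      simp only [dif_pos h, dif_neg h1, inv_smul_smul]
      rw [h2]
    · have h1 : (i : ℕ) - 1 + 1 < k + 1 := by omega
      simp only [dif_neg h, dif_pos h1]
      congr 1
      apply Fin.ext
      show (i : ℕ) - 1 + 1 = i
      omega
  right_inv := by
    intro x
    funext i
    by_cases h : (i : ℕ) + 1 < k + 1
    · have h1 : ¬ ((i : ℕ) + 1 = 0) := by omega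
      simp only [dif_pos h, dif_neg h1]
      congr 1
    · have h1 : ((0 : Fin (k + 1)) : ℕ) = 0 := rfl
      have h2 : i = Fin.last k := by
        apply Fin.ext
        rw [Fin.val_last]
        omega
      simp only [dif_neg h, dif_pos h1, smul_inv_smul]
      rw [h2]
  continuous_toFun := by
    refine continuous_pi fun i => ?_
    by_cases h : (i : ℕ) + 1 < k + 1
    · simp only [dif_pos h]
      exact continuous_apply _
    · simp only [dif_neg h]
      exact (continuous_apply (0 : Fin (k + 1))).const_smul z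
  continuous_invFun := by
    refine continuous_pi fun i => ?_
    by_cases h : (i : ℕ) = 0
    · simp only [dif_pos h]
      exact (continuous_apply (Fin.last k)).const_smul z⁻¹
    · simp only [dif_neg h]
      exact continuous_apply _

theorem OverA_apply (k : ℕ) (z : G) (x : Fin (k + 1) → E) (i : Fin (k + 1)) :
    tauH k z x i = if h : (i : ℕ) + 1 < k + 1 then x ⟨i + 1, h⟩ else z • x 0 := rfl

theorem OverA_pow (k : ℕ) (z : G) (x : Fin (k + 1) → E) (j : ℕ) (hj : j ≤ k + 1)
    (i : Fin (k + 1)) : ((tauH (E := E) k z) ^ j) x i =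
      if h : (i : ℕ) + j ≤ k then x ⟨i + j, by omega⟩
      else z • x ⟨i + j - k - 1, by omega⟩ := by
  induction j generalizing i with
  | zero =>
    have h : (i : ℕ) + 0 ≤ k := by omega
    rw [dif_pos h, pow_zero]
    rfl
  | succ j ih =>
    have h1 : ((tauH (E := E) k z) ^ (j + 1)) x i =
        tauH k z (((tauH (E := E) k z) ^ j) x) i := by
      rw [pow_succ']
      rfl
    rw [h1, OverA_apply]
    by_cases h : (i : ℕ) + 1 < k + 1
    · rw [dif_pos h, ih (by omega)]
      by_cases h2 : (i : ℕ) + (j + 1) ≤ k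
      · have h3 : (i : ℕ) + 1 + j ≤ k := by omega
        rw [dif_pos h2]
        simp only [dif_pos h3]
        congr 1
        apply Fin.ext
        show (i : ℕ) + 1 + j = i + (j + 1)
        omega
      · have h3 : ¬ (i : ℕ) + 1 + j ≤ k := by omega
        rw [dif_neg h2]
        simp only [dif_neg h3]
        congr 2
        apply Fin.ext
        show (i : ℕ) + 1 + j - k - 1 = i + (j + 1) - k - 1
        omega
    · rw [dif_neg h, ih (by omega)]
      have h2 : ((0 : Fin (k + 1)) : ℕ) + j ≤ k := by
        rw [Fin.val_zero]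
        omega
      have h3 : ¬ (i : ℕ) + (j + 1) ≤ k := by omega
      rw [dif_neg h3, dif_pos h2]
      congr 2
      apply Fin.ext
      show 0 + j = (i : ℕ) + (j + 1) - k - 1
      omega

/-- PROOF: `(tauH k z)^[j] x i = x (i + j)` if `i + j ≤ k`, and `z • x (i + j - k - 1)` if
`k + 1 ≤ i + j`, for `0 ≤ j ≤ k + 1` (induction on `j`). -/
theorem tauH_pow (k : ℕ) (z : G) (x : Fin (k + 1) → E) :
    ((tauH (E := E) k z) ^ (k + 1)) x = fun i => z • x i := by
  funext i
  rw [OverA_pow k z x (k + 1) le_rfl i, dif_neg (by omega)]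
  congr 2
  apply Fin.ext
  show (i : ℕ) + (k + 1) - k - 1 = i
  omega

theorem tauH_comm (k : ℕ) (z g : G) (h : g * z = z * g) (x : Fin (k + 1) → E) :
    tauH k z (fun i => g • x i) = fun i => g • (tauH k z x) i := by
  funext i
  rw [OverA_apply, OverA_apply]
  split_ifs
  · rfl
  · rw [← mul_smul, ← mul_smul, h]

end Pool.Agent.W_3f1825_h40
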