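import Pool.Agent.W_3f1825_h40.Cx

set_option autoImplicit false

/-! Semi-simplicial sets with an action of a group, and the associated complexes of permutation
modules. -/

namespace Pool.Agent.W_3f1825_h40

/-- A semi-simplicial `G`-set. -/
structure SS (G : Type) [Group G] where
  /-- the simplices of dimension `m` -/
  X : ℕ → Type
  [act : ∀ m, MulAction G (X m)]
  /-- the faces -/
  face : ∀ m, Fin (m + 2) → X (m + 1) → X m
  face_face : ∀ (m : ℕ) (j : Fin (m + 2)) (i : Fin (m + 3)) (h : (i : ℕ) ≤ (j : ℕ)) (x : X (m + 2)),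
    face m j (face (m + 1) i x) =
      face m (Fin.castLT i (lt_of_le_of_lt h j.is_lt)) (face (m + 1) j.succ x)
  face_smul : ∀ m i (g : G) (x : X (m + 1)), face m i (g • x) = g • face m i x

attribute [instance] SS.act

variable (R : Type) [CommRing R] {G : Type} [Group G]

/-- The differential of the complex of a semi-simplicial set. -/
noncomputable def SS.dd (A : SS G) (m : ℕ) : (A.X (m + 1) →₀ R) →ₗ[R] (A.X m →₀ R) :=
  ∑ i : Fin (m + 2), ((-1 : R) ^ (i : ℕ)) • Finsupp.lmapDomain R R (A.face m i)

theorem SS.dd_single (A : SS G) (m : ℕ) (x : A.X (m + 1)) (r : R) :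
    A.dd R m (Finsupp.single x r) =
      ∑ i : Fin (m + 2), Finsupp.single (A.face m i x) ((-1 : R) ^ (i : ℕ) * r) := by
  simp [SS.dd, LinearMap.sum_apply, Finsupp.mapDomain_single]

theorem SS.dd_dd (A : SS G) (m : ℕ) (c : A.X (m + 2) →₀ R) : A.dd R m (A.dd R (m + 1) c) = 0 := by
  induction c using Finsupp.induction_linear with
  | zero => simp
  | add a b ha hb => simp only [map_add, ha, hb, add_zero]
  | single x r =>
    rw [SS.dd_single, map_sum]
    simp only [SS.dd_single]
    rw [Finset.sum_comm, ← Finset.sum_product']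
    let P := Fin (m + 2) × Fin (m + 3)
    let S : Finset P := Finset.univ.filter (fun ij : P => (ij.2 : ℕ) ≤ (ij.1 : ℕ))
    rw [Finset.univ_product_univ, ← Finset.sum_add_sum_compl S,
      ← eq_neg_iff_add_eq_zero, ← Finset.sum_neg_distrib]
    refine Finset.sum_bij (fun (ij : P) hij =>
      ((Fin.castLT ij.2 (lt_of_le_of_lt (Finset.mem_filter.mp hij).right (Fin.is_lt ij.1)),
        ij.1.succ) : P)) ?_ ?_ ?_ ?_
    · rintro ⟨i, j⟩ hij
      simp only [S, Finset.mem_filter, Finset.mem_univ, true_and, Finset.mem_compl] at hij ⊢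
      simp only [Fin.val_succ, Fin.val_castLT]
      omega
    · rintro ⟨i, j⟩ hij ⟨i', j'⟩ hij' h
      have h1 := congrArg (fun p : P => (p.1 : ℕ)) h
      have h2 := congrArg (fun p : P => (p.2 : ℕ)) h
      simp only [Fin.val_castLT, Fin.val_succ] at h1 h2
      ext
      · simp only; omega
      · simp only; omega
    · rintro ⟨i', j'⟩ hij'
      simp only [S, Finset.mem_filter, Finset.mem_univ, true_and, Finset.mem_compl,
        not_le] at hij'
      have hj' : (j' : ℕ) ≠ 0 := by omega
      refine ⟨(j'.pred (by rw [Ne, Fin.ext_iff]; exact hj'), Fin.castSucc i'), ?_, ?_⟩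
      · simp only [S, Finset.mem_filter, Finset.mem_univ, true_and, Fin.val_castSucc,
          Fin.val_pred]
        omega
      · simp only [Fin.castLT_castSucc, Fin.succ_pred]
    · rintro ⟨i, j⟩ hij
      have hij' : (j : ℕ) ≤ (i : ℕ) := (Finset.mem_filter.mp hij).2
      simp only
      rw [A.face_face m i j hij', ← Finsupp.single_neg]
      congr 1
      rw [Fin.val_castLT, Fin.val_succ, pow_succ]
      ring

/-- The permutation representation. -/
noncomputable def perm (R G X : Type) [CommRing R] [Group G] [MulAction G X] :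
    Representation R G (X →₀ R) where
  toFun g := Finsupp.lmapDomain R R (fun x : X => g • x)
  map_one' := by
    ext x
    simp [Finsupp.mapDomain_single]
  map_mul' g h := by
    ext x
    simp [Finsupp.mapDomain_single, mul_smul]

theorem perm_single {X : Type} [MulAction G X] (g : G) (x : X) (r : R) :
    perm R G X g (Finsupp.single x r) = Finsupp.single (g • x) r :=
  Finsupp.mapDomain_single

theorem SS.dd_perm (A : SS G) (m : ℕ) (g : G) (c : A.X (m + 1) →₀ R) :
    A.dd R m (perm R G (A.X (m + 1)) g c) = perm R G (A.X m) g (A.dd R m c) := by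
  induction c using Finsupp.induction_linear with
  | zero => simp
  | add a b ha hb => simp only [map_add, ha, hb]
  | single x r =>
    rw [perm_single, SS.dd_single, SS.dd_single, map_sum]
    refine Finset.sum_congr rfl fun i _ => ?_
    rw [perm_single, A.face_smul]

/-- The complex of permutation modules of a semi-simplicial `G`-set. -/
@[reducible]
noncomputable def SS.cx (A : SS G) : Cx R G where
  V m := A.X m →₀ R
  ρ m := perm R G (A.X m)
  d m := A.dd R m
  d_d m x := A.dd_dd R m x
  d_ρ m g x := A.dd_perm R m g x

/-- Sum of the coefficients. -/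
noncomputable def sumc (X : Type) : (X →₀ R) →ₗ[R] R := Finsupp.linearCombination R (fun _ => (1 : R))

@[simp] theorem sumc_single {X : Type} (x : X) (r : R) :
    sumc R X (Finsupp.single x r) = r := by
  simp [sumc, Finsupp.linearCombination_single]

/-- The augmentation: sum of the coefficients. -/
noncomputable def SS.aug (A : SS G) : Aug (A.cx R) where
  ε := sumc R (A.X 0)
  ε_d x := by
    change sumc R (A.X 0) (A.dd R 0 x) = 0
    induction x using Finsupp.induction_linear with
    | zero => simp
    | add a b ha hb => simp only [map_add, ha, hb, add_zero]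
    | single x r =>
      rw [SS.dd_single, map_sum, Fin.sum_univ_two]
      simp
  ε_ρ g x := by
    change sumc R (A.X 0) (perm R G (A.X 0) g x) = sumc R (A.X 0) x
    induction x using Finsupp.induction_linear with
    | zero => simp
    | add a b ha hb => simp only [map_add, ha, hb]
    | single x r =>
      rw [perm_single]
      simp

theorem SS.aug_ε (A : SS G) : (A.aug R).ε = sumc R (A.X 0) := rfl

/-- Maps of semi-simplicial `G`-sets. -/
structure SMap (A B : SS G) where
  /-- the maps -/
  f : ∀ m, A.X m → B.X m
  f_face : ∀ m i x, B.face m i (f (m + 1) x) = f m (A.face m i x)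
  f_smul : ∀ m (g : G) (x : A.X m), f m (g • x) = g • f m x

/-- The linear map of a map of semi-simplicial sets. -/
noncomputable def SMap.lin {A B : SS G} (φ : SMap A B) (m : ℕ) : (A.X m →₀ R) →ₗ[R] (B.X m →₀ R) :=
  Finsupp.lmapDomain R R (φ.f m)

theorem SMap.lin_single {A B : SS G} (φ : SMap A B) (m : ℕ) (x : A.X m) (r : R) :
    φ.lin R m (Finsupp.single x r) = Finsupp.single (φ.f m x) r :=
  Finsupp.mapDomain_single

theorem SMap.dd_lin {A B : SS G} (φ : SMap A B) (m : ℕ) (c : A.X (m + 1) →₀ R) :
    B.dd R m (φ.lin R (m + 1) c) = φ.lin R m (A.dd R m c) := by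
  induction c using Finsupp.induction_linear with
  | zero => simp
  | add a b ha hb => simp only [map_add, ha, hb]
  | single x r =>
    rw [SMap.lin_single, SS.dd_single, SS.dd_single, map_sum]
    refine Finset.sum_congr rfl fun i _ => ?_
    rw [SMap.lin_single, φ.f_face]

theorem SMap.lin_perm {A B : SS G} (φ : SMap A B) (m : ℕ) (g : G) (c : A.X m →₀ R) :
    φ.lin R m (perm R G (A.X m) g c) = perm R G (B.X m) g (φ.lin R m c) := by
  induction c using Finsupp.induction_linear with
  | zero => simp
  | add a b ha hb => simp only [map_add, ha, hb]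
  | single x r =>
    rw [perm_single, SMap.lin_single, SMap.lin_single, perm_single, φ.f_smul]

/-- The chain map of a map of semi-simplicial sets. -/
noncomputable def SMap.cm {A B : SS G} (φ : SMap A B) : CMap (A.cx R) (B.cx R) where
  f m := φ.lin R m
  comm m x := φ.dd_lin R m x
  equiv m g x := φ.lin_perm R m g x

theorem SMap.cm_f {A B : SS G} (φ : SMap A B) (m : ℕ) : (φ.cm R).f m = φ.lin R m := rfl

theorem SMap.sumc_lin {A B : SS G} (φ : SMap A B) (m : ℕ) (x : A.X m →₀ R) :
    sumc R (B.X m) (φ.lin R m x) = sumc R (A.X m) x := by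
  induction x using Finsupp.induction_linear with
  | zero => simp
  | add a b ha hb => simp only [map_add, ha, hb]
  | single x r => rw [SMap.lin_single, sumc_single, sumc_single]

theorem SMap.cm_aug {A B : SS G} (φ : SMap A B) (x : (A.cx R).V 0) :
    (B.aug R).ε ((φ.cm R).f 0 x) = (A.aug R).ε x := φ.sumc_lin R 0 x

/-- The semi-simplicial `G`-set of all tuples of elements of a `G`-set. -/
@[reducible]
def tSS (G S : Type) [Group G] [MulAction G S] : SS G where
  X m := Fin (m + 1) → S
  face _ i x := fun j => x (i.succAbove j)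
  face_face m j i h x := by
    funext k
    have : i.succAbove (j.succAbove k) =
        (j.succ).succAbove ((Fin.castLT i (lt_of_le_of_lt h j.is_lt)).succAbove k) := by
      ext
      simp only [Fin.succAbove, Fin.lt_def, Fin.val_castSucc, Fin.val_succ, Fin.val_castLT]
      split_ifs <;> simp_all <;> omega
    exact congrArg x this
  face_smul _ _ _ _ := rfl

end Pool.Agent.W_3f1825_h40
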