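import Pool.Agent.W_3f1825_h40.TDLift

set_option autoImplicit false

/-! The Gysin sequence `H_{m+2}(D) → H_{m+2}(B) → H_m(K) → H_{m+1}(D)`, elementwise. -/

namespace Pool.Agent.W_3f1825_h40

namespace TD

variable {G S B : Type} [Group G] [MulAction G S] [MulAction G B] {N : Subgroup G}
variable {R : Type} [CommRing R]

namespace Sec

variable {D : TD G S B N} (σ : D.Sec R)

theorem pi_θ (m : ℕ) (x : (tSS G B).X (m + 2) →₀ R) :
    D.pi.lin R (m + 1) (D.dSS.dd R (m + 1) (σ.s (m + 2) x) -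
      σ.s (m + 1) ((tSS G B).dd R (m + 1) x)) = 0 := by
  rw [map_sub, ← SMap.dd_lin, σ.pi_s, σ.pi_s, sub_self]

/-- The connecting map `θ x = d (s x) - s (d x)`. -/
noncomputable def θ (m : ℕ) : ((tSS G B).X (m + 2) →₀ R) →ₗ[R] (D.kcx R).V m :=
  LinearMap.codRestrict (LinearMap.ker (D.pi.lin R (m + 1)))
    ((D.dSS.dd R (m + 1)).comp (σ.s (m + 2)) - (σ.s (m + 1)).comp ((tSS G B).dd R (m + 1)))
    (fun x => σ.pi_θ m x)

theorem kinc_θ (m : ℕ) (x : (tSS G B).X (m + 2) →₀ R) :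
    D.kinc R m (σ.θ m x) = D.dSS.dd R (m + 1) (σ.s (m + 2) x) -
      σ.s (m + 1) ((tSS G B).dd R (m + 1) x) := rfl

theorem θ_equiv (m : ℕ) (g : G) (x : (tSS G B).X (m + 2) →₀ R) :
    σ.θ m (perm R G _ g x) = (D.kcx R).ρ m g (σ.θ m x) := by
  apply D.kinc_injective R m
  rw [kinc_ρ, kinc_θ, kinc_θ, σ.equiv, SS.dd_perm, SS.dd_perm, σ.equiv, map_sub]

theorem θ_d (m : ℕ) (x : (tSS G B).X (m + 3) →₀ R) :
    (D.kcx R).d m (σ.θ (m + 1) x) = - σ.θ m ((tSS G B).dd R (m + 2) x) := by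
  apply D.kinc_injective R m
  rw [kinc_d, kinc_θ, map_neg, kinc_θ, map_sub, SS.dd_dd, SS.dd_dd, map_zero, sub_zero, zero_sub]

theorem θ_Z (m : ℕ) {x : ((tSS G B).cx R).V (m + 2)} (hx : x ∈ ((tSS G B).cx R).Z (m + 2)) :
    σ.θ m x ∈ (D.kcx R).Z m := by
  cases m with
  | zero => exact Submodule.mem_top
  | succ m =>
    rw [Cx.mem_Z_succ, θ_d]
    exact Submodule.neg_mem _ (map_Co (σ.θ m) (σ.θ_equiv m) (Cx.mem_Z_succ.1 hx))

theorem θ_B (m : ℕ) {x : ((tSS G B).cx R).V (m + 2)} (hx : x ∈ ((tSS G B).cx R).B (m + 2)) :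
    σ.θ m x ∈ (D.kcx R).B m := by
  obtain ⟨y, hy⟩ := Cx.mem_B.1 hx
  refine Cx.mem_B.2 ⟨- σ.θ (m + 1) y, ?_⟩
  have h : σ.θ m x - (D.kcx R).d m (- σ.θ (m + 1) y) =
      σ.θ m (x - (tSS G B).dd R (m + 2) y) := by
    rw [map_neg, θ_d, neg_neg, map_sub]
  rw [h]
  exact map_Co (σ.θ m) (σ.θ_equiv m) hy

/-- The retraction `x ↦ x - s (pi x)` of `D` to the kernel. -/
noncomputable def ret (m : ℕ) : (D.dSS.X (m + 1) →₀ R) →ₗ[R] (D.kcx R).V m :=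
  LinearMap.codRestrict (LinearMap.ker (D.pi.lin R (m + 1)))
    (LinearMap.id - (σ.s (m + 1)).comp (D.pi.lin R (m + 1)))
    (fun x => by
      rw [LinearMap.mem_ker, LinearMap.sub_apply, LinearMap.id_apply, LinearMap.comp_apply, map_sub,
        σ.pi_s, sub_self])

theorem kinc_ret (m : ℕ) (x : D.dSS.X (m + 1) →₀ R) :
    D.kinc R m (σ.ret m x) = x - σ.s (m + 1) (D.pi.lin R (m + 1) x) := rfl

theorem ret_Co (m : ℕ) {x : D.dSS.X (m + 1) →₀ R} (hx : x ∈ Co ((D.dSS.cx R).ρ (m + 1))) :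
    σ.ret m x ∈ Co ((D.kcx R).ρ m) := by
  refine map_Co (σ.ret m) (fun g v => ?_) hx
  apply D.kinc_injective R m
  rw [kinc_ρ, kinc_ret, kinc_ret, map_sub, ← σ.equiv, ← SMap.lin_perm]

/-- Exactness at `B`. PROOF: `θ x = d k + i` with `k : (D.kcx R).V (m+1)`, `i ∈ Co`; take
`y = s x - kinc k`; then `dd y = kinc (θ x) + s (dd x) - kinc (d k) = kinc i + s (dd x)` is in
`Co` (`map_Co` for `kinc` and for `s`). -/
theorem exact₁ (m : ℕ) {x : ((tSS G B).cx R).V (m + 2)} (hx : x ∈ ((tSS G B).cx R).Z (m + 2))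
    (h : σ.θ m x ∈ (D.kcx R).B m) :
    ∃ y ∈ (D.dSS.cx R).Z (m + 2), D.pi.lin R (m + 2) y = x := by
  obtain ⟨k, hk⟩ := Cx.mem_B.1 h
  refine ⟨σ.s (m + 2) x - D.kinc R (m + 1) k, ?_, ?_⟩
  · rw [Cx.mem_Z_succ]
    have h1 : D.dSS.dd R (m + 1) (σ.s (m + 2) x - D.kinc R (m + 1) k) =
        D.kinc R m (σ.θ m x - (D.kcx R).d m k) + σ.s (m + 1) ((tSS G B).dd R (m + 1) x) := by
      rw [map_sub, map_sub, kinc_θ, kinc_d]
      abel
    change D.dSS.dd R (m + 1) (σ.s (m + 2) x - D.kinc R (m + 1) k) ∈ _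
    rw [h1]
    exact Submodule.add_mem _ (map_Co (D.kinc R m) (fun g v => D.kinc_ρ R m g v) hk)
      (map_Co (σ.s (m + 1)) (σ.equiv (m + 1)) (Cx.mem_Z_succ.1 hx))
  · rw [map_sub, σ.pi_s, pi_kinc, sub_zero]

/-- Exactness at `K`. PROOF: `kinc k = dd y + i`, `i ∈ Co`. Put `x = pi y`, `k' = ret y`, so
`y = s x + kinc k'`. Applying `pi`: `dd x = - pi i ∈ Co`, so `x ∈ Z (m+2)`; and
`kinc k = kinc (θ x) + kinc (d k') + (i - s (pi i))`, `i - s (pi i) = kinc (ret i)`,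
`ret i ∈ Co` (`ret_Co`). -/
theorem exact₂ (m : ℕ) {k : (D.kcx R).V m} (hk : k ∈ (D.kcx R).Z m)
    (h : D.kinc R m k ∈ (D.dSS.cx R).B (m + 1)) :
    ∃ x ∈ ((tSS G B).cx R).Z (m + 2), σ.θ m x - k ∈ (D.kcx R).B m := by
  obtain ⟨y, hy⟩ := Cx.mem_B.1 h
  have hy' : D.kinc R m k - D.dSS.dd R (m + 1) y ∈ Co ((D.dSS.cx R).ρ (m + 1)) := hy
  refine ⟨D.pi.lin R (m + 2) y, ?_, ?_⟩
  · rw [Cx.mem_Z_succ]
    change (tSS G B).dd R (m + 1) (D.pi.lin R (m + 2) y) ∈ _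
    have h1 : (tSS G B).dd R (m + 1) (D.pi.lin R (m + 2) y) =
        - D.pi.lin R (m + 1) (D.kinc R m k - D.dSS.dd R (m + 1) y) := by
      rw [map_sub, pi_kinc, SMap.dd_lin, zero_sub, neg_neg]
    rw [h1]
    exact Submodule.neg_mem _ (map_Co (D.pi.lin R (m + 1)) (SMap.lin_perm R D.pi (m + 1)) hy')
  · refine Cx.mem_B.2 ⟨- σ.ret (m + 1) y, ?_⟩
    have h2 : σ.θ m (D.pi.lin R (m + 2) y) - k - (D.kcx R).d m (- σ.ret (m + 1) y) =
        - σ.ret m (D.kinc R m k - D.dSS.dd R (m + 1) y) := by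
      apply D.kinc_injective R m
      rw [map_neg, sub_neg_eq_add, map_add, map_sub, kinc_θ, kinc_d, kinc_ret, map_neg, kinc_ret]
      rw [map_sub (D.pi.lin R (m + 1)), pi_kinc, zero_sub, map_neg, ← SMap.dd_lin, map_sub]
      abel
    rw [h2]
    exact Submodule.neg_mem _ (σ.ret_Co m hy')

/-- Degree one. PROOF: `y = s x`; `D.pi.lin R 0` is injective (`D.pi.f 0` is injective by `q_eq`),
so `dd y = s (pi (dd y)) = s (dd x) ∈ Co`. -/
theorem exact_one {x : ((tSS G B).cx R).V 1} (hx : x ∈ ((tSS G B).cx R).Z 1) :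
    ∃ y ∈ (D.dSS.cx R).Z 1, D.pi.lin R 1 y = x := by
  obtain ⟨σ⟩ := D.exists_sec R
  refine ⟨σ.s 1 x, ?_, σ.pi_s 1 x⟩
  have hinj : Function.Injective (D.pi.f 0) := by
    intro a b
    induction a using Quotient.inductionOn with
    | _ a =>
      induction b using Quotient.inductionOn with
      | _ b =>
        intro h
        have h0 : D.q (a 0) = D.q (b 0) := congrFun h 0
        obtain ⟨k, hk⟩ := (D.q_eq _ _).1 h0
        refine D.std_iff.2 ⟨k, fun i => ?_⟩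
        have hi : i = 0 := Fin.ext (by have := i.2; omega)
        rw [hi]
        exact hk
  have hinj' : Function.Injective (D.pi.lin R 0) := Finsupp.mapDomain_injective hinj
  rw [Cx.mem_Z_succ]
  change D.dSS.dd R 0 (σ.s 1 x) ∈ _
  have h1 : D.dSS.dd R 0 (σ.s 1 x) = σ.s 0 ((tSS G B).dd R 0 x) := by
    apply hinj'
    rw [σ.pi_s, ← SMap.dd_lin, σ.pi_s]
  rw [h1]
  exact map_Co (σ.s 0) (σ.equiv 0) (Cx.mem_Z_succ.1 hx)

end Sec

end TD

end Pool.Agent.W_3f1825_h40
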