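import Pool.Agent.W_3f1825_h40.Perm
import Pool.Agent.W_MP_6d5819_gt.Cone
import Pool.Agent.W_MP_6d5819_gt.BdBd

set_option autoImplicit false

/-! Singular chains of a space with a group action, graded version, and the comparison with the
ungraded module of chains `Ch R X` of `W_MP_6d5819_gt`. -/

namespace Pool.Agent.W_3f1825_h40

open Pool.Agent.W_MP_6d5819_gt

/-- The semi-simplicial `G`-set of singular simplices. -/
@[reducible]
noncomputable def sSS (G E : Type) [Group G] [TopologicalSpace E] [MulAction G E]
    [ContinuousConstSMul G E] : SS G where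
  X m := C(Simp (m + 1), E)
  face _ i σ := face σ i
  face_face _ j i h σ := Pool.Agent.W_MP_6d5819_gt.face_face σ j i h
  face_smul _ _ _ _ := rfl

variable (R : Type) [CommRing R]

/-- The boundary of graded singular chains. -/
noncomputable def bdry (X : Type) [TopologicalSpace X] (m : ℕ) :
    (C(Simp (m + 2), X) →₀ R) →ₗ[R] (C(Simp (m + 1), X) →₀ R) :=
  ∑ i : Fin (m + 2), ((-1 : R) ^ (i : ℕ)) •
    Finsupp.lmapDomain R R (fun σ : C(Simp (m + 2), X) => face σ i)

/-- The inclusion of the graded chains in all chains. -/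
noncomputable def inc (X : Type) [TopologicalSpace X] (m : ℕ) :
    (C(Simp (m + 1), X) →₀ R) →ₗ[R] Ch R X :=
  Finsupp.lmapDomain R R (fun σ : C(Simp (m + 1), X) => (⟨m, σ⟩ : Sing X))

theorem inc_single {X : Type} [TopologicalSpace X] (m : ℕ) (σ : C(Simp (m + 1), X)) (r : R) :
    inc R X m (Finsupp.single σ r) = Finsupp.single (⟨m, σ⟩ : Sing X) r :=
  Finsupp.mapDomain_single

/-- PROOF: `Finsupp.mapDomain_injective` and injectivity of `Sigma.mk m`. -/
theorem inc_injective (X : Type) [TopologicalSpace X] (m : ℕ) :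
    Function.Injective (inc R X m) :=
  Finsupp.mapDomain_injective fun _ _ h => eq_of_heq (Sigma.mk.inj h).2

/-- PROOF: induction on chains (`chIn_induction`) for `→`. -/
theorem mem_chIn_univ_iff {X : Type} [TopologicalSpace X] (m : ℕ) (c : Ch R X) :
    c ∈ chIn R m (Set.univ : Set X) ↔ ∃ c', inc R X m c' = c := by
  constructor
  · intro hc
    refine chIn_induction R (P := fun c => ∃ c', inc R X m c' = c) ⟨0, map_zero _⟩ ?_ ?_ c hc
    · rintro a b _ _ ⟨a', ha⟩ ⟨b', hb⟩
      exact ⟨a' + b', by rw [map_add, ha, hb]⟩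
    · intro σ _ r
      exact ⟨Finsupp.single σ r, inc_single R m σ r⟩
  · rintro ⟨c', rfl⟩
    induction c' using Finsupp.induction_linear with
    | zero => rw [map_zero]; exact Submodule.zero_mem _
    | add a b ha hb => rw [map_add]; exact Submodule.add_mem _ ha hb
    | single σ r =>
      rw [inc_single]
      exact single_mem_chIn R σ (Set.subset_univ _) r

/-- PROOF: on basis elements; `bd_single_succ`. -/
theorem bd_inc {X : Type} [TopologicalSpace X] (m : ℕ) (c : C(Simp (m + 2), X) →₀ R) :
    bd R (inc R X (m + 1) c) = inc R X m (bdry R X m c) := by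
  induction c using Finsupp.induction_linear with
  | zero => simp
  | add a b ha hb => simp only [map_add, ha, hb]
  | single σ r =>
    rw [inc_single, bd_single_succ, bdry, LinearMap.sum_apply, map_sum, Finset.smul_sum]
    refine Finset.sum_congr rfl fun i _ => ?_
    rw [LinearMap.smul_apply, map_smul, Finsupp.lmapDomain_apply, Finsupp.mapDomain_single,
      inc_single, Finsupp.smul_single, Finsupp.smul_single, smul_eq_mul, smul_eq_mul, mul_comm]

theorem sSS_dd {G E : Type} [Group G] [TopologicalSpace E] [MulAction G E]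
    [ContinuousConstSMul G E] (m : ℕ) : (sSS G E).dd R m = bdry R E m := rfl

/-- PROOF: `liftProp_perm`; if `g • σ = σ` then `g` fixes the point `σ (vtx 0)`. -/
theorem sLifts (G E : Type) [Group G] [TopologicalSpace E] [MulAction G E]
    [ContinuousConstSMul G E] (h : ∀ (g : G) (x : E), g • x = x → g = 1) :
    ((sSS G E).cx R).Lifts ⊥ := by
  intro m
  refine liftProp_perm (R := R) (G := G) (X := C(Simp (m + 1), E)) ⊥ fun σ g hg => ?_
  rw [Subgroup.mem_bot]
  refine h g (σ (vtx 0)) ?_
  have := congrArg (fun τ : C(Simp (m + 1), E) => τ (vtx 0)) hg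
  exact this

end Pool.Agent.W_3f1825_h40
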