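import Pool.Agent.W_3f1825_h40.Tup
import Pool.Agent.W_3f1825_h40.Cmp

set_option autoImplicit false

/-! A `G`-set `S` with a free action of `ℤ` (generated by `T`) commuting with `G` and with the
set `B` of `T`-orbits; the complex `D = C(S) / (T - 1)`, the complex `C(B)` and the shifted kernel
`K` of `D → C(B)`. -/

namespace Pool.Agent.W_3f1825_h40

/-- The data. `N` is a subgroup of `G` which acts on `S` through powers of `T` and contains all
`g` acting on some point of `S` like a power of `T`. -/
structure TD (G S B : Type) [Group G] [MulAction G S] [MulAction G B] (N : Subgroup G) where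
  /-- the generator of the `ℤ`-action -/
  T : Equiv.Perm S
  T_smul : ∀ (g : G) s, T (g • s) = g • T s
  free : ∀ s (k : ℤ), (T ^ k) s = s → k = 0
  /-- the map to the orbits -/
  q : S → B
  q_smul : ∀ (g : G) s, q (g • s) = g • q s
  q_surj : Function.Surjective q
  q_eq : ∀ s s', q s = q s' ↔ ∃ k : ℤ, s' = (T ^ k) s
  stab : ∀ (g : G) s (k : ℤ), g • s = (T ^ k) s → g ∈ N
  triv : ∀ g ∈ N, ∃ k : ℤ, ∀ s, g • s = (T ^ k) s

namespace TD

variable {G S B : Type} [Group G] [MulAction G S] [MulAction G B] {N : Subgroup G}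

theorem Tk_smul (D : TD G S B N) (k : ℤ) (g : G) (s : S) :
    (D.T ^ k) (g • s) = g • (D.T ^ k) s := by
  have h1 : ∀ (n : ℕ) (s : S), (D.T ^ n) (g • s) = g • (D.T ^ n) s := by
    intro n
    induction n with
    | zero => intro s; rfl
    | succ n ih => intro s; rw [pow_succ, Equiv.Perm.mul_apply, Equiv.Perm.mul_apply, D.T_smul, ih]
  cases k with
  | ofNat n => simpa using h1 n s
  | negSucc n =>
    apply (D.T ^ (n + 1)).injective
    rw [h1, zpow_negSucc]
    simp

/-- Two tuples in the same orbit of the diagonal action of `T`. -/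
def std (D : TD G S B N) (m : ℕ) : Setoid (Fin (m + 1) → S) where
  r x y := ∃ k : ℤ, ∀ i, y i = (D.T ^ k) (x i)
  iseqv := by
    refine ⟨fun x => ⟨0, fun i => by simp⟩, ?_, ?_⟩
    · rintro x y ⟨k, hk⟩
      refine ⟨-k, fun i => ?_⟩
      rw [hk, ← Equiv.Perm.mul_apply, ← zpow_add]
      simp
    · rintro x y w ⟨k, hk⟩ ⟨l, hl⟩
      refine ⟨l + k, fun i => ?_⟩
      rw [hl, hk, ← Equiv.Perm.mul_apply, ← zpow_add]

theorem std_iff (D : TD G S B N) {m : ℕ} {x y : Fin (m + 1) → S} :
    (Quotient.mk (D.std m) x) = Quotient.mk (D.std m) y ↔ ∃ k : ℤ, ∀ i, y i = (D.T ^ k) (x i) :=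
  Quotient.eq

/-- The action of `G` on the set of `T`-orbits of tuples. -/
@[implicit_reducible]
def actX (D : TD G S B N) (m : ℕ) : MulAction G (Quotient (D.std m)) where
  smul g := Quotient.map (fun x => g • x) (by
    rintro x y ⟨k, hk⟩
    refine ⟨k, fun i => ?_⟩
    change g • y i = (D.T ^ k) (g • x i)
    rw [D.Tk_smul, hk])
  one_smul x := by
    induction x using Quotient.inductionOn with
    | _ x => exact congrArg (Quotient.mk (D.std m)) (one_smul G x)
  mul_smul g h x := by
    induction x using Quotient.inductionOn with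
    | _ x => exact congrArg (Quotient.mk (D.std m)) (mul_smul g h x)

/-- The semi-simplicial `G`-set of `T`-orbits of tuples of elements of `S`. -/
def dSS (D : TD G S B N) : SS G where
  X m := Quotient (D.std m)
  act m := D.actX m
  face m i := Quotient.map (fun x => (tSS G S).face m i x) (by
    rintro x y ⟨k, hk⟩
    exact ⟨k, fun j => hk _⟩)
  face_face m j i h x := by
    induction x using Quotient.inductionOn with
    | _ x => exact congrArg (Quotient.mk (D.std m)) ((tSS G S).face_face m j i h x)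
  face_smul m i g x := by
    induction x using Quotient.inductionOn with
    | _ x => rfl

/-- The map from tuples to `T`-orbits of tuples. -/
def proj (D : TD G S B N) : SMap (tSS G S) D.dSS where
  f m := Quotient.mk (D.std m)
  f_face _ _ _ := rfl
  f_smul _ _ _ := rfl

/-- The map from `T`-orbits of tuples to tuples of `T`-orbits. -/
def pi (D : TD G S B N) : SMap D.dSS (tSS G B) where
  f m := Quotient.lift (fun (x : Fin (m + 1) → S) (i : Fin (m + 1)) => D.q (x i)) (by
    rintro x y ⟨k, hk⟩
    funext i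
    exact (D.q_eq _ _).2 ⟨k, hk i⟩)
  f_face m i x := by
    induction x using Quotient.inductionOn with
    | _ x => rfl
  f_smul m g x := by
    induction x using Quotient.inductionOn with
    | _ x =>
      funext i
      exact D.q_smul g (x i)

variable (R : Type) [CommRing R]

/-- The module of the kernel complex (shifted by one degree). -/
abbrev KV (D : TD G S B N) (m : ℕ) : Type := LinearMap.ker (D.pi.lin R (m + 1))

theorem perm_mem_ker (D : TD G S B N) (m : ℕ) (g : G) (x : D.KV R m) :
    perm R G _ g (x : D.dSS.X (m + 1) →₀ R) ∈ LinearMap.ker (D.pi.lin R (m + 1)) := by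
  rw [LinearMap.mem_ker, SMap.lin_perm, LinearMap.mem_ker.1 x.2, map_zero]

theorem dd_mem_ker (D : TD G S B N) (m : ℕ) (x : D.KV R (m + 1)) :
    D.dSS.dd R (m + 1) (x : D.dSS.X (m + 2) →₀ R) ∈ LinearMap.ker (D.pi.lin R (m + 1)) := by
  rw [LinearMap.mem_ker, ← SMap.dd_lin, LinearMap.mem_ker.1 x.2, map_zero]

/-- The shifted kernel complex `K`: in degree `m` the kernel of `D → C(B)` in degree `m + 1`. -/
noncomputable def kcx (D : TD G S B N) : Cx R G where
  V m := D.KV R m
  ρ m :=
    { toFun := fun g => (perm R G (D.dSS.X (m + 1)) g).restrict (fun x hx => D.perm_mem_ker R m g ⟨x, hx⟩)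
      map_one' := by
        ext x : 2
        simp
      map_mul' := by
        intro g h
        ext x : 2
        simp }
  d m := (D.dSS.dd R (m + 1)).restrict (fun x hx => D.dd_mem_ker R m ⟨x, hx⟩)
  d_d m x := Subtype.ext (D.dSS.dd_dd R (m + 1) x)
  d_ρ m g x := Subtype.ext (D.dSS.dd_perm R (m + 1) g x)

/-- The inclusion of the kernel. -/
noncomputable def kinc (D : TD G S B N) (m : ℕ) : (D.kcx R).V m →ₗ[R] (D.dSS.X (m + 1) →₀ R) :=
  Submodule.subtype _

theorem kinc_injective (D : TD G S B N) (m : ℕ) : Function.Injective (D.kinc R m) :=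
  Subtype.val_injective

theorem pi_kinc (D : TD G S B N) (m : ℕ) (x : (D.kcx R).V m) :
    D.pi.lin R (m + 1) (D.kinc R m x) = 0 := x.2

theorem exists_kinc (D : TD G S B N) (m : ℕ) (y : D.dSS.X (m + 1) →₀ R)
    (hy : D.pi.lin R (m + 1) y = 0) : ∃ x : (D.kcx R).V m, D.kinc R m x = y := ⟨⟨y, hy⟩, rfl⟩

theorem kinc_d (D : TD G S B N) (m : ℕ) (x : (D.kcx R).V (m + 1)) :
    D.kinc R m ((D.kcx R).d m x) = D.dSS.dd R (m + 1) (D.kinc R (m + 1) x) := rfl

theorem kinc_ρ (D : TD G S B N) (m : ℕ) (g : G) (x : (D.kcx R).V m) :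
    D.kinc R m ((D.kcx R).ρ m g x) = perm R G _ g (D.kinc R m x) := rfl

end TD

end Pool.Agent.W_3f1825_h40
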