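import Pool.Agent.W_3f1825_h40.TD

set_option autoImplicit false

/-! Lifting properties of the complexes attached to the data `TD`. -/

namespace Pool.Agent.W_3f1825_h40

namespace TD

variable {G S B : Type} [Group G] [MulAction G S] [MulAction G B] {N : Subgroup G}
variable (R : Type) [CommRing R]

/-- PROOF: `liftProp_perm`: if `g` fixes the class of `x` then `g • x 0 = (T ^ k) (x 0)` for some
`k`, so `g ∈ N` by `stab`. -/
theorem dLifts (D : TD G S B N) : (D.dSS.cx R).Lifts N := by
  intro m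
  refine liftProp_perm (X := D.dSS.X m) N ?_
  intro x g hx
  induction x using Quotient.inductionOn with
  | _ x =>
    have h1 : (Quotient.mk (D.std m) (g • x)) = Quotient.mk (D.std m) x := hx
    obtain ⟨k, hk⟩ := D.std_iff.1 h1.symm
    exact D.stab g (x 0) k (hk 0)

/-- PROOF: `tLifts`: `b = q s`, `q s = q (g • s)` gives `g • s = (T ^ k) s`. -/
theorem bLifts (D : TD G S B N) : ((tSS G B).cx R).Lifts N := by
  refine tLifts R N ?_
  intro b g hb
  obtain ⟨s, rfl⟩ := D.q_surj b
  obtain ⟨k, hk⟩ := (D.q_eq s (g • s)).1 (by rw [D.q_smul, hb])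
  exact D.stab g s k hk

/-- PROOF: `triv` and `q_eq`. -/
theorem bTriv (D : TD G S B N) : ((tSS G B).cx R).Triv N := by
  refine tTriv R N ?_
  intro b g hg
  obtain ⟨s, rfl⟩ := D.q_surj b
  obtain ⟨k, hk⟩ := D.triv g hg
  rw [← D.q_smul]
  exact ((D.q_eq s (g • s)).2 ⟨k, hk s⟩).symm

theorem dTriv (D : TD G S B N) : (D.dSS.cx R).Triv N := by
  intro m g hg x
  obtain ⟨k, hk⟩ := D.triv g hg
  change perm R G (D.dSS.X m) g x = x
  induction x using Finsupp.induction_linear with
  | zero => simp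
  | add a b ha hb => simp only [map_add, ha, hb]
  | single x r =>
    rw [perm_single]
    congr 1
    induction x using Quotient.inductionOn with
    | _ x => exact (D.std_iff.2 ⟨k, fun i => hk (x i)⟩).symm

theorem kTriv (D : TD G S B N) : (D.kcx R).Triv N := by
  intro m g hg x
  apply D.kinc_injective R m
  rw [D.kinc_ρ R]
  exact D.dTriv R (m + 1) g hg (D.kinc R m x)

/-- Equivariant sections of `D → C(B)`. -/
structure Sec (D : TD G S B N) where
  /-- the section -/
  s : ∀ m, ((tSS G B).X m →₀ R) →ₗ[R] (D.dSS.X m →₀ R)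
  equiv : ∀ m (g : G) x, s m (perm R G _ g x) = perm R G _ g (s m x)
  pi_s : ∀ m x, D.pi.lin R m (s m x) = x

/-- The map to tuples of orbits is surjective. -/
theorem TDLift_pi_surj (D : TD G S B N) (m : ℕ) (v : (tSS G B).X m →₀ R) :
    ∃ a : D.dSS.X m →₀ R, D.pi.lin R m a = v := by
  induction v using Finsupp.induction_linear with
  | zero => exact ⟨0, map_zero _⟩
  | add a b ha hb =>
    obtain ⟨a', ha'⟩ := ha
    obtain ⟨b', hb'⟩ := hb
    exact ⟨a' + b', by rw [map_add, ha', hb']⟩
  | single x r =>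
    choose f hf using D.q_surj
    refine ⟨Finsupp.single (Quotient.mk (D.std m) (fun i => f (x i))) r, ?_⟩
    rw [SMap.lin_single]
    congr 1
    funext i
    exact hf (x i)

/-- PROOF: `bLifts` applied to `φ = D.pi.lin R m` (surjective, because `D.pi.f m` is surjective:
`q_surj`) and `ψ = id`; `N` acts trivially on the source by `dTriv`. -/
theorem exists_sec (D : TD G S B N) : Nonempty (D.Sec R) := by
  have h : ∀ m, ∃ χ : ((tSS G B).X m →₀ R) →ₗ[R] (D.dSS.X m →₀ R),
      (∀ g v, χ (perm R G _ g v) = perm R G _ g (χ v)) ∧ ∀ v, D.pi.lin R m (χ v) = v := by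
    intro m
    exact D.bLifts R m (D.dSS.X m →₀ R) ((tSS G B).X m →₀ R) (perm R G _) (perm R G _)
      (fun g hg a => D.dTriv R m g hg a) (D.pi.lin R m) (fun g a => D.pi.lin_perm R m g a)
      LinearMap.id (fun _ _ => rfl) (fun v => D.TDLift_pi_surj R m v)
  choose s hs1 hs2 using h
  exact ⟨⟨s, hs1, hs2⟩⟩

/-- PROOF: the module `ker (pi)` is a retract of `D` by `x ↦ x - s (pi x)`: given `ψ : ker → B'`
extend it to `D` by composing with this retraction, lift it by `dLifts` and restrict. -/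
theorem kLifts (D : TD G S B N) : (D.kcx R).Lifts N := by
  intro m A B' _ _ _ _ α β hN φ hφ ψ hψ hs
  obtain ⟨σ⟩ := D.exists_sec R
  let r0 : (D.dSS.X (m + 1) →₀ R) →ₗ[R] (D.dSS.X (m + 1) →₀ R) :=
    LinearMap.id - (σ.s (m + 1)).comp (D.pi.lin R (m + 1))
  have hr0 : ∀ x, r0 x = x - σ.s (m + 1) (D.pi.lin R (m + 1) x) := fun x => rfl
  let r : (D.dSS.X (m + 1) →₀ R) →ₗ[R] (D.kcx R).V m :=
    r0.codRestrict (LinearMap.ker (D.pi.lin R (m + 1))) (by
      intro x
      rw [LinearMap.mem_ker, hr0, map_sub, σ.pi_s, sub_self])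
  have hr : ∀ x, D.kinc R m (r x) = x - σ.s (m + 1) (D.pi.lin R (m + 1) x) := fun x => rfl
  have hrg : ∀ g x, r (perm R G _ g x) = (D.kcx R).ρ m g (r x) := by
    intro g x
    apply D.kinc_injective R m
    rw [hr, D.kinc_ρ R, hr, SMap.lin_perm, σ.equiv, map_sub]
  have hrk : ∀ x, r (D.kinc R m x) = x := by
    intro x
    apply D.kinc_injective R m
    rw [hr, D.pi_kinc R, map_zero, sub_zero]
  obtain ⟨χ, h1, h2⟩ := D.dLifts R (m + 1) A B' α β hN φ hφ (ψ.comp r)
    (fun g v => by
      rw [LinearMap.comp_apply, LinearMap.comp_apply]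
      exact (congrArg ψ (hrg g v)).trans (hψ g (r v)))
    (fun v => hs (r v))
  refine ⟨χ.comp (D.kinc R m), ?_, ?_⟩
  · intro g v
    rw [LinearMap.comp_apply, LinearMap.comp_apply, D.kinc_ρ R]
    exact h1 g _
  · intro v
    rw [LinearMap.comp_apply]
    have h3 := h2 (D.kinc R m v)
    rw [LinearMap.comp_apply, hrk] at h3
    exact h3

end TD

end Pool.Agent.W_3f1825_h40
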