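import Pool.Agent.W_3f1825_h40.Cmp

set_option autoImplicit false

/-! The homology of a cyclic group of prime order does not vanish in high degrees. -/

namespace Pool.Agent.W_3f1825_h40

section Tors

variable (R : Type) [CommRing R]

/-- the translation action on functions -/
def Tors_rho (ℓ : ℕ) : Representation R (Multiplicative (ZMod ℓ)) (ZMod ℓ → R) where
  toFun g :=
    { toFun := fun f x => f (x - Multiplicative.toAdd g)
      map_add' := fun _ _ => rfl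
      map_smul' := fun _ _ => rfl }
  map_one' := by
    refine LinearMap.ext fun f => funext fun x => ?_
    change f (x - Multiplicative.toAdd 1) = f x
    rw [toAdd_one, sub_zero]
  map_mul' g h := by
    refine LinearMap.ext fun f => funext fun x => ?_
    change f (x - Multiplicative.toAdd (g * h)) =
      f (x - Multiplicative.toAdd g - Multiplicative.toAdd h)
    rw [toAdd_mul, sub_sub]

theorem Tors_rho_apply (ℓ : ℕ) (g : Multiplicative (ZMod ℓ)) (f : ZMod ℓ → R) (x : ZMod ℓ) :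
    Tors_rho R ℓ g f x = f (x - Multiplicative.toAdd g) := rfl

/-- the sum of the values -/
def Tors_s (ℓ : ℕ) [NeZero ℓ] : (ZMod ℓ → R) →ₗ[R] R where
  toFun f := ∑ y, f y
  map_add' f g := Finset.sum_add_distrib
  map_smul' c f := by
    simp only [Pi.smul_apply, RingHom.id_apply]
    rw [Finset.smul_sum]

theorem Tors_s_apply (ℓ : ℕ) [NeZero ℓ] (f : ZMod ℓ → R) : Tors_s R ℓ f = ∑ y, f y := rfl

theorem Tors_s_rho (ℓ : ℕ) [NeZero ℓ] (g : Multiplicative (ZMod ℓ)) (f : ZMod ℓ → R) :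
    Tors_s R ℓ (Tors_rho R ℓ g f) = Tors_s R ℓ f := by
  rw [Tors_s_apply, Tors_s_apply]
  exact Fintype.sum_equiv (Equiv.subRight (Multiplicative.toAdd g)) _ _ fun x => rfl

/-- `t - 1` -/
def Tors_t (ℓ : ℕ) : (ZMod ℓ → R) →ₗ[R] (ZMod ℓ → R) :=
  Tors_rho R ℓ (Multiplicative.ofAdd 1) - LinearMap.id

theorem Tors_t_apply (ℓ : ℕ) (f : ZMod ℓ → R) (x : ZMod ℓ) :
    Tors_t R ℓ f x = f (x - 1) - f x := rfl

/-- the norm -/
def Tors_N (ℓ : ℕ) [NeZero ℓ] : (ZMod ℓ → R) →ₗ[R] (ZMod ℓ → R) where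
  toFun f := fun _ => Tors_s R ℓ f
  map_add' f g := by
    funext x
    rw [map_add]
    rfl
  map_smul' c f := by
    funext x
    rw [map_smul]
    rfl

theorem Tors_N_apply (ℓ : ℕ) [NeZero ℓ] (f : ZMod ℓ → R) (x : ZMod ℓ) :
    Tors_N R ℓ f x = Tors_s R ℓ f := rfl

theorem Tors_s_t (ℓ : ℕ) [NeZero ℓ] (f : ZMod ℓ → R) : Tors_s R ℓ (Tors_t R ℓ f) = 0 := by
  unfold Tors_t
  rw [LinearMap.sub_apply, map_sub, Tors_s_rho, LinearMap.id_apply, sub_self]

omit [CommRing R] in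
theorem Tors_val (ℓ : ℕ) [NeZero ℓ] (hℓ : 1 < ℓ) (x : ZMod ℓ) (hx : x ≠ 0) :
    x.val = (x - 1).val + 1 := by
  have : Fact (1 < ℓ) := ⟨hℓ⟩
  have h1 : x.val ≠ 0 := fun h => hx ((ZMod.val_eq_zero x).1 h)
  have h2 : (1 : ZMod ℓ).val = 1 := ZMod.val_one ℓ
  have h3 : (x - 1).val = x.val - (1 : ZMod ℓ).val := ZMod.val_sub (by rw [h2]; omega)
  rw [h3, h2]
  omega

theorem Tors_val0 (ℓ : ℕ) [NeZero ℓ] : ((0 : ZMod ℓ) - 1).val + 1 = ℓ := by
  rw [zero_sub]
  obtain ⟨k, rfl⟩ := Nat.exists_eq_succ_of_ne_zero (NeZero.ne ℓ)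
  rw [ZMod.val_neg_one]

theorem Tors_range (ℓ : ℕ) [NeZero ℓ] (f : ZMod ℓ → R) :
    ∑ k ∈ Finset.range ℓ, f (k : ZMod ℓ) = Tors_s R ℓ f := by
  rw [Tors_s_apply]
  refine Finset.sum_nbij' (fun k => (k : ZMod ℓ)) (fun y => y.val) ?_ ?_ ?_ ?_ ?_
  · intro k _
    exact Finset.mem_univ _
  · intro y _
    exact Finset.mem_range.2 (ZMod.val_lt y)
  · intro k hk
    exact ZMod.val_cast_of_lt (Finset.mem_range.1 hk)
  · intro y _
    exact ZMod.natCast_zmod_val y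
  · intro k _
    rfl

/-- exactness: `s f = 0` implies that `f` is in the range of `t - 1` -/
theorem Tors_ex (ℓ : ℕ) [NeZero ℓ] (hℓ : 1 < ℓ) (f : ZMod ℓ → R) (hf : Tors_s R ℓ f = 0) :
    ∃ g, Tors_t R ℓ g = f := by
  refine ⟨fun x => -∑ k ∈ Finset.range (x.val + 1), f (k : ZMod ℓ), ?_⟩
  funext x
  rw [Tors_t_apply]
  by_cases hx : x = 0
  · subst hx
    rw [Tors_val0, Tors_range, hf, ZMod.val_zero, zero_add, Finset.sum_range_one, Nat.cast_zero]
    ring
  · rw [← Tors_val ℓ hℓ x hx, Finset.sum_range_succ, ZMod.natCast_zmod_val]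
    ring

/-- the periodic complex -/
def Tors_T (ℓ : ℕ) [NeZero ℓ] : Cx R (Multiplicative (ZMod ℓ)) where
  V _ := ZMod ℓ → R
  acg _ := inferInstanceAs (AddCommGroup (ZMod ℓ → R))
  mod _ := inferInstanceAs (Module R (ZMod ℓ → R))
  ρ _ := Tors_rho R ℓ
  d m := if m % 2 = 0 then Tors_t R ℓ else Tors_N R ℓ
  d_d m x := by
    change (if m % 2 = 0 then Tors_t R ℓ else Tors_N R ℓ)
      ((if (m + 1) % 2 = 0 then Tors_t R ℓ else Tors_N R ℓ) x) = 0
    rcases Nat.mod_two_eq_zero_or_one m with h | h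
    · rw [if_pos h, if_neg (by omega)]
      funext y
      rw [Tors_t_apply, Tors_N_apply, Tors_N_apply, sub_self]
      rfl
    · rw [if_neg (by omega), if_pos (by omega)]
      funext y
      rw [Tors_N_apply, Tors_s_t]
      rfl
  d_ρ m g x := by
    change (if m % 2 = 0 then Tors_t R ℓ else Tors_N R ℓ) (Tors_rho R ℓ g x) =
      Tors_rho R ℓ g ((if m % 2 = 0 then Tors_t R ℓ else Tors_N R ℓ) x)
    rcases Nat.mod_two_eq_zero_or_one m with h | h
    · rw [if_pos h]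
      funext y
      rw [Tors_t_apply, Tors_rho_apply, Tors_rho_apply, Tors_rho_apply, Tors_t_apply,
        sub_right_comm]
    · rw [if_neg (by omega)]
      funext y
      rw [Tors_N_apply, Tors_rho_apply, Tors_N_apply, Tors_s_rho]

theorem Tors_d_even (ℓ : ℕ) [NeZero ℓ] (m : ℕ) (h : m % 2 = 0) (x : ZMod ℓ → R) :
    (Tors_T R ℓ).d m x = Tors_t R ℓ x := by
  change (if m % 2 = 0 then Tors_t R ℓ else Tors_N R ℓ) x = _
  rw [if_pos h]

theorem Tors_d_odd (ℓ : ℕ) [NeZero ℓ] (m : ℕ) (h : m % 2 = 1) (x : ZMod ℓ → R) :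
    (Tors_T R ℓ).d m x = Tors_N R ℓ x := by
  change (if m % 2 = 0 then Tors_t R ℓ else Tors_N R ℓ) x = _
  rw [if_neg (by omega)]

/-- the augmentation -/
def Tors_A (ℓ : ℕ) [NeZero ℓ] : Aug (Tors_T R ℓ) where
  ε := Tors_s R ℓ
  ε_d x := by
    rw [Tors_d_even R ℓ 0 rfl]
    exact Tors_s_t R ℓ x
  ε_ρ g x := Tors_s_rho R ℓ g x

theorem Tors_single (ℓ : ℕ) [NeZero ℓ] (a : ZMod ℓ) (c : R) :
    Tors_s R ℓ (Pi.single a c) = c := by
  rw [Tors_s_apply, Finset.sum_pi_single']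
  simp

theorem Tors_exact (ℓ : ℕ) [NeZero ℓ] (hℓ : 1 < ℓ) : (Tors_A R ℓ).Exact where
  surj := ⟨(Pi.single 0 1 : ZMod ℓ → R), Tors_single R ℓ 0 1⟩
  zero x hx := by
    obtain ⟨g, hg⟩ := Tors_ex R ℓ hℓ x hx
    exact ⟨g, by rw [Tors_d_even R ℓ 0 rfl]; exact hg⟩
  succ m x hx := by
    rcases Nat.mod_two_eq_zero_or_one m with h | h
    · rw [Tors_d_even R ℓ m h] at hx
      have hc : ∀ y : ZMod ℓ, (x : ZMod ℓ → R) (y - 1) = (x : ZMod ℓ → R) y := by
        intro y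
        have h1 := congrFun hx y
        rw [Tors_t_apply] at h1
        exact sub_eq_zero.1 h1
      have hc2 : ∀ k : ℕ, (x : ZMod ℓ → R) ((k : ℕ) : ZMod ℓ) = (x : ZMod ℓ → R) 0 := by
        intro k
        induction k with
        | zero => rw [Nat.cast_zero]
        | succ k ih =>
          rw [← hc, Nat.cast_succ, add_sub_cancel_right, ih]
      refine ⟨(Pi.single 0 ((x : ZMod ℓ → R) 0) : ZMod ℓ → R), ?_⟩
      rw [Tors_d_odd R ℓ (m + 1) (by omega)]
      funext y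
      rw [Tors_N_apply, Tors_single, ← ZMod.natCast_zmod_val y, hc2]
    · rw [Tors_d_odd R ℓ m h] at hx
      have h1 : Tors_s R ℓ (x : ZMod ℓ → R) = 0 := congrFun hx (0 : ZMod ℓ)
      obtain ⟨g, hg⟩ := Tors_ex R ℓ hℓ x h1
      exact ⟨g, by rw [Tors_d_even R ℓ (m + 1) (by omega)]; exact hg⟩

theorem Tors_lift (ℓ : ℕ) [NeZero ℓ] : LiftProp ⊥ (Tors_rho R ℓ) := by
  intro A B _ _ _ _ α β _ φ hφ ψ hψ hs
  obtain ⟨a, ha⟩ := hs (Pi.single 0 1)
  let χ : (ZMod ℓ → R) →ₗ[R] A :=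
    { toFun := fun f => ∑ y, f y • α (Multiplicative.ofAdd y) a
      map_add' := by
        intro f g
        rw [← Finset.sum_add_distrib]
        refine Finset.sum_congr rfl fun y _ => ?_
        rw [Pi.add_apply, add_smul]
      map_smul' := by
        intro c f
        rw [RingHom.id_apply, Finset.smul_sum]
        refine Finset.sum_congr rfl fun y _ => ?_
        rw [Pi.smul_apply, smul_assoc] }
  have hχ : ∀ f, χ f = ∑ y, f y • α (Multiplicative.ofAdd y) a := fun f => rfl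
  refine ⟨χ, ?_, ?_⟩
  · intro g f
    rw [hχ, hχ, map_sum]
    refine (Fintype.sum_equiv (Equiv.addRight (Multiplicative.toAdd g)) _ _ fun y => ?_).symm
    rw [map_smul, Tors_rho_apply, Equiv.coe_addRight, add_sub_cancel_right]
    congr 1
    rw [← Module.End.mul_apply, ← map_mul, mul_comm, ofAdd_add, ofAdd_toAdd]
  · intro f
    rw [hχ, map_sum]
    have h1 : ∀ y : ZMod ℓ, φ (f y • α (Multiplicative.ofAdd y) a) =
        ψ (Pi.single y (f y)) := by
      intro y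
      rw [map_smul, hφ, ha, ← hψ, ← map_smul]
      congr 1
      funext x
      rw [Pi.smul_apply, Tors_rho_apply, toAdd_ofAdd, Pi.single_apply, Pi.single_apply,
        smul_eq_mul]
      by_cases hxy : x = y
      · rw [if_pos hxy, if_pos (sub_eq_zero.2 hxy), mul_one]
      · rw [if_neg hxy, if_neg (fun h => hxy (sub_eq_zero.1 h)), mul_zero]
    rw [Finset.sum_congr rfl fun y _ => h1 y, ← map_sum, Finset.univ_sum_single]

theorem Tors_not_van (ℓ : ℕ) [NeZero ℓ] (hℓ : ∀ c : R, (ℓ : R) * c ≠ 1) (k : ℕ) :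
    ¬ (Tors_T R ℓ).Van (2 * k + 1) := by
  intro hv
  let e : (Tors_T R ℓ).V (2 * k + 1) := (Pi.single 0 1 : ZMod ℓ → R)
  have hx : e ∈ (Tors_T R ℓ).Z (2 * k + 1) := by
    change (Tors_T R ℓ).d (2 * k) e ∈ Co ((Tors_T R ℓ).ρ (2 * k))
    have h0 : (Tors_T R ℓ).d (2 * k) e = Tors_t R ℓ (Pi.single 0 1 : ZMod ℓ → R) :=
      Tors_d_even R ℓ (2 * k) (by omega) _
    rw [h0]
    exact sub_mem_Co (Tors_rho R ℓ) (Multiplicative.ofAdd 1) (Pi.single 0 1 : ZMod ℓ → R)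
  obtain ⟨y, hy⟩ := Cx.mem_B.1 (hv hx)
  have hy' : (Pi.single 0 1 : ZMod ℓ → R) - Tors_N R ℓ y ∈ Co (Tors_rho R ℓ) := by
    have h0 : (Tors_T R ℓ).d (2 * k + 1) y = Tors_N R ℓ y :=
      Tors_d_odd R ℓ (2 * k + 1) (by omega) _
    rw [h0] at hy
    exact hy
  have hco : Co (Tors_rho R ℓ) ≤ LinearMap.ker (Tors_s R ℓ) := by
    rw [Co, Submodule.span_le]
    rintro _ ⟨g, v, rfl⟩
    change Tors_s R ℓ (Tors_rho R ℓ g v - v) = 0
    rw [map_sub, Tors_s_rho, sub_self]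
  have h1 : Tors_s R ℓ ((Pi.single 0 1 : ZMod ℓ → R) - Tors_N R ℓ y) = 0 := hco hy'
  rw [map_sub, Tors_single] at h1
  have h2 : Tors_s R ℓ (Tors_N R ℓ y) = ℓ * Tors_s R ℓ y := by
    rw [Tors_s_apply]
    simp only [Tors_N_apply]
    rw [Finset.sum_const, Finset.card_univ, ZMod.card, nsmul_eq_mul]
  rw [h2] at h1
  exact hℓ _ (sub_eq_zero.1 h1).symm

end Tors

/-- PROOF (periodic resolution). `Γ = Multiplicative (ZMod ℓ)`, `V = ZMod ℓ → ℤ` (functions),
`Γ` acts by translation: `(ρ (ofAdd a) f) x = f (x - a)`. Let `t f x = f (x - 1)`,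
`N f = (∑ y, f y)` (constant function), `s f = ∑ y, f y`. The complex `T`: all modules `V`, differential
`V_{m+1} → V_m` equal to `t - 1` for `m` even and `N` for `m` odd; `N ∘ (t - 1) = 0 = (t - 1) ∘ N`.
Augmentation `s`. Exactness: `s f = 0` implies `f = (t - 1) g` (partial sums along
`0, 1, …, ℓ - 1`); `(t - 1) f = 0` implies `f` constant `= N (single)`; `N f = 0` implies `s f = 0`,
so `f = (t - 1) g`. So `T` is exact. `exists_cmap` (`C.Lifts ⊥`, `triv_bot`) gives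
`φ : C → T` with `s ∘ φ 0 = ε`. To get a map back one needs `T.Lifts ⊥`: `V` is the permutation
module of the free `Γ`-set `ZMod ℓ` (you may prove the lifting property directly: an
equivariant map from `V` is determined by the image of the delta function at `0`, which can be
arbitrary). So `exists_equiv`, and `Van.of_retract` shows that if `C.Van m` then `T.Van m`.
For `m` odd `T.Van m` is false: `x = ` delta function at `0` is in `Z m` since `(t - 1) x = ρ g x - x`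
is in `Co`; but the elements of `B m` (range of `N` plus `Co`) have `s`-value divisible by `ℓ`, while
`s x = 1`. So for every `N` take an odd `m ≥ N`. -/
theorem exists_not_van {ℓ : ℕ} (hℓ : ℓ.Prime) (C : Cx ℤ (Multiplicative (ZMod ℓ)))
    (hC : C.Lifts ⊥) (A : Aug C) (hA : A.Exact) (N : ℕ) : ∃ m, N ≤ m ∧ ¬ C.Van m := by
  have : NeZero ℓ := ⟨hℓ.ne_zero⟩
  have hl : (Tors_T ℤ ℓ).Lifts ⊥ := fun m => Tors_lift ℤ ℓ
  obtain ⟨f, g, _, _, _, ⟨H⟩⟩ := exists_equiv hC (triv_bot C) hl (triv_bot _) A hA (Tors_A ℤ ℓ)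
    (Tors_exact ℤ ℓ hℓ.one_lt)
  refine ⟨2 * N + 1, by omega, fun hv => ?_⟩
  refine Tors_not_van ℤ ℓ ?_ N (Van.of_retract g f H hv)
  intro c hc
  have h1 : (ℓ : ℤ) ∣ 1 := ⟨c, hc.symm⟩
  have h2 := Int.le_of_dvd one_pos h1
  have h3 := hℓ.one_lt
  omega

end Pool.Agent.W_3f1825_h40
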