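import Pool.Agent.W_3f1825_h40.SS
import Pool.Agent.W_3f1825_h40.Perm

set_option autoImplicit false

/-! The complex of ordered tuples of a `G`-set. -/

namespace Pool.Agent.W_3f1825_h40

variable (R : Type) [CommRing R] {G : Type} [Group G] (S : Type) [MulAction G S]

/-- the cone operator -/
noncomputable def Tup_k (s₀ : S) (m : ℕ) :
    ((Fin (m + 1) → S) →₀ R) →ₗ[R] ((Fin (m + 2) → S) →₀ R) :=
  Finsupp.lmapDomain R R (fun x : Fin (m + 1) → S => (Fin.cons s₀ x : Fin (m + 2) → S))

theorem Tup_k_single (s₀ : S) (m : ℕ) (x : Fin (m + 1) → S) (r : R) :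
    Tup_k R S s₀ m (Finsupp.single x r) =
      Finsupp.single (Fin.cons s₀ x : Fin (m + 2) → S) r :=
  Finsupp.mapDomain_single

theorem Tup_face_zero (s₀ : S) (m : ℕ) (x : Fin (m + 1) → S) :
    (tSS G S).face m 0 (Fin.cons s₀ x : Fin (m + 2) → S) = x := by
  funext j
  change (Fin.cons s₀ x : Fin (m + 2) → S) (Fin.succAbove 0 j) = x j
  rw [Fin.succAbove_zero, Fin.cons_succ]

theorem Tup_face_succ (s₀ : S) (m : ℕ) (x : Fin (m + 2) → S) (i : Fin (m + 2)) :
    (tSS G S).face (m + 1) i.succ (Fin.cons s₀ x : Fin (m + 3) → S) =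
      (Fin.cons s₀ ((tSS G S).face m i x) : Fin (m + 2) → S) := by
  funext j
  change (Fin.cons s₀ x : Fin (m + 3) → S) (i.succ.succAbove j) = _
  refine Fin.cases ?_ (fun j' => ?_) j
  · rw [Fin.succ_succAbove_zero, Fin.cons_zero, Fin.cons_zero]
  · rw [Fin.succ_succAbove_succ, Fin.cons_succ, Fin.cons_succ]

theorem Tup_htpy (s₀ : S) (m : ℕ) (c : (Fin (m + 2) → S) →₀ R) :
    (tSS G S).dd R (m + 1) (Tup_k R S s₀ (m + 1) c) + Tup_k R S s₀ m ((tSS G S).dd R m c) = c := by
  induction c using Finsupp.induction_linear with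
  | zero => simp
  | add a b ha hb =>
    rw [map_add, map_add, map_add, map_add]
    conv_rhs => rw [← ha, ← hb]
    abel
  | single x r =>
    rw [Tup_k_single, SS.dd_single, SS.dd_single, map_sum, Fin.sum_univ_succ, add_assoc]
    have h1 : ((∑ i : Fin (m + 2),
        Finsupp.single ((tSS G S).face (m + 1) i.succ (Fin.cons s₀ x : Fin (m + 3) → S))
          ((-1 : R) ^ ((i.succ : Fin (m + 3)) : ℕ) * r)) +
        ∑ i : Fin (m + 2), Tup_k R S s₀ m
          (Finsupp.single ((tSS G S).face m i x) ((-1 : R) ^ (i : ℕ) * r))) = 0 := by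
      rw [← Finset.sum_add_distrib]
      refine Finset.sum_eq_zero fun i _ => ?_
      rw [Tup_k_single, Tup_face_succ, ← Finsupp.single_add, Fin.val_succ, pow_succ]
      have h2 : (-1 : R) ^ (i : ℕ) * (-1) * r + (-1) ^ (i : ℕ) * r = 0 := by ring
      rw [h2, Finsupp.single_zero]
    have h3 : (tSS G S).face (m + 1) 0 (Fin.cons s₀ x : Fin (m + 3) → S) = x :=
      Tup_face_zero S s₀ (m + 1) x
    rw [h1, add_zero, h3]
    simp

theorem Tup_htpy_zero (s₀ : S) (c : (Fin 1 → S) →₀ R) :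
    (tSS G S).dd R 0 (Tup_k R S s₀ 0 c) =
      c - sumc R (Fin 1 → S) c • Finsupp.single (fun _ => s₀) 1 := by
  induction c using Finsupp.induction_linear with
  | zero => simp
  | add a b ha hb =>
    rw [map_add, map_add, ha, hb, map_add, add_smul]
    abel
  | single x r =>
    rw [Tup_k_single, SS.dd_single, Fin.sum_univ_two, Tup_face_zero, sumc_single]
    have h1 : (tSS G S).face 0 1 (Fin.cons s₀ x : Fin 2 → S) = fun _ => s₀ := by
      funext j
      change (Fin.cons s₀ x : Fin 2 → S) (Fin.succAbove 1 j) = s₀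
      refine Fin.cases rfl (fun i => i.elim0) j
    rw [h1, Finsupp.smul_single, smul_eq_mul, mul_one, sub_eq_add_neg, ← Finsupp.single_neg]
    simp

/-- PROOF: fix `s₀ : S`. Contraction `k m : ((Fin (m+1) → S) →₀ R) → ((Fin (m+2) → S) →₀ R)`,
`k m = lmapDomain (fun x => Fin.cons s₀ x)`. The face `0` of `Fin.cons s₀ x` is `x`, the face
`i.succ` of it is `Fin.cons s₀ (face i x)`. So `dd m (k m c) + k (m-1) (dd (m-1) c) = c` for
`m ≥ 1` and `dd 0 (k 0 c) = c - sumc c • single (fun _ => s₀) 1` in degree `0`. -/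
theorem tAug_exact [Nonempty S] : ((tSS G S).aug R).Exact := by
  obtain ⟨s₀⟩ := ‹Nonempty S›
  refine ⟨⟨Finsupp.single (fun _ => s₀) 1, ?_⟩, ?_, ?_⟩
  · rw [SS.aug_ε, sumc_single]
  · intro x hx
    refine ⟨Tup_k R S s₀ 0 x, ?_⟩
    have h1 : sumc R (Fin 1 → S) x = 0 := hx
    have h2 := Tup_htpy_zero (G := G) R S s₀ x
    rw [h1, zero_smul, sub_zero] at h2
    exact h2
  · intro m x hx
    refine ⟨Tup_k R S s₀ (m + 1) x, ?_⟩
    have h1 : (tSS G S).dd R m x = 0 := hx
    have h2 := Tup_htpy (G := G) R S s₀ m x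
    rw [h1, map_zero, add_zero] at h2
    exact h2

variable {S}

/-- PROOF: `liftProp_perm`; if `g` fixes a tuple then it fixes its first entry. -/
theorem tLifts (N : Subgroup G) (h : ∀ (s : S) (g : G), g • s = s → g ∈ N) :
    ((tSS G S).cx R).Lifts N := by
  intro m
  exact liftProp_perm N fun x g hg => h (x 0) g (congrFun hg 0)

/-- PROOF: on basis elements. -/
theorem tTriv (N : Subgroup G) (h : ∀ (s : S), ∀ g ∈ N, g • s = s) :
    ((tSS G S).cx R).Triv N := by
  intro m g hg x
  change perm R G (Fin (m + 1) → S) g x = x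
  induction x using Finsupp.induction_linear with
  | zero => simp
  | add a b ha hb => rw [map_add, ha, hb]
  | single x r =>
    rw [perm_single]
    congr 1
    funext j
    exact h (x j) g hg

end Pool.Agent.W_3f1825_h40
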